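import Pool.Agent.H43.PC.Gate

set_option autoImplicit false

/-!
# Lattice systems whose schemes of solutions are smooth integral complete intersections
-/

namespace Pool.Agent.H43.PC

/-- The `r` gates `γ` in `n` variables are a lattice system with the constants `0` and `1`, and the
scheme of the solutions is integral, smooth over the field `k`, and of dimension `m = n - r`. -/
structure LatCI {k : Type} [Field k] {n r : ℕ} (γ : Fin r → Gate k (Fin n)) (m : ℕ) : Prop where
  lattice : OnLattice {0, 1} γ
  count : n = r + m
  domain : IsDomain (Net γ)
  smooth : Algebra.Smooth k (Net γ)
  dim : ringKrullDim (Net γ) = m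

end Pool.Agent.H43.PC
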