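import Pool.Agent.H43.PC.Dom

/-!
# The lattice hypersurfaces are smooth affine cubic hypersurfaces
-/

set_option autoImplicit false

open CategoryTheory AlgebraicGeometry MvPolynomial

namespace Pool.Agent.H43.PC

open Pool.Agent.Y116.UV

/-- `A[w] / (∑ f_l w_l - 1)` is smooth over `A` -/
theorem jou_smooth (A : Type) [CommRing A] {r : ℕ} (g : Fin r → A) :
    Algebra.Smooth A (Jou g) := by
  let I : Ideal (MvPolynomial (Fin r) A) := Ideal.span
    {∑ i, MvPolynomial.C (g i) * MvPolynomial.X i - (1 : MvPolynomial (Fin r) A)}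
  let H := MvPolynomial (Fin r) A ⧸ I
  let t : Fin r → H := fun i => Ideal.Quotient.mk I (MvPolynomial.X i)
  have hrel : ∑ i, algebraMap A H (g i) * t i = 1 := by
    have h1 : Ideal.Quotient.mk I
        (∑ i, MvPolynomial.C (g i) * MvPolynomial.X i - (1 : MvPolynomial (Fin r) A)) = 0 :=
      Ideal.Quotient.eq_zero_iff_mem.mpr (Ideal.subset_span rfl)
    rw [map_sub, map_one, sub_eq_zero, map_sum] at h1
    rw [← h1]
    refine Finset.sum_congr rfl fun i _ => ?_
    rw [map_mul]
    rfl
  have hfp : Algebra.FinitePresentation A H :=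
    Algebra.FinitePresentation.quotient ⟨{∑ i, MvPolynomial.C (g i) * MvPolynomial.X i - 1}, by
      simp [I]⟩
  have hfs : Algebra.FormallySmooth A H := by
    refine Algebra.FormallySmooth.of_comp_surjective ?_
    intro B _ _ J hJ f
    choose s hs using fun i => Ideal.Quotient.mk_surjective (f (t i))
    let ε : B := 1 - ∑ i, algebraMap A B (g i) * s i
    have hε : ε ∈ J := by
      rw [← Ideal.Quotient.eq_zero_iff_mem, map_sub, map_one, map_sum, sub_eq_zero]
      have h2 := congrArg f hrel
      rw [map_one, map_sum] at h2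
      rw [← h2]
      refine Finset.sum_congr rfl fun i _ => ?_
      rw [map_mul, map_mul, hs, f.commutes]
      rfl
    have hε2 : ε * ε = 0 := by
      have h3 : ε * ε ∈ J ^ 2 := by rw [pow_two]; exact Ideal.mul_mem_mul hε hε
      rw [hJ] at h3
      exact h3
    let s' : Fin r → B := fun i => s i * (1 + ε)
    have hs' : ∑ i, algebraMap A B (g i) * s' i = 1 := by
      have h4 : ∑ i, algebraMap A B (g i) * s' i = (1 - ε) * (1 + ε) := by
        have h5 : ∑ i, algebraMap A B (g i) * s i = 1 - ε := by simp [ε]
        rw [← h5, Finset.sum_mul]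
        refine Finset.sum_congr rfl fun i _ => ?_
        simp only [s', mul_assoc]
      rw [h4]
      linear_combination -hε2
    let F : H →ₐ[A] B := Ideal.Quotient.liftₐ I (MvPolynomial.aeval s') (by
      intro a ha
      have h2 : I ≤ RingHom.ker (MvPolynomial.aeval (R := A) s') := by
        rw [Ideal.span_le]
        rintro _ rfl
        simp only [SetLike.mem_coe, RingHom.mem_ker, map_sub, map_one, map_sum, map_mul,
          MvPolynomial.aeval_X, MvPolynomial.aeval_C]
        rw [hs', sub_self]
      exact h2 ha)
    refine ⟨F, ?_⟩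
    apply Ideal.Quotient.algHom_ext
    apply MvPolynomial.algHom_ext
    intro i
    have h6 : F (t i) = s' i := by
      change MvPolynomial.aeval (R := A) s' (MvPolynomial.X i) = s' i
      simp
    change Ideal.Quotient.mk J (F (t i)) = f (t i)
    rw [h6]
    have h7 : Ideal.Quotient.mk J ε = 0 := Ideal.Quotient.eq_zero_iff_mem.mpr hε
    simp only [s', map_mul, map_add, map_one, h7, add_zero, mul_one, hs]
  exact ⟨hfs, hfp⟩

variable {R : Type} [CommRing R]

/-- the lattice hypersurfaces are smooth -/
theorem hypG_smooth {n r : ℕ} (γ : Fin r → Gate R (Fin n)) : Algebra.Smooth R (HypG γ) := by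
  have h0 : Algebra.Smooth R (MvPolynomial (Fin n) R) := ⟨inferInstance, inferInstance⟩
  have h1 := jou_smooth (MvPolynomial (Fin n) R) (fun g => (γ g).poly)
  have h2 : Algebra.Smooth R (Jou fun g => (γ g).poly) :=
    Algebra.Smooth.comp R (MvPolynomial (Fin n) R) _
  exact Algebra.Smooth.of_equiv (hypJou γ).symm

/-- the lattice hypersurfaces are smooth schemes -/
theorem isLat_smooth {S : Set R} {Z : Sch R} (h : IsLat S Z) : Smooth Z.hom := by
  obtain ⟨n, r, γ, -, rfl⟩ := h
  have h1 := hypG_smooth γ
  refine (HasRingHomProperty.Spec_iff (P := @Smooth)).mpr ?_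
  exact RingHom.smooth_algebraMap.mpr h1

lemma totalDegree_X_le' {σ : Type} (a : σ) : (X a : MvPolynomial σ R).totalDegree ≤ 1 := by
  refine (totalDegree_monomial_le _ _).trans ?_
  simp

/-- the polynomial of the hypersurface has degree at most three -/
theorem cub_degree {n r : ℕ} (γ : Fin r → Gate R (Fin n)) : (cub γ).totalDegree ≤ 3 := by
  refine totalDegree_finsetSum_le fun g _ => ?_
  refine (totalDegree_mul _ _).trans ?_
  have h1 : (X (Sum.inl g) : MvPolynomial (Fin r ⊕ Fin n) R).totalDegree ≤ 1 := totalDegree_X_le' _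
  have h2 : ∀ p : Gate R (Fin n), (rename Sum.inr p.poly :
      MvPolynomial (Fin r ⊕ Fin n) R).totalDegree ≤ 2 := by
    intro p
    refine (totalDegree_rename_le _ _).trans ?_
    have hX : ∀ a : Fin n, (X a : MvPolynomial (Fin n) R).totalDegree ≤ 1 := totalDegree_X_le'
    cases p with
    | const c a =>
      exact (totalDegree_sub _ _).trans (max_le ((hX a).trans one_le_two) (by simp))
    | eq a b =>
      exact (totalDegree_sub _ _).trans (max_le ((hX a).trans one_le_two)
        ((hX b).trans one_le_two))
    | add a b c =>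
      exact (totalDegree_sub _ _).trans (max_le ((totalDegree_add _ _).trans
        (max_le ((hX a).trans one_le_two) ((hX b).trans one_le_two))) ((hX c).trans one_le_two))
    | mul a b c =>
      exact (totalDegree_sub _ _).trans (max_le ((totalDegree_mul _ _).trans
        (add_le_add (hX a) (hX b))) ((hX c).trans one_le_two))
  exact add_le_add h1 (h2 _)

end Pool.Agent.H43.PC
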