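import Pool.Agent.H43.PC.Wt
import Pool.Agent.H43.PC.CI
import Pool.Agent.H43.PC.Smo
import Pool.Agent.H71.AR.AJ

set_option autoImplicit false

/-!
# The p-adic étale Abel–Jacobi map and lattice cubic hypersurfaces
-/

open CategoryTheory CategoryTheory.Limits AlgebraicGeometry

namespace Pool.Agent.H43.PC

open Pool.Agent.Y116.UV Pool.Agent.Y101.Th Pool.Agent.Y691.TU Pool.Agent.Z125.UN
  Pool.Agent.H71.AR

universe v u w

variable {M : Type u} [Category.{v} M] [Preadditive M] [HasZeroObject M] [HasBinaryBiproducts M]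

/-- `Ker_p(A(n))`: the kernel of `AJ_p : CH(A(n))^0 ⟶ H^1(ℚ, V_p(A(n)))`, as a functor of `A`. -/
noncomputable def KerAJ (T : AJData.{v, u, w} ℚ M) (p : Nat.Primes) (n : ℤ) :
    M ⥤ ModuleCat.{w} ℚ := T.tw n ⋙ kernel (T.AJ p)

noncomputable instance (T : AJData.{v, u, w} ℚ M) (p : Nat.Primes) (n : ℤ) :
    (KerAJ T p n).Additive :=
  inferInstanceAs (T.tw n ⋙ kernel (T.AJ p)).Additive

/-- The complex `Ker_p(W(Z)(n))` is exact. -/
def ExactAJ (T : AJData.{v, u, w} ℚ M) (W : Sch ℚ → CochainComplex M ℤ) (p : Nat.Primes) (n : ℤ)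
    (Z : Sch ℚ) : Prop :=
  ∀ j : ℤ, IsZero (wtH (WeightData.mk T.h W) (KerAJ T p n) j Z)

/-- Two known properties of these data.

* `twist`: `A(-1)(n + 1) = A(n)`;
* `point`: `Ker_p(ℚ(n)) = 0` for all `n`, since `CH(ℚ(n))^0 = 0` (stated for the complexes
  `Ker_p(W(Spec ℚ)(n))`). -/
structure IsTwistEt (T : AJData.{v, u, w} ℚ M) (W : Sch ℚ → CochainComplex M ℤ) : Prop where
  twist : ∀ n : ℤ, Nonempty (T.tw (-1) ⋙ T.tw (n + 1) ≅ T.tw n)
  point : ∀ (p : Nat.Primes) (n : ℤ), ExactAJ T W p n (aff ℚ ℚ)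

/-- **The p-adic étale Abel–Jacobi map and lattice cubics.** -/
theorem aj_lat {T : AJData.{v, u, w} ℚ M} {W : Sch ℚ → CochainComplex M ℤ}
    (hD : IsWeightB (WeightData.mk T.h W) (T.tw (-1))) (hT : IsTwistEt T W) (p : Nat.Primes) (n : ℤ)
    (d : ℕ) :
    List.TFAE [
      ∀ A : M, IsPart T n d A → InjectiveFor T p A,
      ∀ (N r : ℕ) (γ : Fin r → Gate ℚ (Fin N)), OnLattice {0, 1} γ → ringKrullDim (Net γ) ≤ d →
        ExactAJ T W p (n + r - 1) (aff ℚ (HypG γ)),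
      ∀ (N r m : ℕ) (γ : Fin r → Gate ℚ (Fin N)), LatCI γ m → m ≤ d →
        ExactAJ T W p (n + r - 1) (aff ℚ (HypG γ))] := by
  have hF : ∀ i, Nonempty (T.tw (-1) ⋙ KerAJ T p (i + 1) ≅ KerAJ T p i) := by
    intro i
    obtain ⟨e⟩ := hT.twist i
    exact ⟨(Functor.associator _ _ _).symm ≪≫ Functor.isoWhiskerRight e (kernel (T.AJ p))⟩
  have key := wt_lat hD (KerAJ T p) hF (hT.point p) isFrac_rat n d
  have e : (∀ A : M, IsPart T n d A → InjectiveFor T p A) ↔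
      ∀ Y : Sch ℚ, SmProj Y → topologicalKrullDim Y.left ≤ d →
        IsZero ((KerAJ T p n).obj (T.h Y)) := by
    constructor
    · intro h Y hY hd
      exact (isZero_kernel (T.AJ p) _).mpr (h _ ⟨Y, hY, hd, 𝟙 _, 𝟙 _, Category.comp_id _⟩)
    · rintro h A ⟨X, hX, hd, s, r, hsr⟩
      exact mono_retract (T.AJ p) s r hsr ((isZero_kernel (T.AJ p) _).mp (h X hX hd))
  have k01 := key.out 0 1
  have k20 := key.out 2 0
  rw [e]
  tfae_have 1 → 2 := k01.mp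
  tfae_have 2 → 3 := fun h N r m γ hγ hm =>
    h N r γ hγ.lattice (by rw [hγ.dim]; exact_mod_cast hm)
  tfae_have 3 → 1 := fun h => k20.mp fun N r γ h1 h2 h3 m hm hn h4 =>
    h N r m γ ⟨h1, hn, h2, h3, h4⟩ hm
  tfae_finish

end Pool.Agent.H43.PC
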