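import Pool.Agent.H43.PC.WtNat
import Pool.Agent.H43.PC.CI
import Pool.Agent.H43.PC.Smo
import Pool.Agent.H71.AR.BB

set_option autoImplicit false

/-!
# The complex Abel–Jacobi map over the rational numbers and lattice cubic hypersurfaces
-/

open CategoryTheory CategoryTheory.Limits AlgebraicGeometry

namespace Pool.Agent.H43.PC

open Pool.Agent.Y116.UV Pool.Agent.Y101.Th Pool.Agent.Y691.TU Pool.Agent.Z125.UN
  Pool.Agent.H71.AR

universe v u

variable {M : Type u} [Category.{v} M] [Preadditive M] [HasZeroObject M] [HasBinaryBiproducts M]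

/-- `Ker_i(A)`: the kernel of `CH^i(A)^0 ⊗ ℚ ⟶ J^i(A_ℂ) ⊗ ℚ`, as a functor of `A`. -/
noncomputable def Ker (T : BBData M) (i : ℕ) : M ⥤ ModuleCat.{0} ℚ := kernel (T.AJ i)

noncomputable instance (T : BBData M) (i : ℕ) : (Ker T i).Additive :=
  inferInstanceAs (kernel (T.AJ i)).Additive

/-- Known properties of the groups `Ker_i(A)`, the kernel of `CH^i(A)^0 ⊗ ℚ ⟶ J^i(A_ℂ) ⊗ ℚ` for
effective Chow motives `A` over `ℚ` (`M` is the category of the effective Chow motives, which contains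
the motives `h(X)` and the terms of the complexes `W(X)`, and is stable under `A ↦ A(-1)`; `zero` fails
for some non-effective motives); `L` is the Tate twist `A ↦ A(-1)` and `W` the weight complexes.

* `zero`: `CH^0(A)^0 = 0`, cycles of codimension zero which are homologous to zero are zero;
* `twist`: `Ker_(i+1)(A(-1)) = Ker_i(A)`;
* `point`: `Ker_i(Spec ℚ) = 0` for all `i` (stated for the complexes `Ker_i(W(Spec ℚ))`). -/
structure IsTwistAJ (T : BBData M) (W : Sch ℚ → CochainComplex M ℤ) (L : M ⥤ M) : Prop where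
  zero : ∀ A : M, IsZero ((T.CH 0).obj A)
  twist : ∀ i : ℕ, Nonempty (L ⋙ Ker T (i + 1) ≅ Ker T i)
  point : ∀ (i : ℕ) (j : ℤ), IsZero (wtH (WeightData.mk T.h W) (Ker T i) j (aff ℚ ℚ))

/-- The complex `Ker_i(W(Z))` is exact. -/
def KerExact (T : BBData M) (W : Sch ℚ → CochainComplex M ℤ) (i : ℕ) (Z : Sch ℚ) : Prop :=
  ∀ j : ℤ, IsZero (wtH (WeightData.mk T.h W) (Ker T i) j Z)

/-- **The Abel–Jacobi map over `ℚ` and lattice cubics.** -/
theorem bb_lat {T : BBData M} (hT : IsBB T) {W : Sch ℚ → CochainComplex M ℤ} {L : M ⥤ M}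
    [L.Additive] (hD : IsWeightB (WeightData.mk T.h W) L) (hL : IsTwistAJ T W L) (i d : ℕ) :
    List.TFAE [
      ∀ X : Sch ℚ, SmProper X → topologicalKrullDim X.left ≤ d → KernelTorsion T i X,
      ∀ (n r : ℕ) (γ : Fin r → Gate ℚ (Fin n)), OnLattice {0, 1} γ → 0 < r →
        ringKrullDim (Net γ) ≤ d → KerExact T W (i + r - 1) (aff ℚ (HypG γ)),
      ∀ (n r m : ℕ) (γ : Fin r → Gate ℚ (Fin n)), LatCI γ m → 0 < r → m ≤ d →
        KerExact T W (i + r - 1) (aff ℚ (HypG γ))] := by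
  have h0 : ∀ X : M, IsZero ((Ker T 0).obj X) := by
    intro X
    refine (isZero_kernel (T.AJ 0) X).mpr ?_
    exact ⟨fun g h _ => (hL.zero X).eq_of_tgt _ _⟩
  have key := wt_lat_nat hD (Ker T) h0 hL.twist hL.point isFrac_rat i d
  have e : (∀ X : Sch ℚ, SmProper X → topologicalKrullDim X.left ≤ d → KernelTorsion T i X) ↔
      ∀ Y : Sch ℚ, SmProj Y → topologicalKrullDim Y.left ≤ d →
        IsZero ((Ker T i).obj (T.h Y)) := by
    constructor
    · intro h Y hY hd
      exact (isZero_kernel (T.AJ i) _).mpr ((mono_iff_torsion hT i (smProper_of_smProj hY)).mpr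
        (h Y (smProper_of_smProj hY) hd))
    · intro h X hX hd
      rw [← mono_iff_torsion hT i hX]
      obtain ⟨Y, hY, hYd, s, r, hsr⟩ := hT.proper X hX
      exact mono_retract (T.AJ i) s r hsr
        ((isZero_kernel (T.AJ i) _).mp (h Y hY (hYd.trans hd)))
  have k01 := key.out 0 1
  have k20 := key.out 2 0
  rw [e]
  tfae_have 1 → 2 := k01.mp
  tfae_have 2 → 3 := fun h n r m γ hγ hr hm =>
    h n r γ hγ.lattice hr (by rw [hγ.dim]; exact_mod_cast hm)
  tfae_have 3 → 1 := fun h => k20.mp fun n r γ h1 hr h2 h3 m hm hn h4 =>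
    h n r m γ ⟨h1, hn, h2, h3, h4⟩ hr hm
  tfae_finish

end Pool.Agent.H43.PC
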