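import Pool.Graph.R_seed8.Z125.UN.Emb

/-!
# An integral affine scheme of dimension `n` is birational to a hypersurface in the affine space of
dimension `n + 1`
-/

set_option autoImplicit false

open MvPolynomial

namespace Pool.Agent.H43.PC

open Pool.Agent.Z125.UN

section dim

/-- the dimension of an integral extension -/
lemma dim_ge_of_integral {R S : Type} [CommRing R] [CommRing S] [Algebra R S]
    [Algebra.IsIntegral R S] : ringKrullDim S ≤ ringKrullDim R := by
  refine Order.krullDim_le_of_strictMono (PrimeSpectrum.comap (algebraMap R S)) ?_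
  intro p q hpq
  exact Ideal.IsIntegral.comap_lt_comap (R := R) (A := S) (I := p.asIdeal) (J := q.asIdeal) hpq

variable {k : Type} [Field k]

lemma dim_mv (n : ℕ) : ringKrullDim (MvPolynomial (Fin n) k) = n := by
  rw [MvPolynomial.ringKrullDim_of_isNoetherianRing, ringKrullDim_eq_zero_of_field, zero_add,
    Nat.card_eq_fintype_card, Fintype.card_fin]

/-- The dimension is the transcendence degree. -/
lemma dim_trdeg (B : Type) [CommRing B] [IsDomain B] [Algebra k B] [Algebra.FiniteType k B] :
    ∃ r : ℕ, ringKrullDim B = r ∧ Algebra.trdeg k B = r := by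
  obtain ⟨r, g, ginj, gint⟩ := exists_integral_inj_algHom_of_fg k B
  let _ : Algebra (MvPolynomial (Fin r) k) B := g.toRingHom.toAlgebra
  have : IsScalarTower k (MvPolynomial (Fin r) k) B := .of_algebraMap_eq fun a => (g.commutes a).symm
  have hint : Algebra.IsIntegral (MvPolynomial (Fin r) k) B := ⟨gint⟩
  refine ⟨r, ?_, ?_⟩
  · rw [← dim_mv (k := k) r]
    exact le_antisymm dim_ge_of_integral (dim_le_of_integral ginj)
  · have : FaithfulSMul (MvPolynomial (Fin r) k) B :=
      (faithfulSMul_iff_algebraMap_injective _ _).mpr ginj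
    have hb1 : IsTranscendenceBasis k (algebraMap (MvPolynomial (Fin r) k) B ∘ X) :=
      (IsTranscendenceBasis.mvPolynomial (Fin r) k).algebraMap_comp
    have h1 := hb1.cardinalMk_eq_trdeg
    rw [← h1, Cardinal.mk_fin]

lemma dim_eq_of_trdeg {A B : Type} [CommRing A] [IsDomain A] [Algebra k A] [Algebra.FiniteType k A]
    [CommRing B] [IsDomain B] [Algebra k B] [Algebra.FiniteType k B]
    (h : Algebra.trdeg k A = Algebra.trdeg k B) : ringKrullDim A = ringKrullDim B := by
  obtain ⟨r, h1, h2⟩ := dim_trdeg (k := k) A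
  obtain ⟨s, h3, h4⟩ := dim_trdeg (k := k) B
  rw [h1, h3]
  rw [h2, h4] at h
  have : r = s := by exact_mod_cast h
  rw [this]

/-- the transcendence degree of an injective algebraic extension -/
lemma trdeg_alg {A L : Type} [CommRing A] [IsDomain A] [Algebra k A] [CommRing L] [IsDomain L]
    [Algebra A L] [Algebra k L] [IsScalarTower k A L] [FaithfulSMul A L] [Algebra.IsAlgebraic A L] :
    Algebra.trdeg k A = Algebra.trdeg k L := by
  have h1 := trdeg_add_eq k A (A := L)
  rw [trdeg_eq_zero (R := A) (A := L), add_zero] at h1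
  exact h1

/-- the dimension of a localisation -/
lemma dim_loc {A : Type} [CommRing A] [IsDomain A] [Algebra k A] [Algebra.FiniteType k A] {x : A}
    (hx : x ≠ 0) : ringKrullDim (Localization.Away x) = ringKrullDim A := by
  have hd : IsDomain (Localization.Away x) := IsLocalization.Away.isDomain _ hx
  have hf : Algebra.FiniteType k (Localization.Away x) :=
    Algebra.FiniteType.trans (S := A) inferInstance inferInstance
  have hM : Submonoid.powers x ≤ nonZeroDivisors A := powers_le_nonZeroDivisors_of_noZeroDivisors hx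
  have hinj : Function.Injective (algebraMap A (Localization.Away x)) :=
    IsLocalization.injective (Localization.Away x) hM
  have : FaithfulSMul A (Localization.Away x) :=
    (faithfulSMul_iff_algebraMap_injective _ _).mpr hinj
  have hal : Algebra.IsAlgebraic A (Localization.Away x) :=
    IsLocalization.isAlgebraic _ (Submonoid.powers x)
  exact (dim_eq_of_trdeg (k := k) trdeg_alg).symm

end dim

section loc

variable {k : Type} [Field k] {L : Type} [CommRing L] [IsDomain L] [Algebra k L] {N : ℕ}
  (φ : MvPolynomial (Fin N) k →ₐ[k] L) (g : MvPolynomial (Fin N) k) (hg : IsUnit (φ g))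
  (hs : ∀ a, ∃ (m : ℕ) (p : MvPolynomial (Fin N) k), φ g ^ m * a = φ p)

include hg hs in
/-- the dimension of the closure -/
lemma dim_ker [Algebra.FiniteType k L] :
    ringKrullDim (MvPolynomial (Fin N) k ⧸ RingHom.ker φ) = ringKrullDim L := by
  let Q := MvPolynomial (Fin N) k ⧸ RingHom.ker φ
  let ψ : Q →ₐ[k] L := Ideal.kerLiftAlg φ
  have hψ : Function.Injective ψ := Ideal.kerLiftAlg_injective φ
  have hp : (RingHom.ker φ).IsPrime := RingHom.ker_isPrime φ
  let _ : Algebra Q L := ψ.toRingHom.toAlgebra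
  have hst : IsScalarTower k Q L := .of_algebraMap_eq fun a => (ψ.commutes a).symm
  have hfs : FaithfulSMul Q L := (faithfulSMul_iff_algebraMap_injective _ _).mpr hψ
  have hal : Algebra.IsAlgebraic Q L := by
    refine ⟨fun a => ?_⟩
    obtain ⟨m, p, h⟩ := hs a
    refine ⟨Polynomial.C (Ideal.Quotient.mk _ (g ^ m)) * Polynomial.X -
      Polynomial.C (Ideal.Quotient.mk _ p), fun h0 => ?_, ?_⟩
    · have h1 := congrArg (fun f => Polynomial.coeff f 1) h0
      simp only [Polynomial.coeff_sub, Polynomial.coeff_C_mul, Polynomial.coeff_X_one, mul_one,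
        Polynomial.coeff_C_succ, sub_zero, Polynomial.coeff_zero] at h1
      have h2 : φ (g ^ m) = 0 := Ideal.Quotient.eq_zero_iff_mem.mp h1
      rw [map_pow] at h2
      exact (hg.pow m).ne_zero h2
    · rw [map_sub, map_mul, Polynomial.aeval_C, Polynomial.aeval_C, Polynomial.aeval_X, sub_eq_zero]
      change φ (g ^ m) * a = φ p
      rw [map_pow]
      exact h
  exact dim_eq_of_trdeg (k := k) trdeg_alg

end loc

section hyp

variable {k : Type} [Field k] {L : Type} [CommRing L] [IsDomain L] [Algebra k L]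
  [Algebra.FiniteType k L] {n : ℕ}
  (φ : MvPolynomial (Fin (n + 1)) k →ₐ[k] L) (g : MvPolynomial (Fin (n + 1)) k)
  (hg : IsUnit (φ g)) (hs : ∀ a, ∃ (m : ℕ) (p : MvPolynomial (Fin (n + 1)) k), φ g ^ m * a = φ p)

include hg hs in
/-- the kernel is a principal ideal -/
lemma ker_principal (hn : ringKrullDim L = n) :
    ∃ F : MvPolynomial (Fin (n + 1)) k, RingHom.ker φ = Ideal.span {F} := by
  have hd := dim_ker φ g hg hs
  rw [hn] at hd
  have hp : (RingHom.ker φ).IsPrime := RingHom.ker_isPrime φ
  have hne : RingHom.ker φ ≠ ⊥ := by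
    intro h
    rw [h, (RingEquiv.quotientBot (MvPolynomial (Fin (n + 1)) k)).ringKrullDim, dim_mv] at hd
    have : n + 1 = n := by exact_mod_cast hd
    omega
  obtain ⟨F, hF, hFp⟩ := hp.exists_mem_prime_of_ne_bot hne
  refine ⟨F, ?_⟩
  have hle : Ideal.span {F} ≤ RingHom.ker φ := by
    rw [Ideal.span_le, Set.singleton_subset_iff]
    exact hF
  by_contra hcon
  have hlt : Ideal.span {F} < RingHom.ker φ := lt_of_le_of_ne hle fun h => hcon h.symm
  obtain ⟨a, ha, haF⟩ := SetLike.exists_of_lt hlt
  have hFp' : (Ideal.span {F}).IsPrime := (Ideal.span_singleton_prime hFp.ne_zero).mpr hFp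
  let Q := MvPolynomial (Fin (n + 1)) k ⧸ Ideal.span {F}
  have ha0 : (Ideal.Quotient.mk (Ideal.span {F}) a) ≠ 0 := fun h =>
    haF (Ideal.Quotient.eq_zero_iff_mem.mp h)
  have h1 : ringKrullDim (Q ⧸ Ideal.span {Ideal.Quotient.mk (Ideal.span {F}) a}) + 1 ≤
      ringKrullDim Q :=
    ringKrullDim_quotient_succ_le_of_nonZeroDivisor (mem_nonZeroDivisors_of_ne_zero ha0)
  have h2 : ringKrullDim Q + 1 ≤ ringKrullDim (MvPolynomial (Fin (n + 1)) k) :=
    ringKrullDim_quotient_succ_le_of_nonZeroDivisor (mem_nonZeroDivisors_of_ne_zero hFp.ne_zero)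
  have h3 : ringKrullDim (MvPolynomial (Fin (n + 1)) k ⧸ RingHom.ker φ) ≤
      ringKrullDim (Q ⧸ Ideal.span {Ideal.Quotient.mk (Ideal.span {F}) a}) := by
    have hle2 : Ideal.span {Ideal.Quotient.mk (Ideal.span {F}) a} ≤
        (RingHom.ker φ).map (Ideal.Quotient.mk (Ideal.span {F})) := by
      rw [Ideal.span_le, Set.singleton_subset_iff]
      exact Ideal.mem_map_of_mem _ ha
    refine ringKrullDim_le_of_surjective
      ((DoubleQuot.quotQuotEquivQuotOfLE hle).toRingHom.comp (Ideal.Quotient.factor hle2))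
      ((DoubleQuot.quotQuotEquivQuotOfLE hle).surjective.comp
        (Ideal.Quotient.factor_surjective hle2))
  rw [dim_mv] at h2
  rw [hd] at h3
  have h4 : ((n : ℕ) : WithBot ℕ∞) + 1 + 1 ≤ ((n + 1 : ℕ) : WithBot ℕ∞) :=
    (add_le_add_left (add_le_add_left h3 1 |>.trans h1) 1).trans h2
  have h5 : n + 1 + 1 ≤ n + 1 := by exact_mod_cast h4
  omega

end hyp

end Pool.Agent.H43.PC
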