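import Pool.Agent.H43.PC.Zed
import Pool.Agent.H43.PC.Dim
import Pool.Agent.H71.AR.Eng

/-!
# Integral schemes and lattice systems: dimensions
-/

set_option autoImplicit false

open MvPolynomial

namespace Pool.Agent.H43.PC

open Pool.Agent.Z125.UN Pool.Agent.H71.AR

section loc

variable {k : Type} [Field k] {L : Type} [CommRing L] [Algebra k L] {N : ℕ}
  (φ : MvPolynomial (Fin N) k →ₐ[k] L) (g F : MvPolynomial (Fin N) k) (hg : IsUnit (φ g))
  (hs : ∀ a, ∃ (m : ℕ) (p : MvPolynomial (Fin N) k), φ g ^ m * a = φ p)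
  (hF : RingHom.ker φ = Ideal.span {F})

/-- the ideal of the relations -/
noncomputable abbrev Jl : Ideal (MvPolynomial (Fin (N + 1)) k) :=
  Ideal.span {rename Fin.castSucc F, rename Fin.castSucc g * X (Fin.last N) - 1}

/-- the values of the variables -/
noncomputable def vl (j : Fin (N + 1)) : L := Fin.snoc (α := fun _ => L) (fun i => φ (X i))
  (↑hg.unit⁻¹ : L) j

lemma aeval_vl (p : MvPolynomial (Fin N) k) :
    aeval (vl φ g hg) (rename Fin.castSucc p) = φ p := by
  rw [aeval_rename]
  have h1 : (vl φ g hg) ∘ Fin.castSucc = fun i => φ (X i) := by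
    funext i
    simp [vl]
  rw [h1]
  exact (congrArg (fun f => f p) (MvPolynomial.aeval_unique φ)).symm

lemma aeval_vl_last : φ g * aeval (vl φ g hg) (X (Fin.last N) : MvPolynomial (Fin (N + 1)) k) = 1 := by
  rw [aeval_X, vl, Fin.snoc_last]
  exact hg.mul_val_inv

lemma red_vl (q : MvPolynomial (Fin (N + 1)) k) : ∃ (m : ℕ) (p : MvPolynomial (Fin N) k),
    Ideal.Quotient.mk (Jl g F) (rename Fin.castSucc g) ^ m * Ideal.Quotient.mk (Jl g F) q =
      Ideal.Quotient.mk (Jl g F) (rename Fin.castSucc p) := by
  have hr : Ideal.Quotient.mk (Jl g F) (rename Fin.castSucc g) *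
      Ideal.Quotient.mk (Jl g F) (X (Fin.last N)) = 1 := by
    rw [← map_mul, ← sub_eq_zero, ← map_one (Ideal.Quotient.mk (Jl g F)), ← map_sub,
      Ideal.Quotient.eq_zero_iff_mem]
    exact Ideal.subset_span (Or.inr rfl)
  induction q using MvPolynomial.induction_on with
  | C r => exact ⟨0, C r, by rw [pow_zero, one_mul, rename_C]⟩
  | add p q hp hq =>
    obtain ⟨m, a, h1⟩ := hp
    obtain ⟨m', b, h2⟩ := hq
    refine ⟨m + m', g ^ m' * a + g ^ m * b, ?_⟩
    simp only [map_add, map_mul, map_pow]
    rw [← h1, ← h2]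
    ring
  | mul_X p i hp =>
    obtain ⟨m, a, h1⟩ := hp
    refine Fin.lastCases ?_ (fun j => ?_) i
    · refine ⟨m + 1, a, ?_⟩
      rw [← h1, map_mul]
      linear_combination (Ideal.Quotient.mk (Jl g F) (rename Fin.castSucc g) ^ m *
        Ideal.Quotient.mk (Jl g F) p) * hr
    · refine ⟨m, a * X j, ?_⟩
      rw [map_mul, map_mul, map_mul, ← h1, rename_X]
      ring

include hg hs hF in
/-- A presentation of an algebra of dimension `n` by two relations between `n + 2` variables. -/
theorem exists_iso_loc : Nonempty ((MvPolynomial (Fin (N + 1)) k ⧸ Jl g F) ≃ₐ[k] L) := by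
  let ψ : MvPolynomial (Fin (N + 1)) k →ₐ[k] L := aeval (vl φ g hg)
  have hψ : Function.Surjective ψ := by
    intro a
    obtain ⟨m, p, h⟩ := hs a
    refine ⟨X (Fin.last N) ^ m * rename Fin.castSucc p, ?_⟩
    have h1 := aeval_vl_last φ g hg
    change aeval (vl φ g hg) _ = a
    rw [map_mul, map_pow, aeval_vl, ← h, ← mul_assoc, ← mul_pow, mul_comm _ (φ g), h1, one_pow,
      one_mul]
  have hk : Jl g F = RingHom.ker ψ := by
    apply le_antisymm
    · rw [Ideal.span_le]
      rintro p (rfl | rfl)
      · change aeval (vl φ g hg) _ = 0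
        rw [aeval_vl]
        have : F ∈ RingHom.ker φ := by
          rw [hF]
          exact Ideal.mem_span_singleton_self F
        exact this
      · change aeval (vl φ g hg) _ = 0
        rw [map_sub, map_mul, aeval_vl, aeval_vl_last, map_one, sub_self]
    · intro q hq
      have hq' : ψ q = 0 := hq
      obtain ⟨m, p, h⟩ := red_vl g F q
      have hr : Ideal.Quotient.mk (Jl g F) (rename Fin.castSucc g) *
          Ideal.Quotient.mk (Jl g F) (X (Fin.last N)) = 1 := by
        rw [← map_mul, ← sub_eq_zero, ← map_one (Ideal.Quotient.mk (Jl g F)), ← map_sub,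
          Ideal.Quotient.eq_zero_iff_mem]
        exact Ideal.subset_span (Or.inr rfl)
      have hle : Jl g F ≤ RingHom.ker ψ := by
        rw [Ideal.span_le]
        rintro p (rfl | rfl)
        · change aeval (vl φ g hg) _ = 0
          rw [aeval_vl]
          have : F ∈ RingHom.ker φ := by
            rw [hF]
            exact Ideal.mem_span_singleton_self F
          exact this
        · change aeval (vl φ g hg) _ = 0
          rw [map_sub, map_mul, aeval_vl, aeval_vl_last, map_one, sub_self]
      have hp : φ p = 0 := by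
        rw [← map_pow, ← map_mul, Ideal.Quotient.eq] at h
        have h1 : ψ (rename Fin.castSucc g ^ m * q - rename Fin.castSucc p) = 0 := hle h
        rw [map_sub, map_mul, hq', mul_zero, zero_sub, neg_eq_zero] at h1
        rwa [← aeval_vl φ g hg]
      have hp' : Ideal.Quotient.mk (Jl g F) (rename Fin.castSucc p) = 0 := by
        have h1 : p ∈ Ideal.span {F} := by
          rw [← hF]
          exact hp
        obtain ⟨c, rfl⟩ := Ideal.mem_span_singleton'.mp h1
        rw [Ideal.Quotient.eq_zero_iff_mem, map_mul]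
        exact Ideal.mul_mem_left _ _ (Ideal.subset_span (Or.inl rfl))
      rw [hp'] at h
      have h2 : Ideal.Quotient.mk (Jl g F) q = 0 := by
        have h3 : Ideal.Quotient.mk (Jl g F) q =
            (Ideal.Quotient.mk (Jl g F) (rename Fin.castSucc g) *
              Ideal.Quotient.mk (Jl g F) (X (Fin.last N))) ^ m * Ideal.Quotient.mk (Jl g F) q := by
          rw [hr, one_pow, one_mul]
        rw [h3, mul_pow, mul_comm (Ideal.Quotient.mk (Jl g F) (rename Fin.castSucc g) ^ m),
          mul_assoc, h, mul_zero]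
      exact Ideal.Quotient.eq_zero_iff_mem.mp h2
  exact ⟨(Ideal.quotientEquivAlgOfEq k hk).trans (Ideal.quotientKerAlgEquivOfSurjective hψ)⟩

end loc

section int

/-- clearing denominators -/
lemma frac_int {R : Type} [CommRing R] (hR : IsFrac R) {σ : Type} (g : MvPolynomial σ R) :
    ∃ u : R, IsUnit u ∧ ∃ p : MvPolynomial σ ℤ, map (Int.castRingHom R) p = C u * g := by
  classical
  obtain ⟨u, hu, h⟩ := frac_scale hR g
  choose w hw using h
  refine ⟨u, hu, ∑ m ∈ g.support, monomial m (w m), ?_⟩
  rw [map_sum]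
  conv_rhs => rw [g.as_sum, Finset.mul_sum]
  apply Finset.sum_congr rfl
  intro m _
  rw [map_monomial, C_mul_monomial]
  congr 1
  have := hw m
  rw [coeff_C_mul] at this
  rw [eq_intCast, this]

end int

/-- A non-empty open subscheme of an integral scheme of dimension `m` is given by two equations with
integer coefficients in `m + 2` variables. -/
theorem exists_two {k : Type} [Field k] [PerfectField k] (hf : IsFrac k) (B : Type) [CommRing B]
    [IsDomain B] [Algebra k B] [Algebra.FiniteType k B] (m : ℕ) (hm : ringKrullDim B = m) :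
    ∃ w : B, w ≠ 0 ∧ ∃ G : List (MvPolynomial (Fin (m + 2)) ℤ), G.length = 2 ∧
      Nonempty ((MvPolynomial (Fin (m + 2)) k ⧸ idZ k G) ≃ₐ[k] Localization.Away w) := by
  obtain ⟨x, hx⟩ := exists_gens k B m hm.le
  obtain ⟨w, hw, φ, g, hg, hs⟩ := exists_emb x hx
  have hd : IsDomain (Localization.Away w) := IsLocalization.Away.isDomain _ hw
  have hft : Algebra.FiniteType k (Localization.Away w) :=
    Algebra.FiniteType.trans (S := B) inferInstance inferInstance
  have hdim : ringKrullDim (Localization.Away w) = m := by rw [dim_loc (k := k) hw, hm]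
  obtain ⟨F, hF⟩ := ker_principal φ g hg hs hdim
  obtain ⟨u, hu, G1, hG1⟩ := frac_int hf F
  obtain ⟨v, hv, G2, hG2⟩ := frac_int hf g
  have hvk : IsUnit (φ (C v)) := (hv.map (C : k →+* MvPolynomial (Fin (m + 1)) k)).map φ
  have hg' : IsUnit (φ (C v * g)) := by
    rw [map_mul]
    exact hvk.mul hg
  have hs' : ∀ a, ∃ (i : ℕ) (p : MvPolynomial (Fin (m + 1)) k), φ (C v * g) ^ i * a = φ p := by
    intro a
    obtain ⟨i, p, h⟩ := hs a
    refine ⟨i, C v ^ i * p, ?_⟩
    rw [map_mul, map_mul, ← h, map_pow]
    ring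
  have hF' : RingHom.ker φ = Ideal.span {C u * F} := by
    rw [hF]
    exact (Ideal.span_singleton_mul_left_unit
      (hu.map (C : k →+* MvPolynomial (Fin (m + 1)) k)) F).symm
  obtain ⟨e⟩ := exists_iso_loc φ (C v * g) (C u * F) hg' hs' hF'
  refine ⟨w, hw, [rename Fin.castSucc G1, rename Fin.castSucc G2 * X (Fin.last (m + 1)) - 1], rfl,
    ⟨(Ideal.quotientEquivAlgOfEq k ?_).trans e⟩⟩
  rw [idZ, Jl]
  congr 1
  ext p
  simp only [List.mem_cons, List.not_mem_nil, or_false, exists_eq_or_imp, exists_eq_left,
    Set.mem_ofPred_eq, Set.mem_insert_iff, Set.mem_singleton_iff, map_sub, map_mul, map_one,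
    map_rename, map_X, hG1, hG2]
  constructor
  · rintro (rfl | rfl)
    · exact Or.inl rfl
    · exact Or.inr rfl
  · rintro (rfl | rfl)
    · exact Or.inl rfl
    · exact Or.inr rfl

/-- **Universality with dimensions.** Let `k` be a perfect field of fractions of integers. Every
integral affine scheme of dimension `m` of finite type over `k` has a non-empty open smooth subscheme
which is the scheme of the solutions of a lattice system of `r` gates in `r + m` variables. -/
theorem exists_lat {k : Type} [Field k] [PerfectField k] (hf : IsFrac k) (B : Type) [CommRing B]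
    [IsDomain B] [Algebra k B] [Algebra.FiniteType k B] (m : ℕ) (hm : ringKrullDim B = m) :
    ∃ w : B, w ≠ 0 ∧ Algebra.Smooth k (Localization.Away w) ∧
      ∃ (n r : ℕ) (γ : Fin r → Gate k (Fin n)), OnLattice {0, 1} γ ∧ 0 < r ∧ n = r + m ∧
        Nonempty (Net γ ≃ₐ[k] Localization.Away w) := by
  obtain ⟨x, hx, hs⟩ := exists_smooth (k := k) B
  have hd : IsDomain (Localization.Away x) := IsLocalization.Away.isDomain _ hx
  have hft : Algebra.FiniteType k (Localization.Away x) :=
    Algebra.FiniteType.trans (S := B) inferInstance inferInstance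
  obtain ⟨y, hy, G, hG, ⟨e⟩⟩ := exists_two hf (Localization.Away x) m
    (by rw [dim_loc (k := k) hx, hm])
  have hs' : Algebra.Smooth k (Localization.Away y) := by
    have h1 : Algebra.Smooth (Localization.Away x) (Localization.Away y) :=
      Algebra.Smooth.of_isLocalization_Away y
    exact Algebra.Smooth.comp k (Localization.Away x) (Localization.Away y)
  obtain ⟨w, hw, ⟨e'⟩⟩ := away_away (k := k) hx hy
  obtain ⟨n, r, γ, hγ, ⟨e''⟩, ⟨-, g, -⟩, hn⟩ := exists_net_int k G
  exact ⟨w, hw, Algebra.Smooth.of_equiv e'.symm, n, r, γ, hγ, (Nat.zero_le _).trans_lt g.2, by omega,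
    ⟨e''.trans (e.trans e'.symm)⟩⟩

end Pool.Agent.H43.PC
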