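import Pool.Agent.H43.PC.Bir
import Pool.Graph.R_seed8.Z125.UN.Bnd
import Pool.Agent.H71.AR.Lef

set_option autoImplicit false

/-!
# Lattice cubic hypersurfaces and properties of schemes of bounded dimension
-/

open CategoryTheory AlgebraicGeometry MvPolynomial

namespace Pool.Agent.H43.PC

open Pool.Agent.Y116.UV Pool.Agent.Z125.UN Pool.Agent.H71.AR

section

variable {R : Type} [CommRing R] {sep : Prop} {P : Sch R → Prop}

/-- The closed subscheme `f = 0` and its complement. -/
lemma triple_jou' {A : Type} [CommRing A] [Algebra R A] {m : ℕ}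
    (f : Fin m → A) : IsTriple (affMap (Ideal.Quotient.mkₐ R (Ideal.span (Set.range f))))
      (opnMap (aff R A) (neOpen R f)) := by
  refine ⟨closed_affMap _ (Ideal.Quotient.mkₐ_surjective R _), inferInstance, ?_⟩
  rw [range_affMap _ (Ideal.Quotient.mkₐ_surjective R _), range_opnMap]
  ext x
  change (∀ a, Ideal.Quotient.mk (Ideal.span (Set.range f)) a = 0 → a ∈ x.asIdeal) ↔
    ¬ ∃ l, f l ∉ x.asIdeal
  push Not
  constructor
  · intro h l
    exact h (f l) (Ideal.Quotient.eq_zero_iff_mem.mpr (Ideal.subset_span ⟨l, rfl⟩))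
  · intro h a ha
    rw [Ideal.Quotient.eq_zero_iff_mem] at ha
    refine (Ideal.span_le.mpr ?_ : Ideal.span (Set.range f) ≤ x.asIdeal) ha
    rintro _ ⟨l, rfl⟩
    exact h l

/-- from the scheme of the solutions to the cubic hypersurface -/
lemma hyp_of_net (hP : Bnd sep P) {n r : ℕ} (γ : Fin r → Gate R (Fin n))
    (h : P (aff R (Net γ))) : P (aff R (HypG γ)) := by
  have h1 : P (opn (aff R (MvPolynomial (Fin n) R)) (neOpen R fun g => (γ g).poly)) :=
    hP.opened _ _ (ft_aff sep) (triple_jou' fun g => (γ g).poly) h (hP.space n)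
  have h2 := hP.bundle (MvPolynomial (Fin n) R) r (fun g => (γ g).poly) _
    (opnMap (aff R _) (neOpen R fun g => (γ g).poly)) inferInstance (range_opnMap _ _) h1
  exact iso_alg hP.toUni (hypJou γ).symm h2

/-- from the cubic hypersurface to the scheme of the solutions -/
lemma net_of_hyp (hP : Uni sep P) {n r : ℕ} (γ : Fin r → Gate R (Fin n))
    (h : P (aff R (HypG γ))) : P (aff R (Net γ)) :=
  of_jou hP (fun g => (γ g).poly) (hP.space n) (iso_alg hP (hypJou γ) h)

/-- the empty scheme -/
lemma uni_empty (hP : Uni sep P) (B : Type) [CommRing B] [Algebra R B] (hB : Subsingleton B) :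
    P (aff R B) :=
  dev_empty (dev_of_uni hP) (A := MvPolynomial (Fin 0) R) (hP.space 0) B hB

end

variable {k : Type} [Field k] [PerfectField k] {sep : Prop} {P : Sch k → Prop}

/-- The lattice systems whose schemes of solutions are smooth integral complete intersections of
dimension at most `N` determine the schemes of dimension at most `N`. -/
theorem dim_of_net (hf : IsFrac k) (hD : Dev sep P)
    (h0 : ∀ (B : Type) [CommRing B] [Algebra k B], Subsingleton B → P (aff k B)) (N : ℕ)
    (h : ∀ (n r : ℕ) (γ : Fin r → Gate k (Fin n)), OnLattice {0, 1} γ → 0 < r → IsDomain (Net γ) →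
        Algebra.Smooth k (Net γ) → ∀ m : ℕ, m ≤ N → n = r + m → ringKrullDim (Net γ) = m →
        P (aff k (Net γ)))
    (X : Sch k) (hX : FT sep X) (hd : topologicalKrullDim X.left ≤ N) : P X := by
  refine dev_affine_lt hD (d := ((N + 1 : ℕ) : WithBot ℕ∞)) ?_ X hX
    ((Pool.Agent.Y691.TU.lt_succ_iff _ _).mpr hd)
  intro A _ _ _ hA
  refine dev_noeth hD (fun B _ _ hB => h0 B hB) fun p hp => ?_
  obtain ⟨m, hm, -⟩ := dim_trdeg (k := k) (A ⧸ p)
  have hmN : m ≤ N := by
    have h1 := (ringKrullDim_quotient_le p).trans_lt hA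
    rw [hm] at h1
    have h2 : m < N + 1 := by exact_mod_cast h1
    omega
  obtain ⟨w, hw, hs, n, r, γ, hγ, hr, hn, ⟨e⟩⟩ := exists_lat hf (A ⧸ p) m hm
  have hd : IsDomain (Localization.Away w) := IsLocalization.Away.isDomain _ hw
  have h2 : ringKrullDim (Net γ) = m := by
    rw [e.toRingEquiv.ringKrullDim, dim_loc (k := k) hw, hm]
  have h3 := h n r γ hγ hr (MulEquiv.isDomain (Localization.Away w) e.toRingEquiv.toMulEquiv)
    (Algebra.Smooth.of_equiv e.symm) m hmN hn h2
  exact ⟨w, hw, dev_alg hD e h3⟩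

/-- The lattice cubic hypersurfaces of the smooth integral complete intersections of dimension at most
`N` determine the schemes of dimension at most `N`. -/
theorem dim_of_lat (hf : IsFrac k) (hP : Uni sep P) (N : ℕ)
    (h : ∀ (n r : ℕ) (γ : Fin r → Gate k (Fin n)), OnLattice {0, 1} γ → IsDomain (Net γ) →
        Algebra.Smooth k (Net γ) → ∀ m : ℕ, m ≤ N → n = r + m → ringKrullDim (Net γ) = m →
        P (aff k (HypG γ)))
    (X : Sch k) (hX : FT sep X) (hd : topologicalKrullDim X.left ≤ N) : P X :=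
  dim_of_net hf (dev_of_uni hP) (fun B _ _ hB => uni_empty hP B hB) N
    (fun n r γ hγ _ h1 h2 m hm hn h3 => net_of_hyp hP γ (h n r γ hγ h1 h2 m hm hn h3)) X hX hd

/-- **Dimension by dimension.** Schemes of dimension at most `N`; the cubic hypersurfaces of the lattice
systems whose scheme of solutions has dimension at most `N`; the cubic hypersurfaces of the lattice
systems with a smooth integral complete intersection of dimension `n - r ≤ N` as scheme of solutions. -/
theorem lat_bnd (hf : IsFrac k) (hP : Bnd sep P) (N : ℕ) :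
    List.TFAE [
      ∀ X : Sch k, FT sep X → topologicalKrullDim X.left ≤ N → P X,
      ∀ (n r : ℕ) (γ : Fin r → Gate k (Fin n)), OnLattice {0, 1} γ → ringKrullDim (Net γ) ≤ N →
        P (aff k (HypG γ)),
      ∀ (n r : ℕ) (γ : Fin r → Gate k (Fin n)), OnLattice {0, 1} γ → IsDomain (Net γ) →
        Algebra.Smooth k (Net γ) → ∀ m : ℕ, m ≤ N → n = r + m → ringKrullDim (Net γ) = m →
        P (aff k (HypG γ))] := by
  tfae_have 1 → 2 := by
    intro h n r γ _ hd
    exact hyp_of_net hP γ (h _ (ft_aff sep) (by rw [topDim_aff]; exact hd))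
  tfae_have 2 → 3 := by
    intro h n r γ hγ _ _ m hm _ hd
    exact h n r γ hγ (by rw [hd]; exact_mod_cast hm)
  tfae_have 3 → 1 := fun h X hX hd => dim_of_lat hf hP.toUni N h X hX hd
  tfae_finish

/-- All dimensions. -/
theorem lat_uni (hf : IsFrac k) (hP : Uni sep P) :
    List.TFAE [
      ∀ X : Sch k, FT sep X → P X,
      ∀ (n r : ℕ) (γ : Fin r → Gate k (Fin n)), OnLattice {0, 1} γ → P (aff k (HypG γ)),
      ∀ (n r : ℕ) (γ : Fin r → Gate k (Fin n)), OnLattice {0, 1} γ → IsDomain (Net γ) →
        Algebra.Smooth k (Net γ) → ∀ m : ℕ, n = r + m → ringKrullDim (Net γ) = m →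
        P (aff k (HypG γ))] := by
  tfae_have 1 → 2 := fun h n r γ _ => h _ (ft_aff sep)
  tfae_have 2 → 3 := fun h n r γ hγ _ _ m _ _ => h n r γ hγ
  tfae_have 3 → 1 := by
    intro h X hX
    have hD := dev_of_uni hP
    refine of_affine' (P := P) (sep := sep) hD.iso hD.total ?_ X hX
    intro A _ _ _
    obtain ⟨N, hN⟩ := exists_dim (k := k) A
    refine dim_of_lat hf hP N (fun n r γ h1 h2 h3 m _ => h n r γ h1 h2 h3 m) (aff k A)
      (ft_aff sep) (by rw [topDim_aff]; exact hN.le)
  tfae_finish

end Pool.Agent.H43.PC
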