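import Pool.Agent.H43.PC.CohDefs
import Pool.Agent.H43.PC.Bir
import Pool.Agent.H71.AR.Odd

set_option autoImplicit false

/-!
# The middle cohomology of lattice cubic hypersurfaces
-/

open CategoryTheory CategoryTheory.Limits AlgebraicGeometry

namespace Pool.Agent.H43.PC

open Pool.Agent.Y116.UV Pool.Agent.Y101.Th Pool.Agent.Y691.TU Pool.Agent.Z125.UN
  Pool.Agent.H71.AR

universe v u

variable {k : Type} [Field k] {C : Type u} [Category.{v} C] [Abelian C] {D : Graded k C}
  {Q : ℤ → C → Prop}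

/-- The closed subscheme `f = 0` and its complement. -/
lemma triple_jou {R : Type} [CommRing R] {A : Type} [CommRing A] [Algebra R A] {m : ℕ}
    (f : Fin m → A) : IsTriple (affMap (Ideal.Quotient.mkₐ R (Ideal.span (Set.range f))))
      (opnMap (aff R A) (neOpen R f)) := by
  refine ⟨closed_affMap _ (Ideal.Quotient.mkₐ_surjective R _), inferInstance, ?_⟩
  rw [range_affMap _ (Ideal.Quotient.mkₐ_surjective R _), range_opnMap]
  ext x
  change (∀ a, Ideal.Quotient.mk (Ideal.span (Set.range f)) a = 0 → a ∈ x.asIdeal) ↔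
    ¬ ∃ l, f l ∉ x.asIdeal
  push Not
  constructor
  · intro h l
    exact h (f l) (Ideal.Quotient.eq_zero_iff_mem.mpr (Ideal.subset_span ⟨l, rfl⟩))
  · intro h a ha
    rw [Ideal.Quotient.eq_zero_iff_mem] at ha
    refine (Ideal.span_le.mpr ?_ : Ideal.span (Set.range f) ≤ x.asIdeal) ha
    rintro _ ⟨l, rfl⟩
    exact h l

/-- the affine spaces -/
lemma space_zero (hD : IsCohB D) (hQ : Stable D Q) (n : ℕ) (w j : ℤ) (h : w ≠ 2 * n) :
    Q w (D.H (aff k (MvPolynomial (Fin n) k)) w j) := by
  have h1 := hD.bundle k (n + 1) (f1 k n) (aff k k) (𝟙 _) inferInstance (range_id n)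
    (w - 2 * n) (j - 2 * n)
  have h2 : w - 2 * (n : ℤ) + 2 * ((n + 1 - 1 : ℕ) : ℤ) = w := by
    rw [Nat.add_sub_cancel]
    ring
  have h3 : j - 2 * (n : ℤ) + 2 * ((n + 1 - 1 : ℕ) : ℤ) = j := by
    rw [Nat.add_sub_cancel]
    ring
  rw [h2, h3] at h1
  have h4 := (hQ.iso (hD.iso (ft_aff True) ⟨(affIso (jouOne k n)).symm⟩ w j)).mp
    ((hQ.iso h1).mpr (by
      have h5 := (hQ.tw (w - 2 * n) (D.H (aff k k) (w - 2 * n) (j - 2 * n)) (n + 1 - 1)).mpr
        (hQ.zero _ _ (hD.point _ _ (Or.inl (by omega))))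
      rw [h2] at h5
      exact h5))
  exact h4

/-- The pieces of the closed subscheme `f = 0` of an affine space and of the affine bundle over its
complement. -/
theorem jou_iff (hC : Semisimple C) (hD : IsCohB D) (hQ : Stable D Q) {n r : ℕ}
    (f : Fin (r + 1) → MvPolynomial (Fin n) k) (w j : ℤ) (hw : w ≠ 2 * n) :
    Q w (D.H (aff k (MvPolynomial (Fin n) k ⧸ Ideal.span (Set.range f))) w j) ↔
      Q (w + 2 * r) (D.H (aff k (Jou f)) (w + 2 * r) (j + 1 + 2 * r)) := by
  have ht := triple_jou (R := k) f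
  obtain ⟨a, b, d, h⟩ := hD.localization _ _ (ft_aff True) ht w
  have h1 := hD.bundle (MvPolynomial (Fin n) k) (r + 1) f (opn (aff k _) (neOpen k f))
    (opnMap (aff k _) (neOpen k f)) inferInstance (range_opnMap _ _) w (j + 1)
  rw [Nat.add_sub_cancel] at h1
  rw [hQ.iso h1, hQ.tw]
  constructor
  · intro hZ
    exact mid hC (hQ.sum w) (hQ.summand w) (h j).2.2 hZ (space_zero hD hQ n w (j + 1) hw)
  · intro hU
    exact mid hC (hQ.sum w) (hQ.summand w) (h j).2.1 (space_zero hD hQ n w j hw) hU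

/-- The weight just below the middle of the cohomology of the cubic hypersurface of a system of gates
is the pure part of the cohomology of the scheme of the solutions, in the degree `n - r`. -/
theorem hyp_iff (hC : Semisimple C) (hD : IsCohB D) (hQ : Stable D Q) {n r : ℕ} (hr : r ≠ 0)
    (γ : Fin r → Gate k (Fin n)) :
    Q (n - r) (D.H (aff k (Net γ)) (n - r) (n - r)) ↔
      Q (n + r - 2) (D.H (aff k (HypG γ)) (n + r - 2) (n + r - 1)) := by
  obtain ⟨r, rfl⟩ := Nat.exists_eq_succ_of_ne_zero hr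
  have h1 := jou_iff hC hD hQ (fun g => (γ g).poly) ((n : ℤ) - (r + 1 : ℕ)) (n - (r + 1 : ℕ))
    (by push_cast; omega)
  have h2 : (n : ℤ) - (r + 1 : ℕ) + 2 * r = n + (r + 1 : ℕ) - 2 := by push_cast; ring
  have h3 : (n : ℤ) - (r + 1 : ℕ) + 1 + 2 * r = n + (r + 1 : ℕ) - 1 := by push_cast; ring
  rw [h2, h3] at h1
  refine h1.trans ?_
  exact (hQ.iso (hD.iso (ft_aff True) ⟨(affIso (hypJou γ)).symm⟩ _ _)).symm

/-- Schemes of small dimension are sufficient for the pure parts in small degrees. -/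
lemma pure_low (hD : IsCoh D) (hQ : Stable D Q) (N : ℕ)
    (h : ∀ X : Sch k, SmProj X → topologicalKrullDim X.left ≤ N → ∀ i, Q i (D.H X i i)) :
    ∀ (e : ℕ) (X : Sch k), SmProj X → topologicalKrullDim X.left ≤ e → ∀ i : ℤ, i ≤ N →
      Q i (D.H X i i) := by
  intro e
  induction e with
  | zero =>
    intro X hX hd i _
    exact h X hX (hd.trans (by exact_mod_cast Nat.zero_le N)) i
  | succ e ih =>
    intro X hX hd i hi
    by_cases he : e + 1 ≤ N
    · exact h X hX (hd.trans (by exact_mod_cast he)) i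
    · obtain ⟨Y, hY, hd', s, r, hs⟩ := hD.weak X (e + 1) hX (by exact_mod_cast hd) i
        (by push_cast; omega)
      exact hQ.summand i _ _ s r hs (ih Y hY ((lt_succ_iff _ _).mp hd') i hi)

/-- The middle cohomology of the lattice systems with `r` gates and `r + m` variables, `m < n`,
determines the cohomology of the schemes of dimension less than `n`. The systems of gates may be
assumed to be smooth integral complete intersections. -/
theorem all_of_lat [PerfectField k] (hf : IsFrac k) (hC : Semisimple C)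
    (hD : IsCoh D) (hQ : Stable D Q) (N : ℕ)
    (h : ∀ (n r : ℕ) (γ : Fin r → Gate k (Fin n)), OnLattice {0, 1} γ → 0 < r →
      IsDomain (Net γ) → Algebra.Smooth k (Net γ) → ∀ m : ℕ, m < N → n = r + m →
      ringKrullDim (Net γ) = m → Q m (D.H (aff k (Net γ)) m m)) :
    ∀ X : Sch k, FT True X → topologicalKrullDim X.left < N → ∀ i : ℤ, Q i (D.H X i i) := by
  induction N with
  | zero =>
    intro X hX hd i
    refine dev_affine_lt (dev_mid hC hD hQ i) (d := ((0 : ℕ) : WithBot ℕ∞)) ?_ X hX hd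
    intro A _ _ _ hA
    refine hQ.zero _ _ (hD.empty _ ?_ _ _)
    have hA' : Subsingleton A := by
      rw [← not_nontrivial_iff_subsingleton]
      intro hA'
      have := ringKrullDim_nonneg_of_nontrivial (R := A)
      exact absurd hA (not_lt.mpr (by exact_mod_cast this))
    exact inferInstanceAs (IsEmpty (PrimeSpectrum A))
  | succ N ih =>
    have ih' := ih fun n r γ h0 h1 h2 h3 m hm => h n r γ h0 h1 h2 h3 m (by omega)
    -- the middle degree
    have hA : ∀ X : Sch k, FT True X → topologicalKrullDim X.left < (N + 1 : ℕ) →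
        Q N (D.H X N N) := by
      have hP := dev_mid (k := k) hC hD hQ N
      have h0 : ∀ (B : Type) [CommRing B] [Algebra k B], Subsingleton B →
          Q N (D.H (aff k B) N N) := by
        intro B _ _ hB
        exact hQ.zero _ _ (hD.empty _ (inferInstanceAs (IsEmpty (PrimeSpectrum B))) _ _)
      intro X hX hXd
      refine dev_affine_lt hP ?_ X hX hXd
      intro A _ _ _ hA
      refine dev_noeth hP h0 fun p hp => ?_
      have hle : ringKrullDim (A ⧸ p) ≤ ((N : ℕ) : WithBot ℕ∞) :=
        (lt_succ_iff _ _).mp ((ringKrullDim_quotient_le p).trans_lt hA)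
      rcases lt_or_eq_of_le hle with h1 | h1
      · refine ⟨1, one_ne_zero, ?_⟩
        have hft : Algebra.FiniteType k (Localization.Away (1 : A ⧸ p)) :=
          Algebra.FiniteType.trans (S := A ⧸ p) inferInstance inferInstance
        refine ih' _ (ft_aff True) ?_ N
        rw [topDim_aff]
        exact (dim_away (1 : A ⧸ p)).trans_lt h1
      · obtain ⟨w, hw, hs, n, r, γ, hγ, hr, hn, ⟨e⟩⟩ := exists_lat hf (A ⧸ p) N h1
        have hd : IsDomain (Localization.Away w) := IsLocalization.Away.isDomain _ hw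
        have hft : Algebra.FiniteType k (Localization.Away w) :=
          Algebra.FiniteType.trans (S := A ⧸ p) inferInstance inferInstance
        have h2 : ringKrullDim (Net γ) = N := by
          rw [e.toRingEquiv.ringKrullDim, dim_loc (k := k) hw, h1]
        have h3 := h n r γ hγ hr (MulEquiv.isDomain (Localization.Away w) e.toRingEquiv.toMulEquiv) (Algebra.Smooth.of_equiv e.symm) N
          (by omega) hn h2
        exact ⟨w, hw, (hQ.iso (hD.iso (ft_aff True) ⟨(affIso e).symm⟩ _ _)).mp h3⟩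
    -- smooth projective schemes
    have hB : ∀ X : Sch k, SmProj X → topologicalKrullDim X.left < (N + 1 : ℕ) →
        ∀ j : ℕ, ∀ i : ℤ, i ≤ N + j → Q i (D.H X i i) := by
      intro X hX hd j
      induction j using Nat.strong_induction_on with
      | _ j ihj =>
      intro i hi
      rcases lt_trichotomy i N with h1 | h1 | h1
      · obtain ⟨Y, hY, hd', s, r, hs⟩ := hD.weak X N hX ((lt_succ_iff _ _).mp hd) i h1
        exact hQ.summand i _ _ s r hs (ih' Y hY.ft hd' i)
      · rw [h1]
        exact hA X hX.ft hd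
      · obtain ⟨s, r, hs⟩ := hD.hard X N hX ((lt_succ_iff _ _).mp hd) i h1
        have h2 : Q (i - 2) (D.H X (i - 2) (i - 2)) := ihj (j - 1) (by omega) (i - 2) (by omega)
        have h3 := (hQ.twist (i - 2) _).mpr h2
        rw [show i - 2 + 2 = i by ring] at h3
        exact hQ.summand i _ _ s r hs h3
    refine of_compact hD hQ ?_
    intro X hX hd i
    exact hB X hX hd (i - N).toNat i (by omega)

/-- from the schemes of dimension at most `N` to the cubic hypersurfaces -/
theorem lat_of_dim (hC : Semisimple C) (hD : IsCohB D) (hQ : Stable D Q) (N : ℕ)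
    (h : ∀ X : Sch k, SmProj X → topologicalKrullDim X.left ≤ N → ∀ i, Q i (D.H X i i))
    {n r : ℕ} (γ : Fin r → Gate k (Fin n)) (hn : n ≤ r + N) :
    Q (n + r - 2) (D.H (aff k (HypG γ)) (n + r - 2) (n + r - 1)) := by
  rcases Nat.eq_zero_or_pos r with rfl | hr
  · refine hQ.zero _ _ (hD.empty _ ?_ _ _)
    have h1 : Subsingleton (HypG γ) := by
      rw [Ideal.Quotient.subsingleton_iff]
      have h2 : cub γ - 1 = -1 := by simp [cub]
      rw [h2, Ideal.span_singleton_neg, Ideal.span_singleton_one]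
    exact inferInstanceAs (IsEmpty (PrimeSpectrum (HypG γ)))
  · rw [← hyp_iff hC hD hQ hr.ne' γ]
    obtain ⟨Y, hY, hYd, s, r', hs⟩ := hD.compact (aff k (Net γ)) (ft_aff True) ((n : ℤ) - r)
    refine hQ.summand _ _ _ s r' hs ?_
    obtain ⟨e, he⟩ := exists_dim (k := k) (Net γ)
    rw [topDim_aff] at hYd
    exact pure_low hD.toIsCoh hQ N h e Y hY (hYd.trans he.le) _ (by omega)

/-- **Dimension by dimension.** The cohomology of the smooth projective schemes of dimension at most
`N` and the weight just below the middle of the cohomology of the lattice cubic hypersurfaces. -/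
theorem lat_dim [PerfectField k] (hf : IsFrac k) (hC : Semisimple C) (hD : IsCohB D)
    (hQ : Stable D Q) (N : ℕ) :
    List.TFAE [
      ∀ X : Sch k, SmProj X → topologicalKrullDim X.left ≤ N → ∀ i, Q i (D.H X i i),
      ∀ (n r : ℕ) (γ : Fin r → Gate k (Fin n)), OnLattice {0, 1} γ → n ≤ r + N →
        Q (n + r - 2) (D.H (aff k (HypG γ)) (n + r - 2) (n + r - 1)),
      ∀ (n r : ℕ) (γ : Fin r → Gate k (Fin n)), OnLattice {0, 1} γ → IsDomain (Net γ) →
        Algebra.Smooth k (Net γ) → ∀ m : ℕ, m ≤ N → n = r + m → ringKrullDim (Net γ) = m →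
        Q (n + r - 2) (D.H (aff k (HypG γ)) (n + r - 2) (n + r - 1))] := by
  tfae_have 1 → 2 := fun h n r γ _ hn => lat_of_dim hC hD hQ N h γ hn
  tfae_have 2 → 3 := fun h n r γ hγ _ _ m hm hn _ => h n r γ hγ (by omega)
  tfae_have 3 → 1 := by
    intro h X hX hd
    refine all_of_lat hf hC hD.toIsCoh hQ (N + 1) ?_ X hX.ft ((lt_succ_iff _ _).mpr hd)
    intro n r γ hγ hr h1 h2 m hm hn h3
    have h4 := h n r γ hγ h1 h2 m (by omega) hn h3
    rw [← hyp_iff hC hD hQ hr.ne' γ] at h4
    have h6 : (n : ℤ) - r = m := by omega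
    rwa [h6] at h4
  tfae_finish

/-- **All dimensions.** -/
theorem lat_all [PerfectField k] (hf : IsFrac k) (hC : Semisimple C) (hD : IsCohB D)
    (hQ : Stable D Q) :
    List.TFAE [
      ∀ X : Sch k, SmProj X → ∀ i, Q i (D.H X i i),
      ∀ (n r : ℕ) (γ : Fin r → Gate k (Fin n)), OnLattice {0, 1} γ →
        Q (n + r - 2) (D.H (aff k (HypG γ)) (n + r - 2) (n + r - 1)),
      ∀ (n r : ℕ) (γ : Fin r → Gate k (Fin n)), OnLattice {0, 1} γ → IsDomain (Net γ) →
        Algebra.Smooth k (Net γ) → ∀ m : ℕ, n = r + m → ringKrullDim (Net γ) = m →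
        Q (n + r - 2) (D.H (aff k (HypG γ)) (n + r - 2) (n + r - 1))] := by
  tfae_have 1 → 2 := fun h n r γ _ =>
    lat_of_dim hC hD hQ n (fun X hX _ => h X hX) γ (by omega)
  tfae_have 2 → 3 := fun h n r γ hγ _ _ m hn _ => h n r γ hγ
  tfae_have 3 → 1 := by
    intro h X hX i
    refine of_affine' (P := fun X => Q i (D.H X i i)) (sep := True)
      (dev_mid hC hD.toIsCoh hQ i).iso (dev_mid hC hD.toIsCoh hQ i).total ?_ X hX.ft
    intro A _ _ _
    obtain ⟨N, hN⟩ := exists_dim (k := k) A
    refine all_of_lat hf hC hD.toIsCoh hQ N ?_ (aff k A) (ft_aff True)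
      (by rw [topDim_aff]; exact hN) i
    intro n r γ hγ hr h1 h2 m _ hn h3
    have h4 := h n r γ hγ h1 h2 m hn h3
    rw [← hyp_iff hC hD hQ hr.ne' γ] at h4
    have h6 : (n : ℤ) - r = m := by omega
    rwa [h6] at h4
  tfae_finish

end Pool.Agent.H43.PC
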