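import Pool.Agent.H71.AR.LefDefs

set_option autoImplicit false

/-!
# Weight graded cohomology with compact supports: affine bundles
-/

open CategoryTheory CategoryTheory.Limits AlgebraicGeometry

namespace Pool.Agent.H43.PC

open Pool.Agent.Y116.UV Pool.Agent.Y101.Th Pool.Agent.Y691.TU Pool.Agent.H71.AR

universe v u

variable {k : Type} [Field k] {C : Type u} [Category.{v} C] [Abelian C]

/-- The setting: the known properties `IsCoh` of the pieces `H X w j = gr^W_w H^j_c(X)` (invariance
under isomorphisms, localisation sequences, weights, smooth compactifications, the Lefschetz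
theorems), and moreover

* `bundle`: for the affine bundle `Spec A[t_1, …, t_m] / (∑ f_l t_l - 1) → U` with fibre `𝔸^(m-1)`,
  where `U` is the complement of `f = 0` in `Spec A`, the pieces of the total space are those of `U`
  twisted by `-(m-1)`, in the degree and the weight shifted by `2(m-1)`;
* `point`: the pieces of `Spec k` are zero, except for the piece in degree zero and weight zero. -/
structure IsCohB (D : Graded k C) : Prop extends IsCoh D where
  bundle : ∀ (A : Type) [CommRing A] [Algebra k A] [Algebra.FiniteType k A] (m : ℕ)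
    (f : Fin m → A) (U : Sch k) (j : U ⟶ aff k A), IsOpenImmersion j.left →
    Set.range j.left = {x : PrimeSpectrum A | ∃ l, f l ∉ x.asIdeal} → ∀ w n : ℤ,
    Nonempty (D.H (aff k (Jou f)) (w + 2 * (m - 1 : ℕ)) (n + 2 * (m - 1 : ℕ)) ≅
      tw D.L (m - 1) (D.H U w n))
  point : ∀ w n : ℤ, (w ≠ 0 ∨ n ≠ 0) → IsZero (D.H (aff k k) w n)

end Pool.Agent.H43.PC
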