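import Pool.Agent.H43.PC.Uni
import Pool.Graph.R_pool_sql_team_seeded_2aa45f1a.Q115.DU.Fac

/-!
# Motives with compact support as direct factors of those of the lattice hypersurfaces
-/

set_option autoImplicit false

open CategoryTheory CategoryTheory.Limits AlgebraicGeometry Pretriangulated MvPolynomial

namespace Pool.Agent.H43.PC

open Pool.Agent.Y116.UV Pool.Agent.Q193.LT Pool.Agent.Q115.DU

universe v u

/-- the gate system, where the variable which is zero has the number zero -/
theorem exists_net' {R : Type} [CommRing R] {S : Set R} (h0 : 0 ∈ S) (h1 : 1 ∈ S)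
    (hS : Presents S) (A : Type) [CommRing A] [Algebra R A] [Algebra.FiniteType R A] :
    ∃ (n r : ℕ) (γ : Fin r → Gate R (Fin (n + 1))), OnLattice S γ ∧ Nonempty (Net γ ≃ₐ[R] A) ∧
      ∃ g : Fin r, γ g = .const 0 0 := by
  obtain ⟨n, r, γ, hγ, ⟨e⟩, v, g, hg⟩ := exists_net h0 h1 hS A
  obtain _ | n := n
  · exact v.elim0
  · refine ⟨n, r, fun k => (γ k).map (Equiv.swap v 0), hγ.rename (Equiv.swap v 0) (Equiv.refl _),
      ⟨(netRename γ (Equiv.swap v 0) (Equiv.refl _)).symm.trans e⟩, g, ?_⟩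
    simp only
    rw [hg]
    change Gate.const 0 (Equiv.swap v 0 v) = _
    rw [Equiv.swap_apply_left]

variable {k : Type} [CommRing k] {C : Type u} [Category.{v} C] [Preadditive C] [HasZeroObject C]
  [HasShift C ℤ] [∀ n : ℤ, (shiftFunctor C n).Additive] [Pretriangulated C] {D : CData k C}

section

variable (hD : IsCData D)

include hD

/-- a closed subscheme of `𝔸¹ × Spec A` on which the coordinate is zero -/
lemma push_line (A : Type) [CommRing A] [Algebra k A] [Algebra.FiniteType k A] {Q : Type}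
    [CommRing Q] [Algebra k Q] (π : Polynomial A →ₐ[k] Q) (hπ : Function.Surjective π)
    (h0 : π Polynomial.X = 0) : D.push (affMap π) = 0 := by
  have i1 : Algebra.FiniteType k (Polynomial A) :=
    Algebra.FiniteType.trans (S := A) inferInstance inferInstance
  have m1 : Mono (D.res (affMap (toL k A))) := mono_zero hD A
  have o1 : IsOpenImmersion (affMap (toL k A)).left := (triple_zero k A).opened
  rw [← cancel_mono (D.res (affMap (toL k A))), zero_comp]
  refine hD.disjoint _ _ (ft_aff True) (closed_affMap _ hπ) o1 (Set.disjoint_left.2 ?_)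
  intro x hx hy
  rw [range_affMap _ hπ] at hx
  have h3 : (Polynomial.X : Polynomial A) ∈ (x : PrimeSpectrum (Polynomial A)).asIdeal := hx _ h0
  have h4 : x ∈ (Set.range (affMap (ev0 k A)).left)ᶜ := by
    rw [(triple_zero k A).compl, compl_compl]
    exact hy
  apply h4
  rw [range_affMap _ (fun a => ⟨Polynomial.C a, ev0_C k A a⟩)]
  intro a ha
  rw [ev0_apply, ← Polynomial.X_dvd_iff] at ha
  obtain ⟨b, rfl⟩ := ha
  exact Ideal.mul_mem_right _ _ h3

/-- the bundle `∑ f_l w_l = 1` over the complement of `f = 0` in `𝔸¹ × Spec B` dominates the closed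
subscheme `f = 0`, if one of the functions `f_l` is the coordinate -/
lemma jou_line (B : Type) [CommRing B] [Algebra k B] [Algebra.FiniteType k B] (m : ℕ)
    (f : Fin m → Polynomial B) (hf : ∃ l, f l = Polynomial.X) :
    Dom D 1 (aff k (Jou f)) (aff k (Polynomial B ⧸ Ideal.span (Set.range f))) := by
  intro P hP n h
  have i1 : Algebra.FiniteType k (Polynomial B) :=
    Algebra.FiniteType.trans (S := B) inferInstance inferInstance
  have h0 : D.push (affMap (mkq k f)) = 0 := by
    refine push_line hD B _ (mkq_surjective f) ?_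
    obtain ⟨l, hl⟩ := hf
    rw [← hl]
    exact mkq_zero f l
  obtain ⟨s, hs⟩ := split_open hD _ _ (ft_aff True) (triple_jou (R := k) f) h0
  have h1 := desc_iso hP (hD.bundle (Polynomial B) m f _ (opnMap (aff k (Polynomial B))
    (neOpen k f)) inferInstance (range_opnMap _ _)) h
  exact hP.shift n _ (hP.retract _ s _ hs (desc_tw hP _ _ h1))

/-- **One lattice hypersurface for each affine scheme.** -/
theorem dom_lattice {S : Set k} (h0 : 0 ∈ S) (h1 : 1 ∈ S) (hS : Presents S) (A : Type)
    [CommRing A] [Algebra k A] [Algebra.FiniteType k A] :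
    ∃ (n r : ℕ) (γ : Fin r → Gate k (Fin n)), OnLattice S γ ∧ Nonempty (Net γ ≃ₐ[k] A) ∧
      Dom D 1 (aff k (HypG γ)) (aff k A) := by
  obtain ⟨n, r, γ, hγ, ⟨e⟩, g, hg⟩ := exists_net' h0 h1 hS A
  refine ⟨n + 1, r, γ, hγ, ⟨e⟩, ?_⟩
  let E := finSuccEquiv k n
  let f : Fin r → Polynomial (MvPolynomial (Fin n) k) := fun l => E (γ l).poly
  have hR := rules hD
  have hl : ∃ l, f l = Polynomial.X := by
    refine ⟨g, ?_⟩
    change E (γ g).poly = _
    rw [hg]
    change E (X 0 - MvPolynomial.C 0) = _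
    rw [map_zero, sub_zero]
    exact finSuccEquiv_X_zero
  have k1 := hR.iso _ _ (hypJou γ)
  have k2 := hR.iso _ _ (jouCongr E (fun l => (γ l).poly) f fun _ => rfl)
  have k3 := jou_line hD (MvPolynomial (Fin n) k) r f hl
  have i1 : Algebra.FiniteType k (Polynomial (MvPolynomial (Fin n) k)) :=
    Algebra.FiniteType.trans (S := MvPolynomial (Fin n) k) inferInstance inferInstance
  have k4 : Dom D 0 (aff k (Polynomial (MvPolynomial (Fin n) k) ⧸ Ideal.span (Set.range f)))
      (aff k (Net γ)) :=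
    hR.iso _ _ (quotCongr E.symm id Function.surjective_id f (fun l => (γ l).poly)
      fun l => E.symm_apply_apply _)
  have k5 := hR.iso _ _ e
  exact hR.trans k1 (hR.trans k2 (hR.trans k3 (hR.trans k4 k5)))

end

/-- `Z` is the hypersurface `∑_g t_g p_g(x) = 1` of a nearest-neighbour system of gates on the square
lattice with constants in `S`. -/
def IsLat (S : Set k) (Z : Sch k) : Prop :=
  ∃ (n r : ℕ) (γ : Fin r → Gate k (Fin n)), OnLattice S γ ∧ Z = aff k (HypG γ)

/-- every property closed under closed-open decompositions is decided by the lattice hypersurfaces -/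
theorem universal_isLat {sep : Prop} {P : Sch k → Prop} {S : Set k} (hP : Uni sep P) (h0 : 0 ∈ S)
    (h1 : 1 ∈ S) (hS : Presents S) (hH : ∀ Z : Sch k, IsLat S Z → P Z) (X : Sch k)
    (hX : FT sep X) : P X :=
  universal_lattice hP h0 h1 (fun n r γ hγ => hH _ ⟨n, r, γ, hγ, rfl⟩) hS X hX

section Main

variable {D : TData k C}

/-- the lattice hypersurfaces are enough -/
lemma presents_of [IsNoetherianRing k] {S : Set k} (hS : S = Set.univ ∨ (Frac k ∧ S = {0, 1})) :
    0 ∈ S ∧ 1 ∈ S ∧ Presents S := by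
  rcases hS with rfl | ⟨hk, rfl⟩
  · exact ⟨trivial, trivial, presents_univ⟩
  · exact ⟨Or.inl rfl, Or.inr rfl, presents_frac hk⟩

/-- **One lattice hypersurface for each affine scheme**, in terms of direct factors:
`Mc X (m) [2 m + 1]` is a direct factor. -/
theorem affine_net {S : Set k} [IsNoetherianRing k] (hD : IsTData D)
    (hS : S = Set.univ ∨ (Frac k ∧ S = {0, 1})) (A : Type) [CommRing A] [Algebra k A]
    [Algebra.FiniteType k A] : ∃ (n r : ℕ) (γ : Fin r → Gate k (Fin n)), OnLattice S γ ∧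
      Nonempty (Net γ ≃ₐ[k] A) ∧ ∃ m : ℕ,
        IsFactor ((up D m 1).obj (D.Mc (aff k A))) (D.Mc (aff k (HypG γ))) := by
  obtain ⟨h0, h1, h2⟩ := presents_of hS
  obtain ⟨n, r, γ, hγ, he, h⟩ := dom_lattice hD.compact h0 h1 h2 A
  obtain ⟨m, l, hl, hf⟩ := h _ (desc_factor hD (D.Mc (aff k (HypG γ)))) (-1)
    ⟨0, 0, by norm_num, isFactor_refl _⟩
  obtain rfl : l = 1 := by omega
  exact ⟨n, r, γ, hγ, he, m, hf⟩

/-- **One lattice hypersurface for each affine scheme.** -/
theorem affine_lat {S : Set k} [IsNoetherianRing k] (hD : IsTData D)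
    (hS : S = Set.univ ∨ (Frac k ∧ S = {0, 1})) (A : Type) [CommRing A] [Algebra k A]
    [Algebra.FiniteType k A] : ∃ Z : Sch k, IsLat S Z ∧ ∃ m : ℕ,
      IsFactor ((up D m 1).obj (D.Mc (aff k A))) (D.Mc Z) := by
  obtain ⟨n, r, γ, hγ, -, m, hf⟩ := affine_net hD hS A
  exact ⟨_, ⟨n, r, γ, hγ, rfl⟩, m, hf⟩

/-- **One lattice hypersurface for each object of `Var`.** -/
theorem var_lat {S : Set k} [IsNoetherianRing k] (hD : IsTData D)
    (hS : S = Set.univ ∨ (Frac k ∧ S = {0, 1})) {A : C} (h : Var D A) :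
    ∃ Z : Sch k, IsLat S Z ∧ ∃ m n : ℕ, IsFactor ((up D m n).obj A) (D.Mc Z) := by
  obtain ⟨m, n, R, _, _, _, h⟩ := var_v0 hD h
  obtain ⟨Z, hZ, m', h'⟩ := affine_lat hD hS R
  exact ⟨Z, hZ, m + m', n + 1, (isFactor_of_iso (iso_symm (up_up hD m n m' 1 A))).trans
    ((h.map (up D m' 1)).trans h')⟩

end Main

end Pool.Agent.H43.PC
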