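import Pool.Agent.H43.PC.Sq
import Pool.Graph.R_pool_sql_team_seeded_3997aac3.Q42.CU.Normal

/-!
# Lattice polynomials

The polynomial `x_out + ∑_g y_g p_g(x)` of a system of gates, and stable equivalence.
-/

set_option autoImplicit false

open MvPolynomial

namespace Pool.Agent.H43.PC

open Pool.Agent.Q42.CU Pool.Agent.Q223.MM

/-- surjective endomorphisms of noetherian rings are injective -/
theorem inj_of_surj {A : Type} [CommRing A] [IsNoetherianRing A] (f : A →+* A)
    (hf : Function.Surjective f) : Function.Injective f := by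
  let I : ℕ →o Ideal A := ⟨fun n => RingHom.ker (f ^ n), by
    refine monotone_nat_of_le_succ fun n a ha => ?_
    have h1 : (f ^ n) a = 0 := ha
    change (f ^ (n + 1)) a = 0
    rw [pow_succ', RingHom.mul_def, RingHom.comp_apply, h1, map_zero]⟩
  obtain ⟨n, hn⟩ := monotone_stabilizes_iff_noetherian.mpr
    (inferInstance : IsNoetherian A A) I
  have hs : ∀ n : ℕ, Function.Surjective (f ^ n : A →+* A) := by
    intro n
    induction n with
    | zero => exact fun a => ⟨a, rfl⟩
    | succ n ih =>
      rw [pow_succ', RingHom.mul_def]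
      exact hf.comp ih
  rw [injective_iff_map_eq_zero]
  intro a ha
  obtain ⟨b, rfl⟩ := hs n a
  have h1 : b ∈ I (n + 1) := by
    change (f ^ (n + 1)) b = 0
    rw [pow_succ', RingHom.mul_def, RingHom.comp_apply]
    exact ha
  rw [← hn (n + 1) (Nat.le_succ n)] at h1
  exact h1

variable {R : Type} [CommRing R]

/-- The polynomial `x_out + ∑_g y_g p_g(x)` of a system of gates `p_g`. -/
noncomputable def latP {n r : ℕ} (γ : Fin r → Gate R (Fin n)) (out : Fin n) :
    MvPolynomial (Fin (n + r)) R :=
  X (Fin.castAdd r out) + ∑ g, X (Fin.natAdd n g) * rename (Fin.castAdd r) (γ g).poly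

/-- Let the gates compute `f` from the inputs: the variables are polynomials in the inputs and in the
gates, and the output is `f` modulo the gates. Then `f` with one hyperbolic plane for each gate is
equivalent to the polynomial of the system. -/
theorem steq_gates [IsNoetherianRing R] {N n r : ℕ} (γ : Fin r → Gate R (Fin n)) (out : Fin n)
    (f : MvPolynomial (Fin N) R) (ι : Fin N → Fin n) (hn : n = N + r)
    (h1 : ∀ A : Subalgebra R (MvPolynomial (Fin n) R), (∀ j, X (ι j) ∈ A) →
      (∀ g, (γ g).poly ∈ A) → ∀ v, X v ∈ A)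
    (h2 : X out - rename ι f ∈ Ideal.span (Set.range fun g => (γ g).poly)) :
    StEq f r (latP γ out) := by
  obtain ⟨a, ha⟩ := (Ideal.mem_span_range_iff_exists_fun).mp h2
  refine ⟨by omega, ?_⟩
  let ρ : MvPolynomial (Fin n) R →ₐ[R] MvPolynomial (Fin (n + r)) R := rename (Fin.castAdd r)
  let θ : MvPolynomial (Fin (N + (r + r))) R →ₐ[R] MvPolynomial (Fin (n + r)) R :=
    aeval (assign (fun j => ρ (X (ι j))) (fun m => X (Fin.natAdd n m) + ρ (a m))
      (fun m => ρ (γ m).poly))
  have hx : ∀ j, θ (X (Fin.castAdd (r + r) j)) = ρ (X (ι j)) := by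
    intro j
    rw [aeval_X, assign_x]
  have hy : ∀ m, θ (yv R N m) = X (Fin.natAdd n m) + ρ (a m) := by
    intro m
    unfold yv
    rw [aeval_X, assign_y]
  have hz : ∀ m, θ (zv R N m) = ρ (γ m).poly := by
    intro m
    unfold zv
    rw [aeval_X, assign_z]
  -- surjectivity
  have hold : ∀ p : MvPolynomial (Fin n) R, ρ p ∈ θ.range := by
    have h3 : ∀ v, X v ∈ θ.range.comap ρ := by
      apply h1
      · intro j
        exact ⟨_, hx j⟩
      · intro g
        exact ⟨_, hz g⟩
    intro p
    have h4 : p ∈ θ.range.comap ρ := by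
      have h5 : (⊤ : Subalgebra R (MvPolynomial (Fin n) R)) ≤ θ.range.comap ρ := by
        rw [← MvPolynomial.adjoin_range_X, Algebra.adjoin_le_iff]
        rintro _ ⟨v, rfl⟩
        exact h3 v
      exact h5 trivial
    exact h4
  have hs : Function.Surjective θ := by
    rw [← AlgHom.range_eq_top, eq_top_iff, ← MvPolynomial.adjoin_range_X, Algebra.adjoin_le_iff]
    rintro _ ⟨v, rfl⟩
    refine Fin.addCases (fun v => ?_) (fun m => ?_) v
    · have := hold (X v)
      rwa [show ρ (X v) = X (Fin.castAdd r v) from rename_X _ _] at this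
    · have h3 : (X (Fin.natAdd n m) : MvPolynomial (Fin (n + r)) R) =
          θ (yv R N m) - ρ (a m) := by
        rw [hy, add_sub_cancel_right]
      rw [h3]
      exact Subalgebra.sub_mem _ ⟨_, rfl⟩ (hold _)
  -- injectivity
  have hc : N + (r + r) = n + r := by omega
  have hi : Function.Injective θ := by
    let E := renameEquiv R (finCongr hc)
    have h3 := inj_of_surj ((θ.comp E.symm.toAlgHom).toRingHom)
      (hs.comp E.symm.surjective)
    intro p q hpq
    have h4 : E p = E q := h3 (by
      change θ (E.symm (E p)) = θ (E.symm (E q))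
      rw [E.symm_apply_apply, E.symm_apply_apply, hpq])
    exact E.injective h4
  refine ⟨AlgEquiv.ofBijective θ ⟨hi, hs⟩, ?_⟩
  change θ (stb f r) = _
  unfold stb latP
  have hf : θ (rename (Fin.castAdd (r + r)) f) = ρ (rename ι f) := by
    have h3 : θ.comp (rename (Fin.castAdd (r + r))) = ρ.comp (rename ι) := by
      apply MvPolynomial.algHom_ext
      intro j
      rw [AlgHom.comp_apply, AlgHom.comp_apply, rename_X, rename_X]
      exact hx j
    exact DFunLike.congr_fun h3 f
  have hout : ρ (X out) = X (Fin.castAdd r out) := rename_X _ _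
  rw [map_add, hf, map_sum, ← hout]
  have h5 : rename ι f = X out - ∑ m, a m * (γ m).poly := by
    rw [ha]
    ring
  rw [h5, map_sub, map_sum]
  have h6 : ∀ m, θ (yv R N m * zv R N m) =
      X (Fin.natAdd n m) * rename (Fin.castAdd r) (γ m).poly + ρ (a m * (γ m).poly) := by
    intro m
    rw [map_mul, hy, hz, map_mul]
    ring
  rw [Finset.sum_congr rfl fun m _ => h6 m, Finset.sum_add_distrib]
  ring

/-- the same for arbitrary finite sets of variables and gates -/
theorem steq_gates' [IsNoetherianRing R] {N n r : ℕ} {V G : Type} (γ : G → Gate R V) (out : V)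
    (f : MvPolynomial (Fin N) R) (ι : Fin N → V) (ev : V ≃ Fin n) (eg : Fin r ≃ G)
    (hn : n = N + r)
    (h1 : ∀ A : Subalgebra R (MvPolynomial V R), (∀ j, X (ι j) ∈ A) →
      (∀ g, (γ g).poly ∈ A) → ∀ v, X v ∈ A)
    (h2 : X out - rename ι f ∈ Ideal.span (Set.range fun g => (γ g).poly)) :
    StEq f r (latP (fun k => (γ (eg k)).map ev) (ev out)) := by
  refine steq_gates _ _ f (fun j => ev (ι j)) hn ?_ ?_
  · intro A hA hg v
    have h3 : ∀ v, X v ∈ A.comap (rename ev : MvPolynomial V R →ₐ[R] _) := by
      apply h1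
      · intro j
        change rename ev (X (ι j)) ∈ A
        rw [rename_X]
        exact hA j
      · intro g
        change rename ev (γ g).poly ∈ A
        have := hg (eg.symm g)
        rwa [eg.apply_symm_apply, Gate.poly_map] at this
    have h4 : rename ev (X (ev.symm v)) ∈ A := h3 (ev.symm v)
    rwa [rename_X, ev.apply_symm_apply] at h4
  · have h3 := Ideal.mem_map_of_mem (rename ev : MvPolynomial V R →ₐ[R] _).toRingHom h2
    rw [Ideal.map_span] at h3
    have h4 : (rename ev : MvPolynomial V R →ₐ[R] _).toRingHom '' (Set.range fun g => (γ g).poly) =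
        Set.range fun k => ((γ (eg k)).map ev).poly := by
      ext p
      simp only [Set.mem_range, Set.mem_image, exists_exists_eq_and, Gate.poly_map]
      constructor
      · rintro ⟨g, rfl⟩
        exact ⟨eg.symm g, by rw [eg.apply_symm_apply]; rfl⟩
      · rintro ⟨k, rfl⟩
        exact ⟨eg k, rfl⟩
    rw [h4] at h3
    have h5 : (rename ev : MvPolynomial V R →ₐ[R] MvPolynomial (Fin n) R).toRingHom
        (X out - rename ι f) = X (ev out) - rename (fun j => ev (ι j)) f := by
      change rename ev (X out - rename ι f) = _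
      rw [map_sub, rename_X, rename_rename]
      rfl
    rwa [h5] at h3

end Pool.Agent.H43.PC
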