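import Pool.Agent.H43.PC.Fun

/-!
# The lattice polynomial of a sum of monomials
-/

set_option autoImplicit false

open MvPolynomial

namespace Pool.Agent.H43.PC

open Pool.Agent.Q42.CU Pool.Agent.Q223.MM

variable {R : Type} [CommRing R] {J : ℕ}

/-- the circuit with a chain of `p` further variables at the output -/
noncomputable def gateP (L : List (Row R J)) (p : ℕ) :
    Gt L.length J (mk' L) ⊕ Fin p → Gate R (Vr L.length J ⊕ Fin p)
  | .inl g => (gate L g).map .inl
  | .inr t => .eq (if h : t.val = 0 then .inl (.a (Fin.last _))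
      else .inr ⟨t.val - 1, by omega⟩) (.inr t)

/-- the output -/
def outP (I J p : ℕ) : Vr I J ⊕ Fin p :=
  if h : p = 0 then .inl (.a (Fin.last _)) else .inr ⟨p - 1, by omega⟩

/-- the places of the variables -/
def vpP {I J p : ℕ} : Vr I J ⊕ Fin p → ℤ × ℤ
  | .inl v => vp v
  | .inr t => pl I J 0 (2 * t + 3)

/-- the places of the gates -/
def gpP {I J p : ℕ} {q : Fin I → Bool} : Gt I J q ⊕ Fin p → ℤ × ℤ
  | .inl g => gp g
  | .inr t => pl I J 0 (2 * t + 2)

/-- the directions of the gates around a variable -/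
def dirsP {I J p : ℕ} : Vr I J ⊕ Fin p → Finset (ℤ × ℤ)
  | .inl v => dirs v
  | .inr _ => {(0, -1), (0, 1)}

lemma card_dirsP {I J p : ℕ} (v : Vr I J ⊕ Fin p) : (dirsP v).card ≤ 3 := by
  rcases v with v | t
  · exact card_dirs v
  · simp [dirsP]

lemma vpP_inj {I J p : ℕ} : Function.Injective (vpP : Vr I J ⊕ Fin p → ℤ × ℤ) := by
  rintro (x | s) (y | t) h
  · exact congrArg _ (vp_inj h)
  · exfalso
    cases x <;> simp only [vpP, vp, pl, Prod.mk.injEq] at h <;> omega
  · exfalso
    cases y <;> simp only [vpP, vp, pl, Prod.mk.injEq] at h <;> omega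
  · simp only [vpP, pl, Prod.mk.injEq] at h
    congr 1
    ext
    omega

/-- there are no marks -/
def NoMarks (L : List (Row R J)) : Prop := ∀ ρ ∈ L, ρ.e = none

lemma no_fin {L : List (Row R J)} (hL : NoMarks L) (i : {i : Fin L.length // mk' L i = true}) :
    False := by
  have h1 := i.2
  rw [mk', hL _ (L.get_mem i.1)] at h1
  simp at h1

lemma gpP_inj {L : List (Row R J)} (hL : NoMarks L) {p : ℕ} :
    Function.Injective (gpP : Gt L.length J (mk' L) ⊕ Fin p → ℤ × ℤ) := by
  rintro (x | s) (y | t) h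
  · exact congrArg _ (gp_inj h)
  · exfalso
    cases x
    case fin i => exact no_fin hL i
    all_goals
      simp only [gpP, gp, pl, Prod.mk.injEq] at h
      omega
  · exfalso
    cases y
    case fin i => exact no_fin hL i
    all_goals
      simp only [gpP, gp, pl, Prod.mk.injEq] at h
      omega
  · simp only [gpP, pl, Prod.mk.injEq] at h
    congr 1
    ext
    omega

lemma vpP_ne_gpP {I J p : ℕ} {q : Fin I → Bool} (x : Vr I J ⊕ Fin p) (y : Gt I J q ⊕ Fin p) :
    vpP x ≠ gpP y := by
  intro h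
  rcases x with x | s <;> rcases y with y | t
  · exact vp_ne_gp x y h
  · cases x <;> simp only [vpP, gpP, vp, pl, Prod.mk.injEq] at h <;> omega
  · cases y <;> simp only [vpP, gpP, gp, pl, Prod.mk.injEq] at h <;> omega
  · simp only [vpP, gpP, pl, Prod.mk.injEq] at h
    omega

lemma dir_memP (L : List (Row R J)) {p : ℕ} (g : Gt L.length J (mk' L) ⊕ Fin p)
    (v : Vr L.length J ⊕ Fin p) (h : v ∈ (gateP L p g).args) : gpP g - vpP v ∈ dirsP v := by
  rcases g with g | t
  · change v ∈ ((gate L g).map Sum.inl).args at h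
    rw [Gate.args_map, List.mem_map] at h
    obtain ⟨u, hu, rfl⟩ := h
    exact dir_mem L g u hu
  · change v ∈ [_, _] at h
    simp only [List.mem_cons, List.not_mem_nil, or_false] at h
    rcases h with rfl | rfl
    · split_ifs with h0
      · simp [gpP, vpP, vp, dirsP, dirs, pl, h0]
      · have h1 : (((t.val - 1 : ℕ)) : ℤ) = t.val - 1 := by omega
        simp only [gpP, vpP, dirsP, pl, Finset.mem_insert, Finset.mem_singleton,
          Prod.mk_sub_mk, Prod.mk.injEq]
        omega
    · simp only [gpP, vpP, dirsP, pl, Finset.mem_insert, Finset.mem_singleton,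
        Prod.mk_sub_mk, Prod.mk.injEq]
      omega

lemma nbr_of_dirP {I J p : ℕ} {v : Vr I J ⊕ Fin p} {q : ℤ × ℤ} (h : q - vpP v ∈ dirsP v) :
    Nbr (vpP v) q := by
  rcases v with v | t
  · exact nbr_of_dir h
  · simp only [dirsP, Finset.mem_insert, Finset.mem_singleton, Prod.ext_iff, Prod.fst_sub,
      Prod.snd_sub] at h
    unfold Nbr
    omega

lemma onLattice_gateP {S : Set R} (h0 : 0 ∈ S) (L : List (Row R J))
    (hL : ∀ ρ ∈ L, ρ.c ∈ S) (hm : NoMarks L) (p : ℕ) : OnLattice S (gateP L p) := by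
  have hS : ∀ ρ ∈ L, RowIn S ρ := fun ρ hρ => ⟨hL ρ hρ, fun x hx => by
    rw [hm ρ hρ] at hx
    simp at hx⟩
  have h1 := onLattice_gate h0 L hS
  refine ⟨?_, ?_, ?_, ?_⟩
  · rintro (g | t)
    · exact (Gate.constIn_map _ _ _).mpr (h1.consts g)
    · trivial
  · rintro (g | t)
    · change ((gate L g).map Sum.inl).args.Nodup
      rw [Gate.args_map]
      exact (h1.nodup g).map Sum.inl_injective
    · change [_, _].Nodup
      rw [List.nodup_cons]
      refine ⟨?_, List.nodup_singleton _⟩
      rw [List.mem_singleton]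
      by_cases h : t.val = 0
      · rw [dif_pos h]
        exact Sum.inl_ne_inr
      · rw [dif_neg h]
        intro h2
        have h3 := congrArg Fin.val (Sum.inr_injective h2)
        simp only at h3
        omega
  · intro v
    refine le_trans ?_ (card_dirsP v)
    rw [← Set.ncard_coe_finset]
    refine Set.ncard_le_ncard_of_injOn (fun g => gpP g - vpP v) (fun g hg => ?_) ?_
      (Finset.finite_toSet _)
    · exact dir_memP L g v hg
    · intro g _ g' _ h
      exact gpP_inj hm (sub_left_injective h)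
  · refine ⟨Sum.elim vpP gpP, ?_, ?_⟩
    · exact vpP_inj.sumElim (gpP_inj hm) vpP_ne_gpP
    · intro g v hv
      exact nbr_of_dirP (dir_memP L g v hv)

/-- the variable computed by a gate -/
def outv {I J : ℕ} {q : Fin I → Bool} : Fin J ⊕ Gt I J q → Vr I J
  | .inl j => .v 0 j
  | .inr (.m i j) => .h i j
  | .inr (.q i j) => .w i j
  | .inr (.g1 i j) => .s i j
  | .inr (.g2 i j) => .h0 i j.succ
  | .inr (.g3 i j) => .v i.succ j
  | .inr (.ma i) => .b i
  | .inr (.mb i) => .a i.succ
  | .inr (.k i) => .h0 i 0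
  | .inr .z => .a 0
  | .inr (.fin i) => .a i.1.succ

/-- the gate which computes a variable -/
def outg {I J : ℕ} {q : Fin I → Bool} : Vr I J → Fin J ⊕ Gt I J q
  | .h0 i j => Fin.cases (.inr (.k i)) (fun j => .inr (.g2 i j)) j
  | .v i j => Fin.cases (.inl j) (fun i => .inr (.g3 i j)) i
  | .h i j => .inr (.m i j)
  | .w i j => .inr (.q i j)
  | .s i j => .inr (.g1 i j)
  | .a i => Fin.cases (.inr .z) (fun i => .inr (.mb i)) i
  | .b i => .inr (.ma i)

/-- the gates and the inputs are as many as the variables -/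
noncomputable def gateEquiv (L : List (Row R J)) (hL : NoMarks L) :
    Fin J ⊕ Gt L.length J (mk' L) ≃ Vr L.length J where
  toFun := outv
  invFun := outg
  left_inv := by
    rintro (j | g)
    · rfl
    · cases g
      case fin i => exact (no_fin hL i).elim
      all_goals rfl
  right_inv := by
    intro v
    cases v
    case h0 i j =>
      refine Fin.cases ?_ (fun j => ?_) j <;> rfl
    case v i j =>
      refine Fin.cases ?_ (fun j => ?_) i <;> rfl
    case a i =>
      refine Fin.cases ?_ (fun j => ?_) i <;> rfl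
    all_goals rfl

/-- the variables are generated by the inputs and the gates -/
lemma all_mem {B : Type} [CommRing B] [Algebra R B] (L : List (Row R J)) (A : Subalgebra R B)
    (ξ : Vr L.length J → B) (hin : ∀ j, ξ (.v 0 j) ∈ A) (hg : ∀ g, (gate L g).ev ξ ∈ A)
    (u : Vr L.length J) : ξ u ∈ A := by
  classical
  have hq : ∀ (i : Fin L.length) (j : Fin J), ξ (.v i.castSucc j) ∈ A → ξ (.w i j) ∈ A := by
    intro i j h
    have h1 : ξ (.v i.castSucc j) - ξ (.w i j) ∈ A := hg (.q i j)
    have h2 := A.sub_mem h h1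
    rwa [sub_sub_cancel] at h2
  have hk : ∀ i : Fin L.length, ξ (.h0 i 0) ∈ A := by
    intro i
    have h1 : ξ (.h0 i 0) - algebraMap R B (L.get i).c ∈ A := hg (.k i)
    have h2 := A.add_mem h1 (A.algebraMap_mem (L.get i).c)
    rwa [sub_add_cancel] at h2
  have hm : ∀ (i : Fin L.length) (j : Fin J), ξ (.h0 i j.castSucc) ∈ A →
      ξ (.v i.castSucc j) ∈ A → ξ (.h i j) ∈ A := by
    intro i j h h'
    have h1 : Gate.ev ξ (if j ∈ (L.get i).m then .mul (.h0 i j.castSucc) (.v i.castSucc j) (.h i j)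
      else .eq (.h0 i j.castSucc) (.h i j)) ∈ A := hg (.m i j)
    split_ifs at h1
    · have h2 : ξ (.h0 i j.castSucc) * ξ (.v i.castSucc j) - ξ (.h i j) ∈ A := h1
      have h3 := A.sub_mem (A.mul_mem h h') h2
      rwa [sub_sub_cancel] at h3
    · have h2 : ξ (.h0 i j.castSucc) - ξ (.h i j) ∈ A := h1
      have h3 := A.sub_mem h h2
      rwa [sub_sub_cancel] at h3
  have hs : ∀ (i : Fin L.length) (j : Fin J), ξ (.h i j) ∈ A → ξ (.w i j) ∈ A →
      ξ (.s i j) ∈ A := by
    intro i j h h'
    have h1 : ξ (.h i j) + ξ (.w i j) - ξ (.s i j) ∈ A := hg (.g1 i j)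
    have h3 := A.sub_mem (A.add_mem h h') h1
    rwa [sub_sub_cancel] at h3
  have hh : ∀ (i : Fin L.length) (j : Fin J), ξ (.w i j) ∈ A → ξ (.s i j) ∈ A →
      ξ (.h0 i j.succ) ∈ A := by
    intro i j h h'
    have h1 : ξ (.h0 i j.succ) + ξ (.w i j) - ξ (.s i j) ∈ A := hg (.g2 i j)
    have h3 := A.sub_mem (A.add_mem h1 h') h
    have h4 : ξ (.h0 i j.succ) + ξ (.w i j) - ξ (.s i j) + ξ (.s i j) - ξ (.w i j) =
        ξ (.h0 i j.succ) := by ring
    rwa [h4] at h3
  have hv' : ∀ (i : Fin L.length) (j : Fin J), ξ (.h i j) ∈ A → ξ (.s i j) ∈ A →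
      ξ (.v i.succ j) ∈ A := by
    intro i j h h'
    have h1 : ξ (.h i j) + ξ (.v i.succ j) - ξ (.s i j) ∈ A := hg (.g3 i j)
    have h3 := A.sub_mem (A.add_mem h1 h') h
    have h4 : ξ (.h i j) + ξ (.v i.succ j) - ξ (.s i j) + ξ (.s i j) - ξ (.h i j) =
        ξ (.v i.succ j) := by ring
    rwa [h4] at h3
  -- one row
  have hrow : ∀ (i : Fin L.length), (∀ j, ξ (.v i.castSucc j) ∈ A) →
      ∀ (j : ℕ) (hj : j < J + 1), ξ (.h0 i ⟨j, hj⟩) ∈ A := by
    intro i hi j
    induction j with
    | zero => exact fun _ => hk i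
    | succ j ih =>
      intro hj
      let j' : Fin J := ⟨j, by omega⟩
      have h1 : ξ (.h i j') ∈ A := hm i j' (ih (by omega)) (hi _)
      have h2 := hq i j' (hi _)
      exact hh i j' h2 (hs i j' h1 h2)
  have hv : ∀ (i : ℕ) (hi : i < L.length + 1) (j : Fin J), ξ (.v ⟨i, hi⟩ j) ∈ A := by
    intro i
    induction i with
    | zero => exact fun _ j => hin j
    | succ i ih =>
      intro hi j
      let i' : Fin L.length := ⟨i, by omega⟩
      have h0 : ∀ j, ξ (.v i'.castSucc j) ∈ A := fun j => ih (by omega) j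
      have h1 : ξ (.h i' j) ∈ A := hm i' j (hrow i' h0 j _) (h0 j)
      exact hv' i' j h1 (hs i' j h1 (hq i' j (h0 j)))
  have hv0 : ∀ (i : Fin L.length) (j : Fin J), ξ (.v i.castSucc j) ∈ A := fun i j => hv _ _ _
  have hh0 : ∀ (i : Fin L.length) (j : Fin (J + 1)), ξ (.h0 i j) ∈ A := fun i j =>
    hrow i (hv0 i) j j.2
  have hh1 : ∀ (i : Fin L.length) (j : Fin J), ξ (.h i j) ∈ A := fun i j =>
    hm i j (hh0 i _) (hv0 i j)
  have hw : ∀ (i : Fin L.length) (j : Fin J), ξ (.w i j) ∈ A := fun i j => hq i j (hv0 i j)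
  have hb : ∀ i : Fin L.length, ξ (.a i.castSucc) ∈ A → ξ (.b i) ∈ A := by
    intro i h
    have h1 : ξ (.a i.castSucc) + ξ (.h0 i (Fin.last J)) - ξ (.b i) ∈ A := hg (.ma i)
    have h3 := A.sub_mem (A.add_mem h (hh0 i (Fin.last J))) h1
    rwa [sub_sub_cancel] at h3
  have ha : ∀ (i : ℕ) (hi : i < L.length + 1), ξ (.a ⟨i, hi⟩) ∈ A := by
    intro i
    induction i with
    | zero =>
      intro _
      have h1 : ξ (.a 0) - algebraMap R B 0 ∈ A := hg .z
      rwa [map_zero, sub_zero] at h1
    | succ i ih =>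
      intro hi
      let i' : Fin L.length := ⟨i, by omega⟩
      have h1 : ξ (.b i') - ξ (.a i'.succ) ∈ A := hg (.mb i')
      have h3 := A.sub_mem (hb i' (ih (by omega))) h1
      rwa [sub_sub_cancel] at h3
  cases u
  case h0 i j => exact hh0 i j
  case v i j => exact hv i i.2 j
  case h i j => exact hh1 i j
  case w i j => exact hw i j
  case s i j => exact hs i j (hh1 i j) (hw i j)
  case a i => exact ha i i.2
  case b i => exact hb i (ha _ _)

/-- the polynomial of the rows -/
noncomputable def rowsP (L : List (Row R J)) : MvPolynomial (Fin J) R := (L.map rowP).sum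

lemma sm_last (L : List (Row R J)) : sm L L.length = rowsP L := by
  rw [sm, List.take_length, rowsP]

lemma mem_gates (L : List (Row R J)) (p : ℕ) {x : MvPolynomial (Vr L.length J) R}
    (hx : x ∈ gI L) : (rename Sum.inl x : MvPolynomial (Vr L.length J ⊕ Fin p) R) ∈
      Ideal.span (Set.range fun g => (gateP L p g).poly) := by
  have h1 : gI L ≤ (Ideal.span (Set.range fun g => (gateP L p g).poly)).comap
      (rename Sum.inl : MvPolynomial (Vr L.length J) R →ₐ[R] _) := by
    rw [gI, Ideal.span_le]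
    rintro _ ⟨g, rfl⟩
    change (rename Sum.inl (gate L g).poly : MvPolynomial (Vr L.length J ⊕ Fin p) R) ∈
      Ideal.span (Set.range fun g => (gateP L p g).poly)
    rw [← Gate.poly_map]
    exact Ideal.subset_span ⟨.inl g, rfl⟩
  exact h1 hx

lemma ren_inp (L : List (Row R J)) (p : ℕ) (q : MvPolynomial (Fin J) R) :
    (rename Sum.inl (inp L q) : MvPolynomial (Vr L.length J ⊕ Fin p) R) =
      rename (fun j => Sum.inl (.v 0 j)) q := by
  have h9 : (rename Sum.inl : MvPolynomial (Vr L.length J) R →ₐ[R]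
      MvPolynomial (Vr L.length J ⊕ Fin p) R).comp (inp L) =
      rename (fun j => Sum.inl (.v 0 j)) := by
    apply MvPolynomial.algHom_ext
    intro j
    rw [AlgHom.comp_apply, inp, aeval_X, rename_X, rename_X]
  exact DFunLike.congr_fun h9 _

lemma out_mem (L : List (Row R J)) (p : ℕ) :
    (X (Sum.inl (.a (Fin.last _))) - rename (fun j => Sum.inl (.v 0 j)) (rowsP L) :
      MvPolynomial (Vr L.length J ⊕ Fin p) R) ∈
      Ideal.span (Set.range fun g => (gateP L p g).poly) := by
  have h3 : X (.a (Fin.last _)) - inp L (val L (.a (Fin.last _))) ∈ gI L :=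
    Ideal.Quotient.eq.mp (mk_X L (.a (Fin.last _)))
  have h4 : val L (.a (Fin.last _)) = rowsP L := by
    change sm L (Fin.last L.length).val = _
    rw [Fin.val_last, sm_last]
  rw [h4] at h3
  have h5 := mem_gates L p h3
  rwa [map_sub, rename_X, ren_inp] at h5

/-- **Every sum of squarefree monomials is stably equivalent to lattice polynomials**, with any large
number of hyperbolic planes. -/
theorem steq_rows [IsNoetherianRing R] {S : Set R} (h0 : 0 ∈ S) (L : List (Row R J))
    (hL : ∀ ρ ∈ L, ρ.c ∈ S) (hm : NoMarks L) :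
    ∃ κ₀ : ℕ, ∀ κ, κ₀ ≤ κ → ∃ (n : ℕ) (γ : Fin κ → Gate R (Fin n)) (out : Fin n),
      OnLattice S γ ∧ StEq (rowsP L) κ (latP γ out) := by
  classical
  refine ⟨Fintype.card (Gt L.length J (mk' L)), fun κ hκ => ?_⟩
  obtain ⟨p, rfl⟩ := Nat.exists_eq_add_of_le hκ
  have hcG : Fintype.card (Gt L.length J (mk' L) ⊕ Fin p) =
      Fintype.card (Gt L.length J (mk' L)) + p := by
    rw [Fintype.card_sum, Fintype.card_fin]
  have hcV : Fintype.card (Vr L.length J ⊕ Fin p) =
      J + (Fintype.card (Gt L.length J (mk' L)) + p) := by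
    rw [Fintype.card_sum, Fintype.card_fin, ← Fintype.card_congr (gateEquiv L hm),
      Fintype.card_sum, Fintype.card_fin]
    ring
  let eg : Fin (Fintype.card (Gt L.length J (mk' L)) + p) ≃ Gt L.length J (mk' L) ⊕ Fin p :=
    (Fintype.equivFinOfCardEq hcG).symm
  let ev : Vr L.length J ⊕ Fin p ≃ Fin (Fintype.card (Vr L.length J ⊕ Fin p)) :=
    Fintype.equivFin _
  refine ⟨_, fun k => (gateP L p (eg k)).map ev, ev (outP L.length J p),
    (onLattice_gateP h0 L hL hm p).rename ev eg, ?_⟩
  refine steq_gates' (gateP L p) (outP L.length J p) (rowsP L) (fun j => .inl (.v 0 j)) ev eg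
    hcV ?_ ?_
  · intro A hA hg v
    have h1 : ∀ u : Vr L.length J, (X (Sum.inl u) : MvPolynomial _ R) ∈ A := by
      refine all_mem L A (fun u => X (Sum.inl u)) hA fun g => ?_
      have h2 := hg (.inl g)
      change ((gate L g).map Sum.inl).poly ∈ A at h2
      rw [Gate.poly_map] at h2
      rw [← Gate.aeval_poly]
      have h3 : aeval (fun u => (X (Sum.inl u) :
          MvPolynomial (Vr L.length J ⊕ Fin p) R)) (gate L g).poly =
          rename Sum.inl (gate L g).poly := by
        have h4 : (aeval fun u => (X (Sum.inl u) :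
            MvPolynomial (Vr L.length J ⊕ Fin p) R)) = rename Sum.inl := by
          apply MvPolynomial.algHom_ext
          intro u
          rw [aeval_X, rename_X]
        rw [h4]
      rw [h3]
      exact h2
    rcases v with v | t
    · exact h1 v
    · have h2 : ∀ (t : ℕ) (ht : t < p), (X (Sum.inr ⟨t, ht⟩) : MvPolynomial _ R) ∈ A := by
        intro t
        induction t with
        | zero =>
          intro ht
          have h3 := hg (.inr ⟨0, ht⟩)
          have h4 : X (Sum.inl (.a (Fin.last _))) - X (Sum.inr ⟨0, ht⟩) ∈ A := h3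
          have h5 := A.sub_mem (h1 (.a (Fin.last _))) h4
          rwa [sub_sub_cancel] at h5
        | succ t ih =>
          intro ht
          have h3 := hg (.inr ⟨t + 1, ht⟩)
          have h4 : X (Sum.inr ⟨t, by omega⟩) - X (Sum.inr ⟨t + 1, ht⟩) ∈ A := h3
          have h5 := A.sub_mem (ih (by omega)) h4
          rwa [sub_sub_cancel] at h5
      exact h2 t t.2
  · -- the output
    set K := Ideal.span (Set.range fun g => (gateP L p g).poly) with hK
    have hgK : ∀ g, (gateP L p g).poly ∈ K := fun g => Ideal.subset_span ⟨g, rfl⟩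
    have h1 : X (Sum.inl (.a (Fin.last _))) - rename (fun j => Sum.inl (.v 0 j)) (rowsP L) ∈ K :=
      out_mem L p
    have h2 : ∀ (t : ℕ) (ht : t < p), X (Sum.inl (.a (Fin.last _))) - X (Sum.inr ⟨t, ht⟩) ∈ K := by
      intro t
      induction t with
      | zero => exact fun ht => hgK (.inr ⟨0, ht⟩)
      | succ t ih =>
        intro ht
        have h4 : X (Sum.inr ⟨t, by omega⟩) - X (Sum.inr ⟨t + 1, ht⟩) ∈ K :=
          hgK (.inr ⟨t + 1, ht⟩)
        have h5 := K.add_mem (ih (by omega)) h4
        rwa [sub_add_sub_cancel] at h5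
    unfold outP
    split_ifs with hp
    · exact h1
    · have h3 := K.sub_mem h1 (h2 (p - 1) (by omega))
      rwa [sub_sub_sub_cancel_left] at h3

end Pool.Agent.H43.PC
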