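import Mathlib

/-!
# Gates and nearest-neighbour gate systems on the square lattice
-/

set_option autoImplicit false

open MvPolynomial

namespace Pool.Agent.H43.PC

/-- A gate on the set `V` of variables, with constants in `R`. -/
inductive Gate (R V : Type) : Type
  | const (c : R) (a : V) : Gate R V
  | eq (a b : V) : Gate R V
  | add (a b c : V) : Gate R V
  | mul (a b c : V) : Gate R V

namespace Gate

variable {R V W : Type}

/-- The list of the variables of a gate. -/
def args : Gate R V → List V
  | const _ a => [a]
  | eq a b => [a, b]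
  | add a b c => [a, b, c]
  | mul a b c => [a, b, c]

/-- The polynomial of a gate: `x_a - c`, `x_a - x_b`, `x_a + x_b - x_c` and `x_a x_b - x_c`. -/
noncomputable def poly [CommRing R] : Gate R V → MvPolynomial V R
  | const c a => X a - C c
  | eq a b => X a - X b
  | add a b c => X a + X b - X c
  | mul a b c => X a * X b - X c

/-- If the gate is `x_a - c`, then the constant `c` is in `S`. -/
def ConstIn (S : Set R) : Gate R V → Prop
  | const c _ => c ∈ S
  | eq _ _ => True
  | add _ _ _ => True
  | mul _ _ _ => True

/-- Renaming the variables of a gate. -/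
def map (f : V → W) : Gate R V → Gate R W
  | const c a => const c (f a)
  | eq a b => eq (f a) (f b)
  | add a b c => add (f a) (f b) (f c)
  | mul a b c => mul (f a) (f b) (f c)

lemma args_map (f : V → W) (g : Gate R V) : (g.map f).args = g.args.map f := by
  cases g <;> rfl

lemma constIn_map (f : V → W) (g : Gate R V) (S : Set R) : (g.map f).ConstIn S ↔ g.ConstIn S := by
  cases g <;> rfl

lemma poly_map [CommRing R] (f : V → W) (g : Gate R V) : (g.map f).poly = rename f g.poly := by
  cases g <;> simp [map, poly]

/-- The value of the gate polynomial at a point of an algebra. -/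
def ev {B : Type} [CommRing R] [CommRing B] [Algebra R B] (ξ : V → B) : Gate R V → B
  | const c a => ξ a - algebraMap R B c
  | eq a b => ξ a - ξ b
  | add a b c => ξ a + ξ b - ξ c
  | mul a b c => ξ a * ξ b - ξ c

lemma aeval_poly {B : Type} [CommRing R] [CommRing B] [Algebra R B] (ξ : V → B) (g : Gate R V) :
    aeval ξ g.poly = g.ev ξ := by
  cases g <;> simp [poly, ev]

end Gate

/-- The points `p` and `q` are neighbours in the square lattice. -/
def Nbr (p q : ℤ × ℤ) : Prop :=
  (p.1 = q.1 ∧ (p.2 = q.2 + 1 ∨ q.2 = p.2 + 1)) ∨ (p.2 = q.2 ∧ (p.1 = q.1 + 1 ∨ q.1 = p.1 + 1))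

/-- The gates `γ` are a nearest-neighbour system on the square lattice with constants in `S`: the
variables of every gate are different, every variable occurs in at most three gates, and the
variables and the gates have different places in the square lattice such that every gate is a
neighbour of each of its variables. -/
structure OnLattice {R V G : Type} (S : Set R) (γ : G → Gate R V) : Prop where
  consts : ∀ g, (γ g).ConstIn S
  nodup : ∀ g, (γ g).args.Nodup
  few : ∀ v, {g | v ∈ (γ g).args}.ncard ≤ 3
  layout : ∃ f : V ⊕ G → ℤ × ℤ, Function.Injective f ∧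
    ∀ g, ∀ v ∈ (γ g).args, Nbr (f (Sum.inl v)) (f (Sum.inr g))

/-- The ring of functions on the scheme of the solutions of all gates. -/
abbrev Net {R V G : Type} [CommRing R] (γ : G → Gate R V) : Type :=
  MvPolynomial V R ⧸ Ideal.span (Set.range fun g => (γ g).poly)

/-- The polynomial `∑_g t_g p_g(x)` for the gates `p_g`. -/
noncomputable def cub {R : Type} [CommRing R] {n r : ℕ} (γ : Fin r → Gate R (Fin n)) :
    MvPolynomial (Fin r ⊕ Fin n) R :=
  ∑ g, X (Sum.inl g) * rename Sum.inr (γ g).poly

/-- The ring of functions on the cubic hypersurface `∑_g t_g p_g(x) = 1` for the gates `p_g`. -/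
abbrev HypG {R : Type} [CommRing R] {n r : ℕ} (γ : Fin r → Gate R (Fin n)) : Type :=
  MvPolynomial (Fin r ⊕ Fin n) R ⧸ Ideal.span {cub γ - 1}

/-- Renaming the variables and the gates. -/
lemma OnLattice.rename {R V G V' G' : Type} {S : Set R} {γ : G → Gate R V} (h : OnLattice S γ)
    (v : V ≃ V') (g : G' ≃ G) : OnLattice S fun k => (γ (g k)).map v := by
  obtain ⟨f, hf, hn⟩ := h.layout
  refine ⟨fun k => (Gate.constIn_map _ _ _).mpr (h.consts _), fun k => ?_, fun x => ?_, ?_⟩
  · rw [Gate.args_map]
    exact (h.nodup _).map v.injective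
  · have h1 : {k | x ∈ ((γ (g k)).map v).args} = g ⁻¹' {k | v.symm x ∈ (γ k).args} := by
      ext k
      simp only [Set.mem_ofPred_eq, Gate.args_map, List.mem_map, Set.mem_preimage]
      constructor
      · rintro ⟨a, ha, rfl⟩
        rwa [v.symm_apply_apply]
      · intro ha
        exact ⟨_, ha, v.apply_symm_apply x⟩
    rw [h1, Set.ncard_preimage_of_injective_subset_range g.injective (by simp)]
    exact h.few _
  · refine ⟨fun z => f (z.map v.symm g), ?_, ?_⟩
    · exact hf.comp (Sum.map_injective.mpr ⟨v.symm.injective, g.injective⟩)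
    · intro k x hx
      rw [Gate.args_map, List.mem_map] at hx
      obtain ⟨a, ha, rfl⟩ := hx
      have := hn (g k) a ha
      simpa using this

end Pool.Agent.H43.PC
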