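import Pool.Agent.H43.PC.Gate

/-!
# The lattice circuit of a list of monomials
-/

set_option autoImplicit false

open MvPolynomial

namespace Pool.Agent.H43.PC

/-- A row of the table: the monomial `c ∏_{j ∈ m} x_j`, and possibly a mark `e`. -/
structure Row (R : Type) (J : ℕ) where
  /-- the coefficient -/
  c : R
  /-- the variables -/
  m : Finset (Fin J)
  /-- the mark -/
  e : Option R

/-- The variables of the circuit. -/
inductive Vr (I J : ℕ) : Type
  | h0 (i : Fin I) (j : Fin (J + 1)) : Vr I J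
  | v (i : Fin (I + 1)) (j : Fin J) : Vr I J
  | h (i : Fin I) (j : Fin J) : Vr I J
  | w (i : Fin I) (j : Fin J) : Vr I J
  | s (i : Fin I) (j : Fin J) : Vr I J
  | a (i : Fin (I + 1)) : Vr I J
  | b (i : Fin I) : Vr I J
deriving Fintype

/-- The gates of the circuit. -/
inductive Gt (I J : ℕ) (p : Fin I → Bool) : Type
  | m (i : Fin I) (j : Fin J) : Gt I J p
  | q (i : Fin I) (j : Fin J) : Gt I J p
  | g1 (i : Fin I) (j : Fin J) : Gt I J p
  | g2 (i : Fin I) (j : Fin J) : Gt I J p
  | g3 (i : Fin I) (j : Fin J) : Gt I J p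
  | ma (i : Fin I) : Gt I J p
  | mb (i : Fin I) : Gt I J p
  | k (i : Fin I) : Gt I J p
  | z : Gt I J p
  | fin (i : {i : Fin I // p i = true}) : Gt I J p
deriving Fintype

variable {R : Type}

/-- the marked rows -/
def mk' {J : ℕ} (L : List (Row R J)) (i : Fin L.length) : Bool := (L.get i).e.isSome

open Classical in
/-- The gates of the circuit. -/
noncomputable def gate [CommRing R] {J : ℕ} (L : List (Row R J)) :
    Gt L.length J (mk' L) → Gate R (Vr L.length J)
  | .m i j => if j ∈ (L.get i).m then .mul (.h0 i j.castSucc) (.v i.castSucc j) (.h i j)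
      else .eq (.h0 i j.castSucc) (.h i j)
  | .q i j => .eq (.v i.castSucc j) (.w i j)
  | .g1 i j => .add (.h i j) (.w i j) (.s i j)
  | .g2 i j => .add (.h0 i j.succ) (.w i j) (.s i j)
  | .g3 i j => .add (.h i j) (.v i.succ j) (.s i j)
  | .ma i => .add (.a i.castSucc) (.h0 i (Fin.last J)) (.b i)
  | .mb i => .eq (.b i) (.a i.succ)
  | .k i => .const (L.get i).c (.h0 i 0)
  | .z => .const 0 (.a 0)
  | .fin i => .const ((L.get i.1).e.get i.2) (.a i.1.succ)

/-- the place with the coordinates `(i, j, x, y)` -/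
def pl (i j x y : ℤ) : ℤ × ℤ := (3 * i + 4 * j + x, -i + 2 * j + y)

/-- the places of the variables -/
def vp {I J : ℕ} : Vr I J → ℤ × ℤ
  | .h0 i j => pl i j (-1) 0
  | .v i j => pl i j 0 1
  | .h i j => pl i j 1 0
  | .w i j => pl i j 1 2
  | .s i j => pl i j 2 1
  | .a i => pl i J 0 1
  | .b i => pl i J 1 0

/-- the places of the gates -/
def gp {I J : ℕ} {p : Fin I → Bool} : Gt I J p → ℤ × ℤ
  | .m i j => pl i j 0 0
  | .q i j => pl i j 0 2
  | .g1 i j => pl i j 1 1
  | .g2 i j => pl i j 2 2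
  | .g3 i j => pl i j 2 0
  | .ma i => pl i J 0 0
  | .mb i => pl i J 2 0
  | .k i => pl i (-1) 2 2
  | .z => pl (-1) J 2 0
  | .fin i => pl ((i.1 : ℕ) + 1 : ℤ) J 0 2

/-- the directions of the gates around a variable -/
def dirs {I J : ℕ} : Vr I J → Finset (ℤ × ℤ)
  | .h0 _ _ => {(1, 0), (-1, 0)}
  | .v _ _ => {(0, -1), (0, 1), (-1, 0)}
  | .h _ _ => {(-1, 0), (1, 0), (0, 1)}
  | .w _ _ => {(-1, 0), (0, -1), (1, 0)}
  | .s _ _ => {(-1, 0), (0, 1), (0, -1)}
  | .a _ => {(0, -1), (0, 1), (-1, 0)}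
  | .b _ => {(-1, 0), (1, 0)}

lemma card_dirs {I J : ℕ} (v : Vr I J) : (dirs v).card ≤ 3 := by
  cases v <;> simp [dirs]

lemma vp_inj {I J : ℕ} : Function.Injective (vp : Vr I J → ℤ × ℤ) := by
  intro x y h
  cases x <;> cases y <;>
    simp only [vp, pl, Prod.mk.injEq, Vr.h0.injEq, Vr.v.injEq, Vr.h.injEq, Vr.w.injEq, Vr.s.injEq,
      Vr.a.injEq, Vr.b.injEq, Fin.ext_iff, reduceCtorEq] at h ⊢ <;> omega

lemma gp_inj {I J : ℕ} {p : Fin I → Bool} : Function.Injective (gp : Gt I J p → ℤ × ℤ) := by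
  intro x y h
  cases x <;> cases y <;>
    simp only [gp, pl, Prod.mk.injEq, Gt.m.injEq, Gt.q.injEq, Gt.g1.injEq, Gt.g2.injEq,
      Gt.g3.injEq, Gt.ma.injEq, Gt.mb.injEq, Gt.k.injEq, Gt.fin.injEq, Fin.ext_iff,
      Subtype.ext_iff, reduceCtorEq] at h ⊢ <;> omega

lemma vp_ne_gp {I J : ℕ} {p : Fin I → Bool} (x : Vr I J) (y : Gt I J p) : vp x ≠ gp y := by
  intro h
  cases x <;> cases y <;> simp only [vp, gp, pl, Prod.mk.injEq] at h <;> omega

lemma dir_mem [CommRing R] {J : ℕ} (L : List (Row R J)) (g : Gt L.length J (mk' L))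
    (v : Vr L.length J) (h : v ∈ (gate L g).args) : gp g - vp v ∈ dirs v := by
  classical
  cases g
  case m i j =>
    by_cases hj : j ∈ (L.get i).m
    · simp only [gate, hj, if_true, Gate.args, List.mem_cons, List.not_mem_nil, or_false] at h
      rcases h with rfl | rfl | rfl <;> simp [gp, vp, dirs, pl]
    · simp only [gate, hj, if_false, Gate.args, List.mem_cons, List.not_mem_nil, or_false] at h
      rcases h with rfl | rfl <;> simp [gp, vp, dirs, pl]
  all_goals
    simp only [gate, Gate.args, List.mem_cons, List.not_mem_nil, or_false] at h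
  case q i j => rcases h with rfl | rfl <;> simp [gp, vp, dirs, pl]
  case g1 i j => rcases h with rfl | rfl | rfl <;> simp [gp, vp, dirs, pl]
  case g2 i j => rcases h with rfl | rfl | rfl <;> simp [gp, vp, dirs, pl] <;> omega
  case g3 i j => rcases h with rfl | rfl | rfl <;> simp [gp, vp, dirs, pl] <;> omega
  case ma i => rcases h with rfl | rfl | rfl <;> simp [gp, vp, dirs, pl]
  case mb i => rcases h with rfl | rfl <;> simp [gp, vp, dirs, pl] <;> omega
  case k i => subst h; simp [gp, vp, dirs, pl]; omega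
  case z => subst h; simp [gp, vp, dirs, pl]; omega
  case fin i => subst h; simp [gp, vp, dirs, pl]

lemma nbr_of_dir {I J : ℕ} {v : Vr I J} {p : ℤ × ℤ} (h : p - vp v ∈ dirs v) : Nbr (vp v) p := by
  have h1 : p - vp v ∈ ({(1, 0), (-1, 0), (0, 1), (0, -1)} : Finset (ℤ × ℤ)) := by
    revert h
    generalize p - vp v = d
    cases v <;> simp only [dirs, Finset.mem_insert, Finset.mem_singleton] <;> tauto
  simp only [Finset.mem_insert, Finset.mem_singleton, Prod.ext_iff, Prod.fst_sub, Prod.snd_sub] at h1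
  unfold Nbr
  omega

/-- The constants of the rows are in `S`. -/
def RowIn {J : ℕ} (S : Set R) (ρ : Row R J) : Prop := ρ.c ∈ S ∧ ∀ x ∈ ρ.e, x ∈ S

lemma onLattice_gate [CommRing R] {J : ℕ} {S : Set R} (h0 : 0 ∈ S) (L : List (Row R J))
    (hL : ∀ ρ ∈ L, RowIn S ρ) : OnLattice S (gate L) := by
  classical
  refine ⟨?_, ?_, ?_, ?_⟩
  · intro g
    cases g
    case m i j =>
      change Gate.ConstIn S (if j ∈ (L.get i).m then _ else _)
      split_ifs <;> trivial
    case k i => exact (hL _ (L.get_mem i)).1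
    case z => exact h0
    case fin i => exact (hL _ (L.get_mem i.1)).2 _ (by simp)
    all_goals trivial
  · intro g
    cases g
    case m i j =>
      change (Gate.args (if j ∈ (L.get i).m then _ else _)).Nodup
      split_ifs <;> simp [Gate.args]
    all_goals simp [gate, Gate.args]
  · intro v
    refine le_trans ?_ (card_dirs v)
    rw [← Set.ncard_coe_finset]
    refine Set.ncard_le_ncard_of_injOn (fun g => gp g - vp v) (fun g hg => ?_) ?_
      (Finset.finite_toSet _)
    · exact dir_mem L g v hg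
    · intro g _ g' _ h
      exact gp_inj (sub_left_injective h)
  · refine ⟨Sum.elim vp gp, ?_, ?_⟩
    · exact vp_inj.sumElim gp_inj vp_ne_gp
    · intro g v hv
      exact nbr_of_dir (dir_mem L g v hv)

end Pool.Agent.H43.PC
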