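import Pool.Agent.H43.PC.FunL
import Pool.Graph.R_pool_sql_team_seeded_3997aac3.Q42.CU.Loc
import Pool.Graph.R_pool_sql_team_seeded_3997aac3.Q42.CU.Mot

/-!
# Every polynomial is stably equivalent to a lattice polynomial
-/

set_option autoImplicit false

open MvPolynomial

namespace Pool.Agent.H43.PC

open Pool.Agent.Q42.CU Pool.Agent.Q223.MM Pool.Agent.Q223.TW

section rows

variable {R : Type} [CommRing R] {n κ : ℕ}

/-- the three rows of a node -/
noncomputable def nodeRows (o : Fin κ → Option (Fin κ)) (v : Fin κ → Fin n) (c : Fin κ → R)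
    (m : Fin κ) : List (Row R (n + (κ + κ))) :=
  [⟨c m, {Fin.natAdd n (Fin.natAdd κ m)}, none⟩,
    ⟨1, {Fin.natAdd n (Fin.castAdd κ m), Fin.natAdd n (Fin.natAdd κ m)}, none⟩,
    ⟨-1, (o m).elim {Fin.natAdd n (Fin.castAdd κ m), Fin.castAdd (κ + κ) (v m)}
      fun m' => {Fin.natAdd n (Fin.castAdd κ m), Fin.natAdd n (Fin.natAdd κ m'),
        Fin.castAdd (κ + κ) (v m)}, none⟩]

lemma rowsP_flatMap {J : ℕ} {α : Type} (l : List α) (g : α → List (Row R J)) :
    rowsP (l.flatMap g) = (l.map fun a => rowsP (g a)).sum := by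
  induction l with
  | nil => simp [rowsP]
  | cons a l ih =>
    rw [List.flatMap_cons, List.map_cons, List.sum_cons, ← ih, rowsP, List.map_append,
      List.sum_append]
    rfl

lemma ne_yz (m m' : Fin κ) : Fin.natAdd n (Fin.castAdd κ m) ≠ Fin.natAdd n (Fin.natAdd κ m') := by
  intro h
  have h1 := congrArg Fin.val h
  simp only [Fin.val_natAdd, Fin.val_castAdd] at h1
  have := m.2
  omega

lemma ne_yx (m : Fin κ) (i : Fin n) : Fin.natAdd n (Fin.castAdd κ m) ≠ Fin.castAdd (κ + κ) i := by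
  intro h
  have h1 := congrArg Fin.val h
  simp only [Fin.val_natAdd, Fin.val_castAdd] at h1
  have := i.2
  omega

lemma ne_zx (m : Fin κ) (i : Fin n) : Fin.natAdd n (Fin.natAdd κ m) ≠ Fin.castAdd (κ + κ) i := by
  intro h
  have h1 := congrArg Fin.val h
  simp only [Fin.val_natAdd, Fin.val_castAdd] at h1
  have := i.2
  omega

lemma rowsP_node (o : Fin κ → Option (Fin κ)) (v : Fin κ → Fin n) (c : Fin κ → R)
    (m : Fin κ) : rowsP (nodeRows o v c m) =
      C (c m) * zv R n m + yv R n m * zv R n m - yv R n m * wv R o v m := by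
  have e1 : rowP (⟨c m, {Fin.natAdd n (Fin.natAdd κ m)}, none⟩ : Row R (n + (κ + κ))) =
      C (c m) * zv R n m := by
    rw [rowP, Finset.prod_singleton]
    rfl
  have e2 : rowP (⟨1, {Fin.natAdd n (Fin.castAdd κ m), Fin.natAdd n (Fin.natAdd κ m)}, none⟩ :
      Row R (n + (κ + κ))) = yv R n m * zv R n m := by
    rw [rowP, Finset.prod_pair (ne_yz m m), C_1, one_mul]
    rfl
  have e3 : rowP (⟨-1, (o m).elim {Fin.natAdd n (Fin.castAdd κ m), Fin.castAdd (κ + κ) (v m)}
      fun m' => {Fin.natAdd n (Fin.castAdd κ m), Fin.natAdd n (Fin.natAdd κ m'),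
        Fin.castAdd (κ + κ) (v m)}, none⟩ : Row R (n + (κ + κ))) =
      -(yv R n m * wv R o v m) := by
    rw [rowP]
    unfold wv
    rcases o m with _ | m'
    · simp only [Option.elim_none]
      rw [Finset.prod_pair (ne_yx m (v m)), C_neg, C_1]
      change -1 * (yv R n m * xv R κ (v m)) = _
      ring
    · simp only [Option.elim_some]
      rw [Finset.prod_insert, Finset.prod_pair (ne_zx m' (v m)), C_neg, C_1]
      · change -1 * (yv R n m * (zv R n m' * xv R κ (v m))) = _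
        ring
      · rw [Finset.mem_insert, Finset.mem_singleton, not_or]
        exact ⟨ne_yz m m', ne_yx m (v m)⟩
  change (List.map rowP [_, _, _]).sum = _
  rw [List.map_cons, List.map_cons, List.map_cons, List.map_nil, List.sum_cons, List.sum_cons,
    List.sum_cons, List.sum_nil, e1, e2, e3]
  ring

/-- polynomials without constant term -/
theorem lat_zero [IsNoetherianRing R] {S : Set R} (hS : (1 : R) ∈ S)
    (f : MvPolynomial (Fin n) R) (h0 : coeff 0 f = 0)
    (hf : f ∈ Cf (Fin n) (AddSubgroup.closure S)) :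
    ∃ κ₀ : ℕ, ∀ κ, κ₀ ≤ κ → ∃ (r a : ℕ) (γ : Fin r → Gate R (Fin a)) (out : Fin a),
      OnLattice (coeffs S) γ ∧ StEq f κ (latP γ out) := by
  obtain ⟨κ₁, o, v, c, hc, h2⟩ := StEq.prog f h0 hf
  let L : List (Row R (n + (κ₁ + κ₁))) := (List.finRange κ₁).flatMap (nodeRows o v c)
  have hL : rowsP L = ∑ m, (C (c m) * zv R n m + yv R n m * zv R n m -
      yv R n m * wv R o v m) := by
    rw [rowsP_flatMap, Fin.sum_univ_def]
    congr 1
    apply List.map_congr_left
    intro m _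
    exact rowsP_node o v c m
  have hmem : ∀ ρ ∈ L, ρ.c ∈ coeffs S ∧ ρ.e = none := by
    intro ρ hρ
    obtain ⟨m, -, h⟩ := List.mem_flatMap.mp hρ
    simp only [nodeRows, List.mem_cons, List.not_mem_nil, or_false] at h
    rcases h with rfl | rfl | rfl
    · exact ⟨hc m, rfl⟩
    · exact ⟨Or.inr (Or.inl hS), rfl⟩
    · exact ⟨Or.inr (Or.inr (by simpa using hS)), rfl⟩
  obtain ⟨κ₂, h3⟩ := steq_rows (S := coeffs S) (Or.inl rfl) L (fun ρ hρ => (hmem ρ hρ).1)
    (fun ρ hρ => (hmem ρ hρ).2)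
  refine ⟨κ₁ + κ₂, fun κ hκ => ?_⟩
  obtain ⟨κ', rfl⟩ := Nat.exists_eq_add_of_le ((Nat.le_add_right _ _).trans hκ)
  obtain ⟨a, γ, out, h4, h5⟩ := h3 κ' (by omega)
  rw [hL] at h5
  exact ⟨κ', a, γ, out, h4, h2.comp h5⟩

end rows

section rat

variable {F : Type} [Field F] [CharZero F]

/-- **The normal form over a field.** -/
theorem lat_span {S : Set F} (hS : (1 : F) ∈ S) {n : ℕ}
    (f : MvPolynomial (Fin n) F) (hf : f ∈ Cf (Fin n) (ratSpan S)) :
    ∃ κ₀ : ℕ, ∀ κ, κ₀ ≤ κ → ∃ (r a : ℕ) (γ : Fin r → Gate F (Fin a)) (out : Fin a),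
      OnLattice (coeffs S) γ ∧ StEq f κ (latP γ out) := by
  classical
  have hg := noC_Cf (A := ratSpan S) (mem_ratSpan.2 (Submodule.subset_span hS)) hf
  have hg0 := noC_zero f
  have h1 := StEq.noC f
  generalize noC f = g at hg hg0 h1
  obtain ⟨D, hD0, hD⟩ := exists_dens g hg
  have hDF : (D : F) ≠ 0 := by exact_mod_cast hD0
  set u : Fˣ := Units.mk0 (D : F) hDF
  have h2 := StEq.aut g (scl u)
  have h3 : scl u g ∈ Cf _ (AddSubgroup.closure S) := by
    intro d
    rw [scl_coeff]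
    by_cases hd : d = 0
    · rw [hd, hg0, zero_mul]
      exact AddSubgroup.zero_mem _
    · obtain ⟨l, hl⟩ := Nat.exists_eq_succ_of_ne_zero (mt (Finsupp.degree_eq_zero_iff d).1 hd)
      have h4 : coeff d g * (u : F) ^ d.degree = (D ^ l) • ((D : F) * coeff d g) := by
        rw [hl, pow_succ', nsmul_eq_mul]
        change coeff d g * ((D : F) * (D : F) ^ l) = _
        push_cast
        ring
      rw [h4]
      exact AddSubgroup.nsmul_mem _ (hD d) _
  have h4 : coeff 0 (scl u g) = 0 := by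
    rw [scl_coeff, hg0, zero_mul]
  obtain ⟨κ₀, h⟩ := lat_zero hS _ h4 h3
  refine ⟨1 + 0 + κ₀, fun κ hκ => ?_⟩
  obtain ⟨κ', rfl⟩ := Nat.exists_eq_add_of_le ((Nat.le_add_right _ _).trans hκ)
  obtain ⟨r, a, γ, out, h5, h6⟩ := h κ' (by omega)
  exact ⟨r, a, γ, out, h5, (h1.comp h2).comp h6⟩

lemma coeffs_span {S : Set F} {t : F} (h : t ∈ coeffs S) : t ∈ ratSpan S := by
  rcases h with rfl | h | h
  · exact AddSubgroup.zero_mem _
  · exact Submodule.subset_span h
  · have h1 : -t ∈ ratSpan S := Submodule.subset_span h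
    exact (AddSubgroup.neg_mem_iff _).mp h1

/-- the coefficients of a lattice polynomial -/
theorem latP_span {S : Set F} (hS : (1 : F) ∈ S) {n r : ℕ} {γ : Fin r → Gate F (Fin n)}
    (h : ∀ g, (γ g).ConstIn (coeffs S)) (out : Fin n) : latP γ out ∈ Cf _ (ratSpan S) := by
  have h1 : (1 : F) ∈ ratSpan S := mem_ratSpan.2 (Submodule.subset_span hS)
  have hX : ∀ v : Fin (n + r), (X v : MvPolynomial _ F) ∈ Cf _ (ratSpan S) := fun v =>
    mono_Cf _ h1
  have hXX : ∀ v w : Fin (n + r), (X v * X w : MvPolynomial _ F) ∈ Cf _ (ratSpan S) := by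
    intro v w
    rw [X, X, monomial_mul, mul_one]
    exact mono_Cf _ h1
  have hXXX : ∀ v w z : Fin (n + r), (X v * (X w * X z) : MvPolynomial _ F) ∈
      Cf _ (ratSpan S) := by
    intro v w z
    rw [X, X, X, monomial_mul, monomial_mul, mul_one, mul_one]
    exact mono_Cf _ h1
  unfold latP
  refine AddSubgroup.add_mem _ (hX _) (AddSubgroup.sum_mem _ fun g _ => ?_)
  have h2 := h g
  cases hg : γ g with
  | const c a =>
    rw [hg] at h2
    change X _ * rename _ (X a - C c) ∈ _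
    rw [map_sub, rename_X, rename_C, mul_sub]
    refine AddSubgroup.sub_mem _ (hXX _ _) ?_
    rw [mul_comm, X, C_mul_monomial, mul_one]
    exact mono_Cf _ (coeffs_span h2)
  | eq a b =>
    change X _ * rename _ (X a - X b) ∈ _
    rw [map_sub, rename_X, rename_X, mul_sub]
    exact AddSubgroup.sub_mem _ (hXX _ _) (hXX _ _)
  | add a b c =>
    change X _ * rename _ (X a + X b - X c) ∈ _
    rw [map_sub, map_add, rename_X, rename_X, rename_X, mul_sub, mul_add]
    exact AddSubgroup.sub_mem _ (AddSubgroup.add_mem _ (hXX _ _) (hXX _ _)) (hXX _ _)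
  | mul a b c =>
    change X _ * rename _ (X a * X b - X c) ∈ _
    rw [map_sub, map_mul, rename_X, rename_X, rename_X, mul_sub]
    exact AddSubgroup.sub_mem _ (hXXX _ _ _) (hXX _ _)

end rat

/-- a lattice polynomial is not constant -/
theorem latP_deg {R : Type} [CommRing R] [Nontrivial R] {n r : ℕ} (γ : Fin r → Gate R (Fin n))
    (out : Fin n) : (latP γ out).totalDegree ≠ 0 := by
  classical
  intro h0
  have h1 := totalDegree_eq_zero_iff_eq_C.1 h0
  have h2 : ∀ t : R, eval (Fin.addCases (Pi.single out t) fun _ => 0) (latP γ out) = t := by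
    intro t
    unfold latP
    rw [map_add, eval_X, Fin.addCases_left, Pi.single_eq_same, map_sum]
    rw [Finset.sum_eq_zero, add_zero]
    intro g _
    rw [map_mul, eval_X, Fin.addCases_right, zero_mul]
  have h3 := h2 1
  have h4 := h2 0
  rw [h1, eval_C] at h3 h4
  exact one_ne_zero (h3.symm.trans h4)

section field

open Pool.Agent.H628R4.TP (IsBFunction)

variable {k : Type} [Field k] [Algebra k ℂ]

/-- **Lattice polynomials with large minimal exponent.** -/
theorem exists_lats (S : Set k) (hS : (1 : k) ∈ S) (N n : ℕ)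
    (f : MvPolynomial (Fin n) k) (hf : f.totalDegree ≠ 0) [CharZero k]
    (hfS : ∀ d, coeff d f ∈ Submodule.span ℚ S) :
    ∃ κ₁ : ℕ, ∀ κ, κ₁ ≤ κ → ∃ (r a : ℕ) (γ : Fin r → Gate k (Fin a)) (out : Fin a),
      OnLattice (coeffs S) γ ∧ StEq f κ (latP γ out) ∧
      ((∃ b : Polynomial ℂ, b ≠ 0 ∧ IsBFunction (map (algebraMap k ℂ) f) b) →
        MinExp N (map (algebraMap k ℂ) (latP γ out))) := by
  obtain ⟨κ₀, h0⟩ := lat_span hS f hfS
  rcases bfun_cases (map_deg hf) with ⟨p, hp0, hp⟩ | hall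
  · obtain ⟨κ₁, h1⟩ := minExp_phiK hf N hp0 hp
    refine ⟨max κ₀ κ₁, fun κ hκ => ?_⟩
    obtain ⟨r, a, γ, out, h3, h4⟩ := h0 κ ((le_max_left _ _).trans hκ)
    exact ⟨r, a, γ, out, h3, h4, fun _ => h1 κ ((le_max_right _ _).trans hκ) _ _ h4⟩
  · refine ⟨κ₀, fun κ hκ => ?_⟩
    obtain ⟨r, a, γ, out, h3, h4⟩ := h0 κ hκ
    exact ⟨r, a, γ, out, h3, h4, fun ⟨b, hb, hb'⟩ => absurd (hall b hb') hb⟩

end field

end Pool.Agent.H43.PC
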