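import Pool.Agent.H43.PC.Lay

/-!
# The scheme of the solutions of the lattice circuit
-/

set_option autoImplicit false

open MvPolynomial

namespace Pool.Agent.H43.PC

section quot

variable {R : Type} [CommRing R] {U W : Type} (I : Ideal (MvPolynomial U R))
  (I' : Ideal (MvPolynomial W R)) (α : U → MvPolynomial W R) (β : W → MvPolynomial U R)

/-- An isomorphism of two quotients of polynomial rings. -/
noncomputable def quotIso (h1 : I ≤ I'.comap (aeval α : MvPolynomial U R →ₐ[R] _))
    (h2 : I' ≤ I.comap (aeval β : MvPolynomial W R →ₐ[R] _))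
    (h3 : ∀ u, aeval β (α u) - X u ∈ I) (h4 : ∀ w, aeval α (β w) - X w ∈ I') :
    (MvPolynomial U R ⧸ I) ≃ₐ[R] (MvPolynomial W R ⧸ I') :=
  AlgEquiv.ofAlgHom
    (Ideal.Quotient.liftₐ I ((Ideal.Quotient.mkₐ R I').comp (aeval α)) fun a ha =>
      Ideal.Quotient.eq_zero_iff_mem.mpr (h1 ha))
    (Ideal.Quotient.liftₐ I' ((Ideal.Quotient.mkₐ R I).comp (aeval β)) fun a ha =>
      Ideal.Quotient.eq_zero_iff_mem.mpr (h2 ha))
    (by
      apply Ideal.Quotient.algHom_ext
      apply MvPolynomial.algHom_ext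
      intro w
      change Ideal.Quotient.mk I' (aeval α (aeval β (X w))) = Ideal.Quotient.mk I' (X w)
      rw [aeval_X]
      exact Ideal.Quotient.eq.mpr (h4 w))
    (by
      apply Ideal.Quotient.algHom_ext
      apply MvPolynomial.algHom_ext
      intro w
      change Ideal.Quotient.mk I (aeval β (aeval α (X w))) = Ideal.Quotient.mk I (X w)
      rw [aeval_X]
      exact Ideal.Quotient.eq.mpr (h3 w))

end quot

variable {R : Type} [CommRing R] {J : ℕ}

/-- the beginning of the monomial of a row -/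
noncomputable def pr (ρ : Row R J) (j : ℕ) : MvPolynomial (Fin J) R :=
  C ρ.c * ∏ j' ∈ ρ.m.filter (fun j' => j'.val < j), X j'

/-- the monomial of a row -/
noncomputable def rowP (ρ : Row R J) : MvPolynomial (Fin J) R := C ρ.c * ∏ j ∈ ρ.m, X j

lemma pr_zero (ρ : Row R J) : pr ρ 0 = C ρ.c := by
  simp [pr]

lemma pr_last (ρ : Row R J) : pr ρ J = rowP ρ := by
  rw [pr, rowP, Finset.filter_true_of_mem fun j _ => j.2]

lemma pr_succ_mem (ρ : Row R J) (j : Fin J) (h : j ∈ ρ.m) : pr ρ (j + 1) = pr ρ j * X j := by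
  have h1 : ρ.m.filter (fun j' => j'.val < j.val + 1) =
      insert j (ρ.m.filter (fun j' => j'.val < j.val)) := by
    ext k
    simp only [Finset.mem_filter, Finset.mem_insert, Fin.ext_iff]
    constructor
    · rintro ⟨h1, h2⟩
      rcases Nat.lt_succ_iff_lt_or_eq.mp h2 with h3 | h3
      · exact Or.inr ⟨h1, h3⟩
      · exact Or.inl h3
    · rintro (h1 | ⟨h1, h2⟩)
      · have : k = j := Fin.ext h1
        subst this
        exact ⟨h, by omega⟩
      · exact ⟨h1, by omega⟩
  rw [pr, pr, h1, Finset.prod_insert (by simp)]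
  ring

lemma pr_succ_not_mem (ρ : Row R J) (j : Fin J) (h : j ∉ ρ.m) : pr ρ (j + 1) = pr ρ j := by
  have h1 : ρ.m.filter (fun j' => j'.val < j.val + 1) =
      ρ.m.filter (fun j' => j'.val < j.val) := by
    ext k
    simp only [Finset.mem_filter]
    constructor
    · rintro ⟨h1, h2⟩
      refine ⟨h1, ?_⟩
      rcases Nat.lt_succ_iff_lt_or_eq.mp h2 with h3 | h3
      · exact h3
      · exact absurd (Fin.ext h3 ▸ h1) h
    · rintro ⟨h1, h2⟩
      exact ⟨h1, by omega⟩
  rw [pr, pr, h1]

/-- the sum of the first rows -/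
noncomputable def sm (L : List (Row R J)) (i : ℕ) : MvPolynomial (Fin J) R :=
  ((L.take i).map rowP).sum

lemma sm_zero (L : List (Row R J)) : sm L 0 = 0 := by simp [sm]

lemma sm_succ (L : List (Row R J)) (i : Fin L.length) : sm L (i + 1) = sm L i + rowP (L.get i) := by
  rw [sm, sm, List.take_succ_eq_append_getElem i.2, List.map_append, List.sum_append]
  simp

/-- the values of the variables of the circuit -/
noncomputable def val (L : List (Row R J)) : Vr L.length J → MvPolynomial (Fin J) R
  | .h0 i j => pr (L.get i) j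
  | .v _ j => X j
  | .h i j => pr (L.get i) (j + 1)
  | .w _ j => X j
  | .s i j => pr (L.get i) (j + 1) + X j
  | .a i => sm L i
  | .b i => sm L (i + 1)

/-- the relations at the marked rows -/
def relL (L : List (Row R J)) : Set (MvPolynomial (Fin J) R) :=
  {p | ∃ (i : Fin L.length) (x : R), (L.get i).e = some x ∧ p = sm L (i + 1) - C x}

lemma ev_val (L : List (Row R J)) (g : Gt L.length J (mk' L)) :
    aeval (val L) (gate L g).poly ∈ Ideal.span (relL L) := by
  classical
  rw [Gate.aeval_poly]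
  cases g
  case m i j =>
    change Gate.ev (val L) (if j ∈ (L.get i).m then _ else _) ∈ _
    split_ifs with h
    · change pr (L.get i) j * X j - pr (L.get i) (j + 1) ∈ _
      rw [pr_succ_mem _ _ h, sub_self]
      exact Ideal.zero_mem _
    · change pr (L.get i) j - pr (L.get i) (j + 1) ∈ _
      rw [pr_succ_not_mem _ _ h, sub_self]
      exact Ideal.zero_mem _
  case q i j =>
    change X j - X j ∈ _
    rw [sub_self]
    exact Ideal.zero_mem _
  case g1 i j =>
    change pr (L.get i) (j + 1) + X j - (pr (L.get i) (j + 1) + X j) ∈ _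
    rw [sub_self]
    exact Ideal.zero_mem _
  case g2 i j =>
    change pr (L.get i) (j + 1) + X j - (pr (L.get i) (j + 1) + X j) ∈ _
    rw [sub_self]
    exact Ideal.zero_mem _
  case g3 i j =>
    change pr (L.get i) (j + 1) + X j - (pr (L.get i) (j + 1) + X j) ∈ _
    rw [sub_self]
    exact Ideal.zero_mem _
  case ma i =>
    change sm L i + pr (L.get i) J - sm L (i + 1) ∈ _
    rw [pr_last, sm_succ, sub_self]
    exact Ideal.zero_mem _
  case mb i =>
    change sm L (i + 1) - sm L (i + 1) ∈ _
    rw [sub_self]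
    exact Ideal.zero_mem _
  case k i =>
    change pr (L.get i) 0 - C (L.get i).c ∈ _
    rw [pr_zero, sub_self]
    exact Ideal.zero_mem _
  case z =>
    change sm L 0 - C 0 ∈ _
    rw [sm_zero, map_zero, sub_self]
    exact Ideal.zero_mem _
  case fin i =>
    refine Ideal.subset_span ⟨i.1, (L.get i.1).e.get i.2, ?_, rfl⟩
    exact (Option.some_get i.2).symm

/-- a solution of the gates is determined by the values of the inputs -/
lemma unique {B : Type} [CommRing B] [Algebra R B] (L : List (Row R J)) (ξ : Vr L.length J → B)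
    (h : ∀ g, aeval ξ (gate L g).poly = 0) (u : Vr L.length J) :
    ξ u = aeval (fun j => ξ (.v 0 j)) (val L u) := by
  classical
  have hg : ∀ g, (gate L g).ev ξ = 0 := fun g => by rw [← Gate.aeval_poly, h g]
  set x : Fin J → B := fun j => ξ (.v 0 j) with hx
  have hq : ∀ (i : Fin L.length) (j : Fin J), ξ (.w i j) = ξ (.v i.castSucc j) := fun i j =>
    (sub_eq_zero.mp (hg (.q i j))).symm
  have h1 : ∀ (i : Fin L.length) (j : Fin J), ξ (.s i j) = ξ (.h i j) + ξ (.w i j) := fun i j =>
    (sub_eq_zero.mp (hg (.g1 i j))).symm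
  have h2 : ∀ (i : Fin L.length) (j : Fin J), ξ (.h0 i j.succ) = ξ (.h i j) := fun i j => by
    have h3 : ξ (.h0 i j.succ) + ξ (.w i j) - ξ (.s i j) = 0 := hg (.g2 i j)
    have h4 := h1 i j
    linear_combination h3 + h4
  have h3 : ∀ (i : Fin L.length) (j : Fin J), ξ (.v i.succ j) = ξ (.v i.castSucc j) := fun i j => by
    have h4 : ξ (.h i j) + ξ (.v i.succ j) - ξ (.s i j) = 0 := hg (.g3 i j)
    have h5 := h1 i j
    have h6 := hq i j
    linear_combination h4 + h5 + h6
  have hv : ∀ (i : ℕ) (hi : i < L.length + 1) (j : Fin J), ξ (.v ⟨i, hi⟩ j) = x j := by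
    intro i
    induction i with
    | zero => intro _ j; rfl
    | succ i ih =>
      intro hi j
      exact (h3 ⟨i, by omega⟩ j).trans (ih (by omega) j)
  have hh : ∀ (i : Fin L.length) (j : ℕ) (hj : j < J + 1),
      ξ (.h0 i ⟨j, hj⟩) = aeval x (pr (L.get i) j) := by
    intro i j
    induction j with
    | zero =>
      intro _
      rw [pr_zero, aeval_C]
      exact sub_eq_zero.mp (hg (.k i))
    | succ j ih =>
      intro hj
      have h5 : ξ (.h0 i ⟨j + 1, hj⟩) = ξ (.h i ⟨j, by omega⟩) := h2 i ⟨j, by omega⟩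
      have h6 : Gate.ev ξ (if (⟨j, by omega⟩ : Fin J) ∈ (L.get i).m then
          .mul (.h0 i ⟨j, by omega⟩) (.v i.castSucc ⟨j, by omega⟩) (.h i ⟨j, by omega⟩)
          else .eq (.h0 i ⟨j, by omega⟩) (.h i ⟨j, by omega⟩)) = 0 := hg (.m i ⟨j, by omega⟩)
      split_ifs at h6 with h7
      · have h8 := pr_succ_mem (L.get i) ⟨j, by omega⟩ h7
        have h9 : ξ (.h0 i ⟨j, by omega⟩) * ξ (.v i.castSucc ⟨j, by omega⟩) -
          ξ (.h i ⟨j, by omega⟩) = 0 := h6
        have h10 : ξ (.v i.castSucc ⟨j, by omega⟩) = x ⟨j, by omega⟩ := hv _ _ _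
        change ξ _ = aeval x (pr (L.get i) ((⟨j, by omega⟩ : Fin J) + 1))
        rw [h5, h8, map_mul, aeval_X, ← h10, ← ih (by omega)]
        exact (sub_eq_zero.mp h9).symm
      · have h8 := pr_succ_not_mem (L.get i) ⟨j, by omega⟩ h7
        change ξ _ = aeval x (pr (L.get i) ((⟨j, by omega⟩ : Fin J) + 1))
        rw [h5, h8, ← ih (by omega)]
        exact (sub_eq_zero.mp h6).symm
  have hh' : ∀ (i : Fin L.length) (j : Fin J), ξ (.h i j) = aeval x (pr (L.get i) (j + 1)) := by
    intro i j
    rw [← h2 i j]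
    exact hh i (j + 1) _
  have hw : ∀ (i : Fin L.length) (j : Fin J), ξ (.w i j) = x j := by
    intro i j
    rw [hq]
    exact hv _ _ _
  have hb : ∀ i : Fin L.length, ξ (.b i) = ξ (.a i.castSucc) + ξ (.h0 i (Fin.last J)) := fun i =>
    (sub_eq_zero.mp (hg (.ma i))).symm
  have ha : ∀ (i : ℕ) (hi : i < L.length + 1), ξ (.a ⟨i, hi⟩) = aeval x (sm L i) := by
    intro i
    induction i with
    | zero =>
      intro _
      rw [sm_zero, map_zero]
      have h4 : ξ (.a 0) - algebraMap R B 0 = 0 := hg .z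
      rw [map_zero, sub_zero] at h4
      exact h4
    | succ i ih =>
      intro hi
      have h4 : ξ (.b ⟨i, by omega⟩) = ξ (.a ⟨i + 1, hi⟩) := sub_eq_zero.mp (hg (.mb ⟨i, by omega⟩))
      have h5 := sm_succ L ⟨i, by omega⟩
      change ξ _ = aeval x (sm L ((⟨i, by omega⟩ : Fin L.length) + 1))
      rw [← h4, hb, h5, map_add, ← pr_last, ← hh _ J (by omega), ← ih (by omega)]
      rfl
  cases u
  case h0 i j => exact hh i j j.2
  case v i j =>
    change ξ _ = aeval x (X j)
    rw [aeval_X]
    exact hv i i.2 j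
  case h i j => exact hh' i j
  case w i j =>
    change ξ _ = aeval x (X j)
    rw [aeval_X]
    exact hw i j
  case s i j =>
    change ξ _ = aeval x (pr (L.get i) (j + 1) + X j)
    rw [map_add, aeval_X, h1, hh', hw]
  case a i => exact ha i i.2
  case b i =>
    change ξ _ = aeval x (sm L (i + 1))
    rw [sm_succ, hb, map_add, ← pr_last, ← hh _ J (by omega)]
    congr 1
    exact ha i (by omega)

/-- the ideal of the gates -/
noncomputable def gI (L : List (Row R J)) : Ideal (MvPolynomial (Vr L.length J) R) :=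
  Ideal.span (Set.range fun g => (gate L g).poly)

/-- the inputs -/
noncomputable def inp (L : List (Row R J)) : MvPolynomial (Fin J) R →ₐ[R]
    MvPolynomial (Vr L.length J) R :=
  aeval fun j => X (.v 0 j)

lemma mk_X (L : List (Row R J)) (u : Vr L.length J) : Ideal.Quotient.mkₐ R (gI L) (X u) =
    Ideal.Quotient.mkₐ R (gI L) (inp L (val L u)) := by
  have hr : ∀ g, Ideal.Quotient.mkₐ R (gI L) (gate L g).poly = 0 := fun g =>
    Ideal.Quotient.eq_zero_iff_mem.mpr (Ideal.subset_span ⟨g, rfl⟩)
  have h1 : aeval (fun u => Ideal.Quotient.mkₐ R (gI L) (X u)) = Ideal.Quotient.mkₐ R (gI L) := by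
    apply MvPolynomial.algHom_ext
    intro i
    rw [aeval_X]
  have hu := unique L (fun u => Ideal.Quotient.mkₐ R (gI L) (X u)) (fun g => by rw [h1, hr g]) u
  have h2 : aeval (fun j => Ideal.Quotient.mkₐ R (gI L) (X (.v 0 j))) =
      (Ideal.Quotient.mkₐ R (gI L)).comp (inp L) := by
    apply MvPolynomial.algHom_ext
    intro i
    rw [aeval_X, AlgHom.comp_apply, inp, aeval_X]
  rw [hu, h2]
  rfl

/-- The scheme of the solutions of the circuit is the scheme of the relations at the marked rows. -/
noncomputable def netIso (L : List (Row R J)) :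
    Net (gate L) ≃ₐ[R] (MvPolynomial (Fin J) R ⧸ Ideal.span (relL L)) :=
  quotIso (gI L) _ (val L) (fun j => X (.v 0 j))
    (by
      rw [gI, Ideal.span_le]
      rintro _ ⟨g, rfl⟩
      exact ev_val L g)
    (by
      rw [Ideal.span_le]
      rintro _ ⟨i, x, hx, rfl⟩
      change inp L (sm L (i + 1) - C x) ∈ gI L
      have hi : (mk' L i) = true := by rw [mk', hx]; rfl
      have h1 : (gate L (.fin ⟨i, hi⟩)).poly = X (.a i.succ) - C x := by
        have h2 : (L.get i).e.get hi = x := Option.get_of_eq_some hi hx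
        change X _ - C ((L.get i).e.get _) = _
        rw [h2]
      have h3 : Ideal.Quotient.mkₐ R (gI L) (X (.a i.succ) - C x) = 0 := by
        rw [← h1]
        exact Ideal.Quotient.eq_zero_iff_mem.mpr (Ideal.subset_span ⟨_, rfl⟩)
      have h4 := mk_X L (.a i.succ)
      rw [map_sub, h4] at h3
      rw [← Ideal.Quotient.eq_zero_iff_mem]
      change Ideal.Quotient.mkₐ R (gI L) (inp L (sm L (i + 1) - C x)) = 0
      rw [map_sub, map_sub, ← h3]
      congr 2
      rw [inp, aeval_C, algebraMap_eq])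
    (by
      intro u
      rw [← Ideal.Quotient.eq]
      exact (mk_X L u).symm)
    (by
      intro w
      rw [aeval_X]
      change X w - X w ∈ _
      rw [sub_self]
      exact Ideal.zero_mem _)

end Pool.Agent.H43.PC
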