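import Pool.Agent.H43.PC.Coh
import Pool.Agent.H43.PC.CI
import Pool.Agent.H43.PC.Smo
import Pool.Agent.H71.AR.Occ

set_option autoImplicit false

/-!
# Galois representations of Hilbert newforms and lattice cubic hypersurfaces
-/

open CategoryTheory CategoryTheory.Limits AlgebraicGeometry

namespace Pool.Agent.H43.PC

open Pool.Agent.Y116.UV Pool.Agent.Y101.Th Pool.Agent.Y691.TU Pool.Agent.Z125.UN
  Pool.Agent.H71.AR

universe v u v' u'

section

variable {k : Type} [Field k] {C : Type u} [Category.{v} C] [Abelian C] {D : Graded k C}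
  {Q : ℤ → C → Prop}

/-- Schemes of small dimension are sufficient for the pure part in a small degree. -/
lemma pure_fix (hD : IsCoh D) (hQ : Stable D Q) (N : ℕ) (i : ℤ) (hi : i ≤ N)
    (h : ∀ X : Sch k, SmProj X → topologicalKrullDim X.left ≤ N → Q i (D.H X i i)) :
    ∀ (e : ℕ) (X : Sch k), SmProj X → topologicalKrullDim X.left ≤ e → Q i (D.H X i i) := by
  intro e
  induction e with
  | zero =>
    intro X hX hd
    exact h X hX (hd.trans (by exact_mod_cast Nat.zero_le N))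
  | succ e ih =>
    intro X hX hd
    by_cases he : e + 1 ≤ N
    · exact h X hX (hd.trans (by exact_mod_cast he))
    · obtain ⟨Y, hY, hd', s, r, hs⟩ := hD.weak X (e + 1) hX (by exact_mod_cast hd) i
        (by push_cast; omega)
      exact hQ.summand i _ _ s r hs (ih Y hY ((lt_succ_iff _ _).mp hd'))

end

variable {F : Type} [Field F] {C : Type u} [Category.{v} C] [Abelian C] {𝓡 : Type u'}
  [Category.{v'} 𝓡] [Abelian 𝓡] {D : Graded ℚ C} {T : HilbertData F C 𝓡}

/-- A Tate twist `ρ_f(-j)`, `2 j + 1 = n + r - 2`, is a subquotient of the piece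
`gr^W_(n+r-2) H^(n+r-1)_c(Z)` of the cubic hypersurface `Z` of the system `γ` of `r` gates in `n`
variables, restricted to `G_F`. -/
def OccursOn (D : Graded ℚ C) (T : HilbertData F C 𝓡) (f : T.Form) {n r : ℕ}
    (γ : Fin r → Gate ℚ (Fin n)) : Prop :=
  ∃ j : ℤ, 2 * j + 1 = n + r - 2 ∧
    OccursIn (T.rho f j) (T.real.obj (D.H (aff ℚ (HypG γ)) (n + r - 2) (n + r - 1)))

lemma occursOn_iff {f : T.Form} {n r : ℕ} (γ : Fin r → Gate ℚ (Fin n)) :
    OccursOn D T f γ ↔ ¬ NotIn T f (n + r - 2) (D.H (aff ℚ (HypG γ)) (n + r - 2) (n + r - 1)) := by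
  unfold OccursOn NotIn
  push Not
  exact exists_congr fun j => and_congr_left fun _ => eq_comm

/-- **Dimension by dimension.** -/
theorem occ_lat_dim (hC : Semisimple C) (hD : IsCohB D) (hT : IsHilbert D T) (f : T.Form) (N : ℕ) :
    List.TFAE [
      ∃ (Y : Sch ℚ) (j : ℤ), SmProj Y ∧ topologicalKrullDim Y.left ≤ N ∧
        OccursIn (T.rho f j) (T.real.obj (D.H Y (2 * j + 1) (2 * j + 1))),
      ∃ (n r : ℕ) (γ : Fin r → Gate ℚ (Fin n)), OnLattice {0, 1} γ ∧ n ≤ r + N ∧ OccursOn D T f γ,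
      ∃ (n r m : ℕ) (γ : Fin r → Gate ℚ (Fin n)), LatCI γ m ∧ m ≤ N ∧ OccursOn D T f γ] := by
  have key := lat_dim isFrac_rat hC hD (notIn_stable hT f) N
  have k10 := key.out 1 0
  have k02 := key.out 0 2
  tfae_have 3 → 2 := by
    rintro ⟨n, r, m, γ, hγ, hm, h⟩
    exact ⟨n, r, γ, hγ.lattice, by have := hγ.count; omega, h⟩
  tfae_have 2 → 1 := by
    rintro ⟨n, r, γ, hγ, hn, h⟩
    by_contra hcon
    rw [occursOn_iff] at h
    refine h (k10.mpr ?_ n r γ hγ hn)
    intro X hX hd i j hj ho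
    subst hj
    exact hcon ⟨X, j, hX, hd, ho⟩
  tfae_have 1 → 3 := by
    rintro ⟨Y, j, hY, hd, ho⟩
    by_contra hcon
    refine k02.mpr ?_ Y hY hd (2 * j + 1) j rfl ho
    intro n r γ h1 h2 h3 m hm hn h4
    by_contra h5
    exact hcon ⟨n, r, m, γ, ⟨h1, hn, h2, h3, h4⟩, hm, (occursOn_iff γ).mpr h5⟩
  tfae_finish

/-- The representation `ρ_f(1 - r)` is a subquotient of the piece `gr^W_(2r-1) H^(2r)_c(Z)` of the cubic
hypersurface `Z` of the system `γ` of `r` gates in `r + 1` variables, restricted to `G_F`. -/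
def OccursOnOne (D : Graded ℚ C) (T : HilbertData F C 𝓡) (f : T.Form) {r : ℕ}
    (γ : Fin r → Gate ℚ (Fin (r + 1))) : Prop :=
  OccursIn (T.rho f (r - 1)) (T.real.obj (D.H (aff ℚ (HypG γ)) (2 * r - 1) (2 * r)))

lemma occursOnOne_iff {f : T.Form} {r : ℕ} (γ : Fin r → Gate ℚ (Fin (r + 1))) :
    OccursOnOne D T f γ ↔ OccursOn D T f γ := by
  have e1 : ((r + 1 : ℕ) : ℤ) + r - 2 = 2 * r - 1 := by push_cast; ring
  have e2 : ((r + 1 : ℕ) : ℤ) + r - 1 = 2 * r := by push_cast; ring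
  unfold OccursOnOne OccursOn
  rw [e1, e2]
  constructor
  · intro h
    exact ⟨r - 1, by ring, h⟩
  · rintro ⟨j, hj, h⟩
    obtain rfl : j = r - 1 := by omega
    exact h

/-- **Dimension one.** -/
theorem occ_lat_one (hC : Semisimple C) (hD : IsCohB D) (hT : IsHilbert D T) (f : T.Form) :
    List.TFAE [
      Attached T f,
      ∃ (r : ℕ) (γ : Fin r → Gate ℚ (Fin (r + 1))), OnLattice {0, 1} γ ∧ OccursOnOne D T f γ,
      ∃ (r : ℕ) (γ : Fin r → Gate ℚ (Fin (r + 1))), LatCI γ 1 ∧ OccursOnOne D T f γ] := by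
  have hQ := notIn_stable hT f
  have h1 : ∀ A : C, NotIn T f 1 A ↔ ¬ OccursIn (T.rho f 0) (T.real.obj A) := by
    intro A
    constructor
    · intro h
      exact h 0 (by norm_num)
    · intro h j hj
      obtain rfl : j = 0 := by omega
      exact h
  have key := lat_dim isFrac_rat hC hD hQ 1
  have k02 := key.out 0 2
  rw [hT.faltings]
  tfae_have 3 → 2 := by
    rintro ⟨r, γ, hγ, h⟩
    exact ⟨r, γ, hγ.lattice, h⟩
  tfae_have 2 → 1 := by
    rintro ⟨r, γ, hγ, h⟩
    by_contra hcon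
    rw [occursOnOne_iff, occursOn_iff] at h
    refine h ?_
    rcases Nat.eq_zero_or_pos r with rfl | hr
    · refine hQ.zero _ _ (hD.empty _ ?_ _ _)
      have h1 : Subsingleton (HypG γ) := by
        rw [Ideal.Quotient.subsingleton_iff]
        have h2 : cub γ - 1 = -1 := by simp [cub]
        rw [h2, Ideal.span_singleton_neg, Ideal.span_singleton_one]
      exact inferInstanceAs (IsEmpty (PrimeSpectrum (HypG γ)))
    · rw [← hyp_iff hC hD hQ hr.ne' γ]
      have e : ((r + 1 : ℕ) : ℤ) - r = 1 := by push_cast; ring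
      rw [e]
      obtain ⟨Y, hY, hYd, s, r', hs⟩ := hD.compact (aff ℚ (Net γ)) (ft_aff True) 1
      refine hQ.summand _ _ _ s r' hs ?_
      obtain ⟨e, he⟩ := exists_dim (k := ℚ) (Net γ)
      rw [topDim_aff] at hYd
      refine pure_fix hD.toIsCoh hQ 1 1 (by norm_num) ?_ e Y hY (hYd.trans he.le)
      intro X hX hd
      rw [h1]
      exact fun ho => hcon ⟨X, hX, hd, ho⟩
  tfae_have 1 → 3 := by
    rintro ⟨Y, hY, hd, ho⟩
    by_contra hcon
    refine (h1 _).mp (k02.mpr ?_ Y hY hd 1) ho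
    intro n r γ hγ h2 h3 m hm hn h4
    obtain rfl | rfl : m = 0 ∨ m = 1 := by omega
    · intro j hj
      omega
    · subst hn
      by_contra h5
      exact hcon ⟨r, γ, ⟨hγ, rfl, h2, h3, h4⟩,
        (occursOnOne_iff γ).mpr ((occursOn_iff γ).mpr h5)⟩
  tfae_finish

end Pool.Agent.H43.PC
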