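import Pool.Agent.H43.PC.Wt
import Pool.Agent.H43.PC.CI
import Pool.Agent.H43.PC.Smo
import Pool.Agent.H71.AR.Par

set_option autoImplicit false

/-!
# Parshin's conjecture and lattice cubic hypersurfaces
-/

open CategoryTheory CategoryTheory.Limits AlgebraicGeometry

namespace Pool.Agent.H43.PC

open Pool.Agent.Y116.UV Pool.Agent.Y101.Th Pool.Agent.Y691.TU Pool.Agent.Z125.UN
  Pool.Agent.H71.AR

universe v u

variable {p : ℕ} [Fact p.Prime] {M : Type u} [Category.{v} M] [Preadditive M]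

/-- The complex `K_m(W(Z)) ⊗ ℚ` is exact. -/
def KExact [HasZeroObject M] [HasBinaryBiproducts M] (D : WeightData (ZMod p) M) (T : KData p M)
    (m : ℕ) (Z : Sch (ZMod p)) : Prop :=
  ∀ j : ℤ, IsZero (wtH D (T.mot m) j Z)

/-- Two known properties of the rational `K`-groups of Chow motives over the field with `p` elements;
`L` is the Tate twist `A ↦ A(-1)`.

* `twist`: `K_m(A(-1)) = K_m(A)` (the projective bundle formula);
* `point`: `K_m(Spec F_p) ⊗ ℚ = 0` for `m ≥ 1` (Quillen; stated for the complexes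
  `K_m(W(Spec F_p)) ⊗ ℚ`). -/
structure IsTwistK [HasZeroObject M] [HasBinaryBiproducts M] (D : WeightData (ZMod p) M)
    (T : KData p M) (L : M ⥤ M) : Prop where
  twist : ∀ m : ℕ, Nonempty (L ⋙ T.mot m ≅ T.mot m)
  point : ∀ m : ℕ, 1 ≤ m → KExact D T m (aff (ZMod p) (ZMod p))

variable {D : WeightData (ZMod p) M} {T : KData p M}

/-- **Compact supports and lattice complete intersections.** -/
theorem par_net (hT : IsK D T) (m d : ℕ) :
    (∀ n, m ≤ n → Torsion T n d) ↔
      ∀ n, m ≤ n → ∀ (N r i : ℕ) (γ : Fin r → Gate (ZMod p) (Fin N)), LatCI γ i → i ≤ d →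
        IsZero (T.Kc n (aff (ZMod p) (Net γ))) := by
  constructor
  · intro h n hn N r i γ hγ hi
    refine hT.weights m d (fun n hn Y hY hYd => (torsion_iff hT n d).mp (h n hn) Y hY hYd) n hn _
      (ft_aff True) ?_
    rw [topDim_aff, hγ.dim]
    exact_mod_cast hi
  · intro h n hn
    rw [torsion_iff hT]
    intro Y hY hd
    obtain ⟨e⟩ := hT.proj n Y hY
    refine IsZero.of_iso ?_ e.symm
    have hD := dev_par hT m
    refine dim_of_net (P := fun X : Sch (ZMod p) => ∀ n : ℕ, m ≤ n → IsZero (T.Kc n X))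
      (isFrac_zmod p) hD ?_ d ?_ Y hY.ft hd n hn
    · -- the empty scheme
      intro B _ _ hB
      have h0 : ringKrullDim (ZMod p) = (0 : ℕ) := by
        rw [ringKrullDim_eq_zero_of_field]
        rfl
      obtain ⟨w, hw, hs, N, r, γ, hγ, hr, hn, ⟨e⟩⟩ := exists_lat (isFrac_zmod p) (ZMod p) 0 h0
      have hd : IsDomain (Localization.Away w) := IsLocalization.Away.isDomain _ hw
      have h2 : ringKrullDim (Net γ) = (0 : ℕ) := by
        rw [e.toRingEquiv.ringKrullDim, dim_loc (k := ZMod p) hw, h0]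
      have hc : LatCI γ 0 := ⟨hγ, hn,
        MulEquiv.isDomain (Localization.Away w) e.toRingEquiv.toMulEquiv,
        Algebra.Smooth.of_equiv e.symm, h2⟩
      exact dev_empty hD (A := Net γ) (fun n hn => h n hn N r 0 γ hc (Nat.zero_le _)) B hB
    · intro N r γ hγ _ h1 h2 i hi hn h3 n' hn'
      exact h n' hn' N r i γ ⟨hγ, hn, h1, h2, h3⟩ hi

variable [HasZeroObject M] [HasBinaryBiproducts M]

/-- **Parshin's conjecture and lattice cubics.** -/
theorem par_lat {L : M ⥤ M} [L.Additive] (hD : IsWeightB D L) (hT : IsK D T)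
    (hL : IsTwistK D T L) (m d : ℕ) (hm : 1 ≤ m) :
    List.TFAE [
      Torsion T m d,
      ∀ (N r : ℕ) (γ : Fin r → Gate (ZMod p) (Fin N)), OnLattice {0, 1} γ →
        ringKrullDim (Net γ) ≤ d → KExact D T m (aff (ZMod p) (HypG γ)),
      ∀ (N r i : ℕ) (γ : Fin r → Gate (ZMod p) (Fin N)), LatCI γ i → i ≤ d →
        KExact D T m (aff (ZMod p) (HypG γ))] := by
  have key := wt_lat hD (fun _ : ℤ => T.mot m) (fun _ => hL.twist m)
    (fun _ => hL.point m hm) (isFrac_zmod p) 0 d
  have e : Torsion T m d ↔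
      ∀ Y : Sch (ZMod p), SmProj Y → topologicalKrullDim Y.left ≤ d →
        IsZero ((T.mot m).obj (D.h Y)) := by
    rw [torsion_iff hT]
    refine forall_congr' fun Y => forall_congr' fun hY => forall_congr' fun _ => ?_
    obtain ⟨e⟩ := hT.motive m Y hY
    exact e.symm.isZero_iff
  have k01 := key.out 0 1
  have k20 := key.out 2 0
  rw [e]
  tfae_have 1 → 2 := k01.mp
  tfae_have 2 → 3 := fun h N r i γ hγ hi =>
    h N r γ hγ.lattice (by rw [hγ.dim]; exact_mod_cast hi)
  tfae_have 3 → 1 := fun h => k20.mp fun N r γ h1 h2 h3 i hi hn h4 =>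
    h N r i γ ⟨h1, hn, h2, h3, h4⟩ hi
  tfae_finish

end Pool.Agent.H43.PC
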