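import Pool.Agent.H43.PC.Net

/-!
# Presentations by sums of products of different variables, and their lattice circuits
-/

set_option autoImplicit false

open MvPolynomial

namespace Pool.Agent.H43.PC

variable {R : Type} [CommRing R] {J : ℕ}

/-- the relations at the marked rows, where the sums start with `σ` -/
def relS (σ : MvPolynomial (Fin J) R) (L : List (Row R J)) : Set (MvPolynomial (Fin J) R) :=
  {p | ∃ (i : Fin L.length) (x : R), (L.get i).e = some x ∧ p = σ + sm L (i + 1) - C x}

lemma relS_zero (L : List (Row R J)) : relS 0 L = relL L := by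
  simp only [relS, relL, zero_add]

lemma relS_nil (σ : MvPolynomial (Fin J) R) : relS σ [] = ∅ := by
  ext p
  simp only [relS, Set.mem_ofPred_eq, Set.mem_empty_iff_false, iff_false]
  rintro ⟨i, -⟩
  exact i.elim0

lemma sm_cons (ρ : Row R J) (L : List (Row R J)) (i : ℕ) : sm (ρ :: L) (i + 1) = rowP ρ + sm L i := by
  simp [sm]

lemma relS_cons (σ : MvPolynomial (Fin J) R) (ρ : Row R J) (L : List (Row R J)) :
    relS σ (ρ :: L) = {p | ∃ x, ρ.e = some x ∧ p = σ + rowP ρ - C x} ∪ relS (σ + rowP ρ) L := by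
  ext p
  simp only [relS, Set.mem_ofPred_eq, Set.mem_union]
  constructor
  · rintro ⟨i, x, h1, h2⟩
    rcases Fin.eq_zero_or_eq_succ i with rfl | ⟨k, rfl⟩
    · left
      refine ⟨x, h1, ?_⟩
      rw [h2]
      change σ + sm (ρ :: L) (0 + 1) - C x = _
      rw [sm_cons, sm_zero, add_zero]
    · right
      refine ⟨k, x, h1, ?_⟩
      rw [h2]
      change σ + sm (ρ :: L) ((k + 1) + 1) - C x = _
      rw [sm_cons, add_assoc]
  · rintro (⟨x, h1, h2⟩ | ⟨k, x, h1, h2⟩)
    · refine ⟨⟨0, by simp⟩, x, h1, ?_⟩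
      rw [h2]
      change _ = σ + sm (ρ :: L) (0 + 1) - C x
      rw [sm_cons, sm_zero, add_zero]
    · refine ⟨k.succ, x, h1, ?_⟩
      rw [h2]
      change _ = σ + sm (ρ :: L) ((k + 1) + 1) - C x
      rw [sm_cons, add_assoc]

/-- the polynomial of a list of monomials -/
noncomputable def tm (l : List (R × Finset (Fin J))) : MvPolynomial (Fin J) R :=
  (l.map fun t => C t.1 * ∏ j ∈ t.2, X j).sum

/-- the rows of a list of monomials, with the mark `0` at the end -/
def blk (l : List (R × Finset (Fin J))) : List (Row R J) :=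
  l.map (fun t => ⟨t.1, t.2, none⟩) ++ [⟨0, ∅, some 0⟩]

lemma relS_blk (l : List (R × Finset (Fin J))) (σ : MvPolynomial (Fin J) R) (L : List (Row R J)) :
    relS σ (blk l ++ L) = {σ + tm l} ∪ relS (σ + tm l) L := by
  induction l generalizing σ with
  | nil =>
    have h1 : rowP (⟨0, ∅, some 0⟩ : Row R J) = 0 := by simp [rowP]
    have h2 : tm ([] : List (R × Finset (Fin J))) = 0 := by simp [tm]
    change relS σ (⟨0, ∅, some 0⟩ :: L) = _
    rw [relS_cons, h1, h2, add_zero]
    congr 1
    ext p
    simp only [Set.mem_ofPred_eq, Set.mem_singleton_iff, Option.some.injEq]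
    constructor
    · rintro ⟨x, rfl, rfl⟩
      rw [map_zero, sub_zero]
    · rintro rfl
      exact ⟨0, rfl, by rw [map_zero, sub_zero]⟩
  | cons t l ih =>
    have h1 : σ + tm (t :: l) = σ + rowP (⟨t.1, t.2, none⟩ : Row R J) + tm l := by
      rw [tm, List.map_cons, List.sum_cons, add_assoc]
      rfl
    change relS σ (⟨t.1, t.2, none⟩ :: (blk l ++ L)) = _
    rw [relS_cons, ih, h1]
    have h2 : {p | ∃ x, (⟨t.1, t.2, none⟩ : Row R J).e = some x ∧
        p = σ + rowP (⟨t.1, t.2, none⟩ : Row R J) - C x} = ∅ := by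
      ext p
      simp
    rw [h2, Set.empty_union]

lemma relS_le (K : Ideal (MvPolynomial (Fin J) R)) (Ls : List (List (R × Finset (Fin J))))
    (σ : MvPolynomial (Fin J) R) (hσ : σ ∈ K) (h : ∀ l ∈ Ls, tm l ∈ K) :
    relS σ (Ls.flatMap blk) ⊆ K := by
  induction Ls generalizing σ with
  | nil =>
    rw [List.flatMap_nil, relS_nil]
    exact Set.empty_subset _
  | cons l Ls ih =>
    have h1 : σ + tm l ∈ K := K.add_mem hσ (h l (by simp))
    rw [List.flatMap_cons, relS_blk]
    exact Set.union_subset (Set.singleton_subset_iff.mpr h1)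
      (ih _ h1 fun l' hl' => h l' (List.mem_cons_of_mem _ hl'))

lemma le_relS (K : Ideal (MvPolynomial (Fin J) R)) (Ls : List (List (R × Finset (Fin J))))
    (σ : MvPolynomial (Fin J) R) (hσ : σ ∈ K) (h : relS σ (Ls.flatMap blk) ⊆ K) :
    ∀ l ∈ Ls, tm l ∈ K := by
  induction Ls generalizing σ with
  | nil => simp
  | cons l Ls ih =>
    rw [List.flatMap_cons, relS_blk] at h
    have h1 : σ + tm l ∈ K := h (Or.inl rfl)
    intro l' hl'
    rcases List.mem_cons.mp hl' with rfl | hl'
    · have := K.sub_mem h1 hσ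
      rwa [add_sub_cancel_left] at this
    · exact ih _ h1 (fun p hp => h (Or.inr hp)) l' hl'

lemma span_relL (Ls : List (List (R × Finset (Fin J)))) :
    Ideal.span (relL (Ls.flatMap blk)) = Ideal.span {p | ∃ l ∈ Ls, tm l = p} := by
  rw [← relS_zero]
  apply le_antisymm
  · rw [Ideal.span_le]
    exact relS_le _ Ls 0 (Ideal.zero_mem _) fun l hl => Ideal.subset_span ⟨l, hl, rfl⟩
  · rw [Ideal.span_le]
    rintro _ ⟨l, hl, rfl⟩
    exact le_relS _ Ls 0 (Ideal.zero_mem _) Ideal.subset_span l hl

lemma rowIn_blk {S : Set R} (h0 : 0 ∈ S) (Ls : List (List (R × Finset (Fin J))))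
    (h : ∀ l ∈ Ls, ∀ t ∈ l, t.1 ∈ S) : ∀ ρ ∈ Ls.flatMap blk, RowIn S ρ := by
  intro ρ hρ
  obtain ⟨l, hl, h1⟩ := List.mem_flatMap.mp hρ
  rw [blk, List.mem_append] at h1
  rcases h1 with h1 | h1
  · obtain ⟨t, ht, rfl⟩ := List.mem_map.mp h1
    exact ⟨h l hl t ht, fun x hx => by simp at hx⟩
  · rw [List.mem_singleton] at h1
    subst h1
    exact ⟨h0, fun x hx => by
      simp only [Option.mem_def, Option.some.injEq] at hx
      rwa [← hx]⟩

section sq

variable (n D : ℕ)

/-- the new variables -/
abbrev Wn : Type := (Fin n × Fin D) ⊕ Fin n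

/-- their numbers -/
noncomputable def en : Wn n D ≃ Fin (Fintype.card (Wn n D)) := Fintype.equivFin _

/-- the set of the variables for a monomial -/
noncomputable def st (m : Fin n →₀ ℕ) : Finset (Fin (Fintype.card (Wn n D))) :=
  (Finset.univ.filter fun kd : Fin n × Fin D => kd.2.val < m kd.1).map
    (Function.Embedding.inl.trans (en n D).toEmbedding)

/-- the monomials of the relation `g` -/
noncomputable def tg (g : MvPolynomial (Fin n) R) : List (R × Finset (Fin (Fintype.card (Wn n D)))) :=
  g.support.toList.map fun m => (coeff m g, st n D m)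

/-- the monomials of the relation between the variables -/
noncomputable def tp (R : Type) [CommRing R] (kd : Fin n × Fin D) :
    List (R × Finset (Fin (Fintype.card (Wn n D)))) :=
  [(1, {en n D (Sum.inl kd)}), (1, {en n D (Sum.inr kd.1)})]

/-- all relations -/
noncomputable def tL (G : Finset (MvPolynomial (Fin n) R)) :
    List (List (R × Finset (Fin (Fintype.card (Wn n D))))) :=
  (Finset.univ.toList.map fun kd => tp n D R kd) ++ G.toList.map (tg n D)

/-- the values of the new variables -/
noncomputable def al (R : Type) [CommRing R] (j : Fin (Fintype.card (Wn n D))) :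
    MvPolynomial (Fin n) R :=
  Sum.elim (fun kd => X kd.1) (fun k => -X k) ((en n D).symm j)

/-- the old variables -/
noncomputable def be (R : Type) [CommRing R] (k : Fin n) :
    MvPolynomial (Fin (Fintype.card (Wn n D))) R :=
  -X (en n D (Sum.inr k))

lemma prod_st (m : Fin n →₀ ℕ) (hm : ∀ k, m k ≤ D) :
    ∏ j ∈ st n D m, al n D R j = ∏ k, X k ^ m k := by
  rw [st, Finset.prod_map]
  have h1 : ∀ kd : Fin n × Fin D, al n D R ((Function.Embedding.inl.trans
      (en n D).toEmbedding) kd) = X kd.1 := by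
    intro kd
    simp [al]
  rw [Finset.prod_congr rfl fun kd _ => h1 kd, Finset.prod_filter, Fintype.prod_prod_type]
  apply Finset.prod_congr rfl
  intro k _
  rw [← Finset.prod_filter]
  change ∏ d ∈ Finset.univ.filter (fun d : Fin D => d.val < m k), (X k : MvPolynomial (Fin n) R) = _
  rw [Finset.prod_const]
  congr 1
  have h2 : (Finset.univ.filter fun d : Fin D => d.val < m k).card = m k := by
    rw [Fin.card_filter_val_lt]
    exact min_eq_right (hm k)
  exact h2

lemma aeval_tg (g : MvPolynomial (Fin n) R) (hg : ∀ m ∈ g.support, ∀ k, m k ≤ D) :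
    aeval (al n D R) (tm (tg n D g)) = g := by
  rw [tm, tg, List.map_map, map_list_sum, List.map_map]
  conv_rhs => rw [g.as_sum]
  rw [← Finset.sum_map_toList]
  congr 1
  apply List.map_congr_left
  intro m hm
  rw [Finset.mem_toList] at hm
  simp only [Function.comp_apply, map_mul, aeval_C, map_prod, aeval_X]
  rw [prod_st n D m (hg m hm), monomial_eq, Finsupp.prod_fintype _ _ fun _ => pow_zero _,
    algebraMap_eq]

lemma tm_tp (kd : Fin n × Fin D) : tm (tp n D R kd) =
    X (en n D (Sum.inl kd)) + X (en n D (Sum.inr kd.1)) := by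
  simp [tm, tp]

/-- the new presentation -/
noncomputable def sqIso (G : Finset (MvPolynomial (Fin n) R))
    (hG : ∀ g ∈ G, ∀ m ∈ g.support, ∀ k, m k ≤ D) :
    (MvPolynomial (Fin (Fintype.card (Wn n D))) R ⧸
      Ideal.span {p : MvPolynomial (Fin (Fintype.card (Wn n D))) R | ∃ l ∈ tL n D G, tm l = p}) ≃ₐ[R]
    (MvPolynomial (Fin n) R ⧸ Ideal.span (G : Set (MvPolynomial (Fin n) R))) := by
  have h3 : ∀ j, aeval (be n D R) (al n D R j) - X j ∈ Ideal.span
      {p : MvPolynomial (Fin (Fintype.card (Wn n D))) R | ∃ l ∈ tL n D G, tm l = p} := by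
    intro j
    obtain ⟨w, rfl⟩ := (en n D).surjective j
    rcases w with kd | k
    · have h1 : aeval (be n D R) (al n D R (en n D (Sum.inl kd))) - X (en n D (Sum.inl kd)) =
          -tm (tp n D R kd) := by
        rw [tm_tp, al, Equiv.symm_apply_apply, Sum.elim_inl, aeval_X, be]
        ring
      rw [h1]
      exact Ideal.neg_mem_iff _ |>.mpr (Ideal.subset_span ⟨_, List.mem_append_left _
        (List.mem_map.mpr ⟨kd, Finset.mem_toList.mpr (Finset.mem_univ _), rfl⟩), rfl⟩)
    · have h1 : aeval (be n D R) (al n D R (en n D (Sum.inr k))) - X (en n D (Sum.inr k)) = 0 := by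
        rw [al, Equiv.symm_apply_apply, Sum.elim_inr, map_neg, aeval_X, be]
        ring
      rw [h1]
      exact Ideal.zero_mem _
  refine quotIso _ _ (al n D R) (be n D R) ?_ ?_ h3 ?_
  · rw [Ideal.span_le]
    rintro _ ⟨l, hl, rfl⟩
    change aeval (al n D R) (tm l) ∈ Ideal.span (G : Set (MvPolynomial (Fin n) R))
    rw [tL, List.mem_append, List.mem_map, List.mem_map] at hl
    rcases hl with ⟨kd, -, rfl⟩ | ⟨g, hg, rfl⟩
    · rw [tm_tp, map_add, aeval_X, aeval_X, al, al, Equiv.symm_apply_apply, Equiv.symm_apply_apply,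
        Sum.elim_inl, Sum.elim_inr, add_neg_cancel]
      exact Ideal.zero_mem _
    · rw [Finset.mem_toList] at hg
      rw [aeval_tg n D g (hG g hg)]
      exact Ideal.subset_span hg
  · rw [Ideal.span_le]
    intro g hg
    change aeval (be n D R) g ∈ Ideal.span _
    have h1 : (Ideal.Quotient.mkₐ R (Ideal.span {p : MvPolynomial (Fin (Fintype.card (Wn n D))) R |
        ∃ l ∈ tL n D G, tm l = p})).comp ((aeval (be n D R)).comp (aeval (al n D R))) =
        Ideal.Quotient.mkₐ R _ := by
      apply MvPolynomial.algHom_ext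
      intro j
      rw [AlgHom.comp_apply, AlgHom.comp_apply, aeval_X]
      exact Ideal.Quotient.eq.mpr (h3 j)
    have h2 := congrArg (fun f => f (tm (tg n D g))) h1
    simp only [AlgHom.comp_apply] at h2
    rw [aeval_tg n D g (hG g hg)] at h2
    have h4 : Ideal.Quotient.mkₐ R (Ideal.span {p : MvPolynomial (Fin (Fintype.card (Wn n D))) R |
        ∃ l ∈ tL n D G, tm l = p}) (tm (tg n D g)) = 0 :=
      Ideal.Quotient.eq_zero_iff_mem.mpr (Ideal.subset_span ⟨_, List.mem_append_right _
        (List.mem_map.mpr ⟨g, Finset.mem_toList.mpr hg, rfl⟩), rfl⟩)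
    rw [h4] at h2
    exact Ideal.Quotient.eq_zero_iff_mem.mp h2
  · intro k
    have h1 : aeval (al n D R) (be n D R k) - X k = 0 := by
      rw [be, map_neg, aeval_X, al, Equiv.symm_apply_apply, Sum.elim_inr]
      ring
    rw [h1]
    exact Ideal.zero_mem _

end sq

end Pool.Agent.H43.PC
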