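import Pool.Agent.H43.PC.Sq
import Pool.Graph.R_seed8.Y116.UV.Pres

/-!
# Every affine scheme of finite type is the scheme of the solutions of a lattice gate system
-/

set_option autoImplicit false

open MvPolynomial CategoryTheory AlgebraicGeometry Pool.Agent.Y116.UV

namespace Pool.Agent.H43.PC

variable {R : Type} [CommRing R]

/-- Renaming the variables and the gates does not change the scheme of the solutions. -/
noncomputable def netRename {V G V' G' : Type} (γ : G → Gate R V) (v : V ≃ V') (g : G' ≃ G) :
    Net γ ≃ₐ[R] Net (fun k => (γ (g k)).map v) :=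
  Ideal.quotientEquivAlg _ _ (renameEquiv R v) (by
    rw [Ideal.map_span]
    congr 1
    ext p
    simp only [Set.mem_range, Set.mem_image, exists_exists_eq_and, RingHom.coe_coe,
      renameEquiv_apply, Gate.poly_map]
    constructor
    · rintro ⟨k, rfl⟩
      exact ⟨g k, rfl⟩
    · rintro ⟨k, rfl⟩
      exact ⟨g.symm k, by rw [g.apply_symm_apply]⟩)

/-- The hypersurface of the gates is Jouanolou's ring of the gate polynomials. -/
noncomputable def hypJou {n r : ℕ} (γ : Fin r → Gate R (Fin n)) :
    HypG γ ≃ₐ[R] Jou (fun g => (γ g).poly) :=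
  Ideal.quotientEquivAlg _ _ (sumAlgEquiv R (Fin r) (Fin n)) (by
    rw [Ideal.map_span, Set.image_singleton]
    congr 2
    simp only [RingHom.coe_coe, map_sub, map_one, cub, map_sum, map_mul, sumAlgEquiv_X_inl]
    congr 1
    apply Finset.sum_congr rfl
    intro i _
    have h1 : ∀ p : MvPolynomial (Fin n) R,
        sumAlgEquiv R (Fin r) (Fin n) (rename Sum.inr p) = C p := by
      intro p
      have h2 : ((sumAlgEquiv R (Fin r) (Fin n)).toAlgHom.comp (rename Sum.inr)) =
          (IsScalarTower.toAlgHom R (MvPolynomial (Fin n) R)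
            (MvPolynomial (Fin r) (MvPolynomial (Fin n) R))) := by
        apply MvPolynomial.algHom_ext
        intro k
        simp [IsScalarTower.toAlgHom_apply, sumAlgEquiv_X_inr, MvPolynomial.algebraMap_eq]
      exact congrArg (fun f => f p) h2
    rw [h1, mul_comm])

/-- The algebra is the algebra of a lattice gate system; one of the gates says that a variable is
zero. -/
theorem exists_net {S : Set R} (h0 : 0 ∈ S) (h1 : 1 ∈ S) (hS : Presents S) (A : Type)
    [CommRing A] [Algebra R A] [Algebra.FiniteType R A] :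
    ∃ (n r : ℕ) (γ : Fin r → Gate R (Fin n)), OnLattice S γ ∧ Nonempty (Net γ ≃ₐ[R] A) ∧
      ∃ (v : Fin n) (g : Fin r), γ g = .const 0 v := by
  classical
  obtain ⟨n, φ, G, hs, hK, hc⟩ := hS A
  let D : ℕ := ∑ g ∈ G, ∑ m ∈ g.support, m.degree
  have hD : ∀ g ∈ G, ∀ m ∈ g.support, ∀ k, m k ≤ D := by
    intro g hg m hm k
    have h1 : m.degree ≤ ∑ m ∈ g.support, m.degree :=
      Finset.single_le_sum (f := fun m : Fin n →₀ ℕ => m.degree) (fun _ _ => Nat.zero_le _) hm
    have h2 : ∑ m ∈ g.support, m.degree ≤ ∑ g ∈ G, ∑ m ∈ g.support, m.degree :=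
      Finset.single_le_sum (f := fun g : MvPolynomial (Fin n) R => ∑ m ∈ g.support, m.degree)
        (fun _ _ => Nat.zero_le _) hg
    exact (Finsupp.le_degree k m).trans (h1.trans h2)
  let L := (tL n D G).flatMap blk
  have hL : ∀ ρ ∈ L, RowIn S ρ := by
    apply rowIn_blk h0
    intro l hl t ht
    rw [tL, List.mem_append, List.mem_map, List.mem_map] at hl
    rcases hl with ⟨kd, -, rfl⟩ | ⟨g, hg, rfl⟩
    · simp only [tp, List.mem_cons, List.not_mem_nil, or_false] at ht
      rcases ht with rfl | rfl <;> exact h1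
    · obtain ⟨m, -, rfl⟩ := List.mem_map.mp ht
      exact hc g (Finset.mem_toList.mp hg) m
  let v := Fintype.equivFin (Vr L.length (Fintype.card (Wn n D)))
  let g := (Fintype.equivFin (Gt L.length (Fintype.card (Wn n D)) (mk' L))).symm
  refine ⟨_, _, fun k => (gate L (g k)).map v, (onLattice_gate h0 L hL).rename v g, ?_, ?_⟩
  · have e1 := (netRename (gate L) v g).symm
    have e2 := netIso L
    have e3 : (MvPolynomial (Fin (Fintype.card (Wn n D))) R ⧸ Ideal.span (relL L)) ≃ₐ[R]
        (MvPolynomial (Fin (Fintype.card (Wn n D))) R ⧸ Ideal.span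
          {p : MvPolynomial (Fin (Fintype.card (Wn n D))) R | ∃ l ∈ tL n D G, tm l = p}) :=
      Ideal.quotientEquivAlgOfEq R (span_relL _)
    have e4 := sqIso n D G hD
    have e5 : (MvPolynomial (Fin n) R ⧸ Ideal.span (G : Set (MvPolynomial (Fin n) R))) ≃ₐ[R]
        (MvPolynomial (Fin n) R ⧸ RingHom.ker φ) := Ideal.quotientEquivAlgOfEq R hK.symm
    have e6 := Ideal.quotientKerAlgEquivOfSurjective hs
    exact ⟨e1.trans (e2.trans (e3.trans (e4.trans (e5.trans e6))))⟩
  · refine ⟨v (.a 0), g.symm .z, ?_⟩
    simp only [Equiv.apply_symm_apply]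
    rfl

section

variable {sep : Prop} {P : Sch R → Prop} {S : Set R} (hP : Uni sep P) (h0 : 0 ∈ S) (h1 : 1 ∈ S)
  (hH : ∀ (n r : ℕ) (γ : Fin r → Gate R (Fin n)), OnLattice S γ → P (aff R (HypG γ)))

include hP hH h0 h1 in
/-- The affine case. -/
theorem affine_lattice (hS : Presents S) (A : Type) [CommRing A] [Algebra R A]
    [Algebra.FiniteType R A] : P (aff R A) := by
  obtain ⟨n, r, γ, hγ, ⟨e⟩, -⟩ := exists_net h0 h1 hS A
  have h2 : P (aff R (Net γ)) := by
    refine of_jou hP (fun g => (γ g).poly) (hP.space n) ?_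
    exact iso_alg hP (hypJou γ) (hH n r γ hγ)
  exact iso_alg hP e h2

include hP hH h0 h1 in
/-- If the property `P` is closed under closed-open decompositions, under the affine bundles of
Jouanolou and under passing from `X × 𝔾_m` to `X`, and if it is true for the affine spaces and for the
cubic hypersurfaces of the lattice gate systems, then it is true for every (separated) scheme of
finite type over the ring `R`. -/
theorem universal_lattice (hS : Presents S) (X : Sch R) (hX : FT sep X) : P X :=
  of_affine hP (fun A _ _ _ => affine_lattice hP h0 h1 hH hS A) X hX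

end

end Pool.Agent.H43.PC
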