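import Pool.Agent.H43.PC.WtDefs
import Pool.Agent.H43.PC.BndL
import Pool.Agent.H43.PC.Coh
import Pool.Agent.H71.AR.Wt

set_option autoImplicit false

/-!
# Weight complexes of lattice cubic hypersurfaces
-/

open CategoryTheory CategoryTheory.Limits AlgebraicGeometry Pretriangulated

namespace Pool.Agent.H43.PC

open Pool.Agent.Y116.UV Pool.Agent.Y101.Th Pool.Agent.Y691.TU Pool.Agent.Z125.UN
  Pool.Agent.H71.AR

universe v u v' u'

variable {k : Type} [Field k] {M : Type u} [Category.{v} M] [Preadditive M] [HasZeroObject M]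
  [HasBinaryBiproducts M] {D : WeightData k M} {L : M ⥤ M} [L.Additive] {A : Type u'}
  [Category.{v'} A] [Abelian A]

section

variable (F : ℤ → M ⥤ A) [∀ i, (F i).Additive] (hF : ∀ i, Nonempty (L ⋙ F (i + 1) ≅ F i))

include hF in
lemma pw_iso (i : ℤ) (n : ℕ) : Nonempty (pw L n ⋙ F (i + n) ≅ F i) := by
  induction n with
  | zero =>
    have h : i + ((0 : ℕ) : ℤ) = i := by simp
    rw [h]
    exact ⟨Functor.leftUnitor _⟩
  | succ n ih =>
    obtain ⟨e⟩ := ih
    obtain ⟨e'⟩ := hF (i + n)
    have h : i + ((n + 1 : ℕ) : ℤ) = i + n + 1 := by push_cast; ring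
    rw [h]
    exact ⟨Functor.isoWhiskerLeft (pw L n) e' ≪≫ e⟩

lemma acyclic_natIso {G H : M ⥤ A} [G.Additive] [H.Additive] (e : G ≅ H) (K : CochainComplex M ℤ) :
    ((G.mapHomologicalComplex (ComplexShape.up ℤ)).obj K).Acyclic ↔
      ((H.mapHomologicalComplex (ComplexShape.up ℤ)).obj K).Acyclic := by
  have e1 := (NatIso.mapHomologicalComplex e (ComplexShape.up ℤ)).app K
  rw [← HomotopyCategory.quotient_obj_mem_subcategoryAcyclic_iff_acyclic,
    ← HomotopyCategory.quotient_obj_mem_subcategoryAcyclic_iff_acyclic]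
  exact (HomotopyCategory.subcategoryAcyclic A).prop_iff_of_iso
    ((HomotopyCategory.quotient A (ComplexShape.up ℤ)).mapIso e1)

include hF in
lemma acy_pw (i : ℤ) (n : ℕ) (K : CochainComplex M ℤ) :
    acy (F (i + n)) (cls (((pw L n).mapHomologicalComplex (ComplexShape.up ℤ)).obj K)) ↔
      acy (F i) (cls K) := by
  rw [acy_quotient, acy_quotient]
  obtain ⟨e⟩ := pw_iso F hF i n
  exact acyclic_natIso e K

end

/-- the closed subscheme -/
lemma weight_closed (hD : IsWeight D) (S : ObjectProperty (HomotopyCategory M (ComplexShape.up ℤ)))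
    [S.IsTriangulated] [S.IsClosedUnderIsomorphisms] {Z X U : Sch k} (i : Z ⟶ X) (j : U ⟶ X)
    (hX : FT True X) (ht : IsTriple i j) (hXX : S (cls (D.W X))) (hU : S (cls (D.W U))) :
    S (cls (D.W Z)) := by
  obtain ⟨f, ⟨e⟩⟩ := hD.cone i j hX ht
  exact S.prop_of_iso (HomotopyCategory.isoOfHomotopyEquiv e)
    (S.ext_of_isTriangulatedClosed₃ _
      (HomotopyCategory.mappingCone_triangleh_distinguished f) hU hXX)

section main

variable (hD : IsWeightB D L) (F : ℤ → M ⥤ A) [∀ i, (F i).Additive]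
  (hF : ∀ i, Nonempty (L ⋙ F (i + 1) ≅ F i))
  (hpt : ∀ i, ∀ j, IsZero (wtH D (F i) j (aff k k)))

include hD hF

lemma acy_bundle (i : ℤ) (B : Type) [CommRing B] [Algebra k B] [Algebra.FiniteType k B] (m : ℕ)
    (f : Fin m → B) (U : Sch k) (j : U ⟶ aff k B) (hj : IsOpenImmersion j.left)
    (hr : Set.range j.left = {x : PrimeSpectrum B | ∃ l, f l ∉ x.asIdeal}) :
    acy (F (i + (m - 1 : ℕ))) (cls (D.W (aff k (Jou f)))) ↔ acy (F i) (cls (D.W U)) := by
  obtain ⟨e⟩ := hD.bundle B m f U j hj hr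
  rw [(acy _).prop_iff_of_iso (HomotopyCategory.isoOfHomotopyEquiv e)]
  exact acy_pw F hF i (m - 1) _

include hpt

lemma acy_space (i : ℤ) (n : ℕ) : acy (F i) (cls (D.W (aff k (MvPolynomial (Fin n) k)))) := by
  have h1 := acy_bundle hD F hF (i - n) k (n + 1) (f1 k n) (aff k k) (𝟙 _) inferInstance
    (range_id n)
  have h2 : i - (n : ℤ) + ((n + 1 - 1 : ℕ) : ℤ) = i := by
    rw [Nat.add_sub_cancel]
    ring
  rw [h2] at h1
  have h3 := h1.mpr ((acy_iff D (F _) (aff k k)).mpr (hpt _))
  obtain ⟨e⟩ := hD.iso (X := aff k (Jou (f1 k n))) (ft_aff True) ⟨(affIso (jouOne k n)).symm⟩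
  exact (acy (F i)).prop_of_iso (HomotopyCategory.isoOfHomotopyEquiv e) h3

lemma acy_empty (i : ℤ) (B : Type) [CommRing B] [Algebra k B] (hB : Subsingleton B) :
    acy (F i) (cls (D.W (aff k B))) :=
  dev_empty (dev_weight hD.toIsWeight (acy (F i))) (A := MvPolynomial (Fin 0) k)
    (acy_space hD F hF hpt i 0) B hB

/-- the scheme of the solutions and the cubic hypersurface -/
theorem acy_hyp (i : ℤ) {n r : ℕ} (hr : 0 < r) (γ : Fin r → Gate k (Fin n)) :
    acy (F (i + r - 1)) (cls (D.W (aff k (HypG γ)))) ↔ acy (F i) (cls (D.W (aff k (Net γ)))) := by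
  have hW := hD.toIsWeight
  have ht := triple_jou' (R := k) fun g => (γ g).poly
  have h1 := acy_bundle hD F hF i (MvPolynomial (Fin n) k) r (fun g => (γ g).poly) _
    (opnMap (aff k _) (neOpen k fun g => (γ g).poly)) inferInstance (range_opnMap _ _)
  have h2 : i + ((r - 1 : ℕ) : ℤ) = i + r - 1 := by omega
  rw [h2] at h1
  obtain ⟨e⟩ := hW.iso (X := aff k (HypG γ)) (ft_aff True) ⟨(affIso (hypJou γ)).symm⟩
  rw [(acy _).prop_iff_of_iso (HomotopyCategory.isoOfHomotopyEquiv e), h1]
  constructor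
  · intro h
    exact weight_closed hW (acy (F i)) _ _ (ft_aff True) ht (acy_space hD F hF hpt i n) h
  · intro h
    exact (dev_weight hW (acy (F i))).opened _ _ (ft_aff True) ht h (acy_space hD F hF hpt i n)

/-- **Weight complexes of lattice cubic hypersurfaces.** For a family of additive functors `F i` of Chow
motives over a perfect field `k` of fractions of integers with `F (i + 1) (A(-1)) = F i A`, which vanish
on `Spec k`, and for all `i` and `N`, the following are equivalent: `F i` vanishes on the motives of the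
smooth projective schemes of dimension at most `N`; the complexes `F (i + r - 1) (W(Z))` are exact for the
lattice cubics `Z` of all lattice systems of `r` gates whose scheme of solutions has dimension at most
`N`; they are exact if the scheme of solutions is a smooth integral complete intersection of dimension
`n - r ≤ N`. -/
theorem wt_lat [PerfectField k] (hf : IsFrac k) (i : ℤ) (N : ℕ) :
    List.TFAE [
      ∀ Y : Sch k, SmProj Y → topologicalKrullDim Y.left ≤ N → IsZero ((F i).obj (D.h Y)),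
      ∀ (n r : ℕ) (γ : Fin r → Gate k (Fin n)), OnLattice {0, 1} γ → ringKrullDim (Net γ) ≤ N →
        ∀ j, IsZero (wtH D (F (i + r - 1)) j (aff k (HypG γ))),
      ∀ (n r : ℕ) (γ : Fin r → Gate k (Fin n)), OnLattice {0, 1} γ → IsDomain (Net γ) →
        Algebra.Smooth k (Net γ) → ∀ m : ℕ, m ≤ N → n = r + m → ringKrullDim (Net γ) = m →
        ∀ j, IsZero (wtH D (F (i + r - 1)) j (aff k (HypG γ)))] := by
  have hW := hD.toIsWeight
  tfae_have 1 → 2 := by
    intro h n r γ _ hd
    rw [← acy_iff]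
    rcases Nat.eq_zero_or_pos r with rfl | hr
    · refine acy_empty hD F hF hpt _ _ ?_
      rw [Ideal.Quotient.subsingleton_iff]
      have h2 : cub γ - 1 = -1 := by simp [cub]
      rw [h2, Ideal.span_singleton_neg, Ideal.span_singleton_one]
    · rw [acy_hyp hD F hF hpt i hr γ]
      exact acy_terms hW (F i) N h _ (ft_aff True) (by rwa [topDim_aff])
  tfae_have 2 → 3 := by
    intro h n r γ hγ _ _ m hm _ hd
    exact h n r γ hγ (by rw [hd]; exact_mod_cast hm)
  tfae_have 3 → 1 := by
    intro h Y hY hd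
    rw [← acy_proj hW (F i) hY]
    refine dim_of_net (P := fun X => acy (F i) (cls (D.W X))) hf (dev_weight hW (acy (F i)))
      (fun B _ _ hB => acy_empty hD F hF hpt i B hB) N ?_ Y hY.ft hd
    intro n r γ hγ hr h1 h2 m hm hn h3
    have h4 := h n r γ hγ h1 h2 m hm hn h3
    rw [← acy_iff, acy_hyp hD F hF hpt i hr γ] at h4
    exact h4
  tfae_finish

end main

end Pool.Agent.H43.PC
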