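import Pool.Agent.H71.AR.WtDefs

set_option autoImplicit false

/-!
# Weight complexes and affine bundles: definitions
-/

open CategoryTheory CategoryTheory.Limits AlgebraicGeometry

namespace Pool.Agent.H43.PC

open Pool.Agent.Y116.UV Pool.Agent.Y101.Th Pool.Agent.H71.AR

universe v u

/-- The `n`-th power of the functor `L`. -/
def pw {M : Type u} [Category.{v} M] (L : M ⥤ M) : ℕ → (M ⥤ M)
  | 0 => 𝟭 M
  | n + 1 => pw L n ⋙ L

instance pw_additive {M : Type u} [Category.{v} M] [Preadditive M] (L : M ⥤ M) [L.Additive] :
    ∀ n, (pw L n).Additive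
  | 0 => inferInstanceAs (𝟭 M).Additive
  | n + 1 => by
    have := pw_additive L n
    exact inferInstanceAs (pw L n ⋙ L).Additive

/-- The properties `IsWeight` of the weight complexes, and moreover: for the affine bundle
`Spec A[t_1, …, t_m] / (∑ f_l t_l - 1) → U` with fibre `𝔸^(m-1)`, where `U` is the complement of `f = 0`
in `Spec A`, the weight complex of the total space is the Tate twist by `-(m-1)` of the weight complex of
`U` (Gillet and Soulé); `L` is the Tate twist `A ↦ A(-1)` (the product with the Lefschetz motive). -/
structure IsWeightB {k : Type} [Field k] {M : Type u} [Category.{v} M] [Preadditive M]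
    [HasZeroObject M] [HasBinaryBiproducts M] (D : WeightData k M) (L : M ⥤ M) [L.Additive] :
    Prop extends IsWeight D where
  bundle : ∀ (A : Type) [CommRing A] [Algebra k A] [Algebra.FiniteType k A] (m : ℕ)
    (f : Fin m → A) (U : Sch k) (j : U ⟶ aff k A), IsOpenImmersion j.left →
    Set.range j.left = {x : PrimeSpectrum A | ∃ l, f l ∉ x.asIdeal} →
    Nonempty (HomotopyEquiv (D.W (aff k (Jou f)))
      (((pw L (m - 1)).mapHomologicalComplex (ComplexShape.up ℤ)).obj (D.W U)))

end Pool.Agent.H43.PC
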