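import Pool.Agent.H43.PC.Wt

set_option autoImplicit false

/-!
# Families of functors indexed by the natural numbers
-/

open CategoryTheory CategoryTheory.Limits AlgebraicGeometry

namespace Pool.Agent.H43.PC

open Pool.Agent.Y116.UV Pool.Agent.Y101.Th Pool.Agent.Y691.TU Pool.Agent.Z125.UN
  Pool.Agent.H71.AR

universe v u v' u'

variable {k : Type} [Field k] {M : Type u} [Category.{v} M] [Preadditive M] [HasZeroObject M]
  [HasBinaryBiproducts M] {D : WeightData k M} {L : M ⥤ M} [L.Additive] {A : Type u'}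
  [Category.{v'} A] [Abelian A]

/-- the extension of a family of functors by zero -/
noncomputable def zF (G : ℕ → M ⥤ A) : ℤ → (M ⥤ A)
  | Int.ofNat n => G n
  | Int.negSucc _ => (Functor.const M).obj (HasZeroObject.zero' A).zero

omit [HasZeroObject M] [HasBinaryBiproducts M] in
lemma zF_zero (G : ℕ → M ⥤ A) (n : ℕ) (X : M) : IsZero ((zF G (Int.negSucc n)).obj X) :=
  isZero_zero A

instance zF_additive (G : ℕ → M ⥤ A) [∀ i, (G i).Additive] : ∀ i, (zF G i).Additive
  | Int.ofNat n => inferInstanceAs (G n).Additive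
  | Int.negSucc n => ⟨fun {_ _ _ _} => (isZero_zero A).eq_of_src _ _⟩

omit [HasZeroObject M] [HasBinaryBiproducts M] in
lemma zero_iso {G H : M ⥤ A} (hG : ∀ X, IsZero (G.obj X)) (hH : ∀ X, IsZero (H.obj X)) :
    Nonempty (G ≅ H) :=
  ⟨NatIso.ofComponents (fun X => (hG X).iso (hH X)) fun _ => (hG _).eq_of_src _ _⟩

lemma zF_twist (G : ℕ → M ⥤ A) (h0 : ∀ X, IsZero ((G 0).obj X))
    (hG : ∀ i, Nonempty (L ⋙ G (i + 1) ≅ G i)) : ∀ i, Nonempty (L ⋙ zF G (i + 1) ≅ zF G i)
  | Int.ofNat n => hG n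
  | Int.negSucc 0 => zero_iso (fun X => h0 (L.obj X)) (zF_zero G 0)
  | Int.negSucc (n + 1) => by
    have h : Int.negSucc (n + 1) + 1 = Int.negSucc n := by omega
    rw [h]
    exact zero_iso (fun X => zF_zero G n (L.obj X)) (zF_zero G (n + 1))

/-- The theorem `wt_lat` for families of functors `G i`, `i = 0, 1, 2, …`, with `G 0 = 0`. -/
theorem wt_lat_nat [PerfectField k] (hD : IsWeightB D L) (G : ℕ → M ⥤ A) [∀ i, (G i).Additive]
    (h0 : ∀ X, IsZero ((G 0).obj X)) (hG : ∀ i, Nonempty (L ⋙ G (i + 1) ≅ G i))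
    (hpt : ∀ i, ∀ j, IsZero (wtH D (G i) j (aff k k))) (hf : IsFrac k) (i N : ℕ) :
    List.TFAE [
      ∀ Y : Sch k, SmProj Y → topologicalKrullDim Y.left ≤ N → IsZero ((G i).obj (D.h Y)),
      ∀ (n r : ℕ) (γ : Fin r → Gate k (Fin n)), OnLattice {0, 1} γ → 0 < r →
        ringKrullDim (Net γ) ≤ N → ∀ j, IsZero (wtH D (G (i + r - 1)) j (aff k (HypG γ))),
      ∀ (n r : ℕ) (γ : Fin r → Gate k (Fin n)), OnLattice {0, 1} γ → 0 < r → IsDomain (Net γ) →
        Algebra.Smooth k (Net γ) → ∀ m : ℕ, m ≤ N → n = r + m → ringKrullDim (Net γ) = m →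
        ∀ j, IsZero (wtH D (G (i + r - 1)) j (aff k (HypG γ)))] := by
  have hpt' : ∀ i, ∀ j, IsZero (wtH D (zF G i) j (aff k k)) := by
    intro i j
    obtain n | n := i
    · exact hpt n j
    · revert j
      rw [← acy_iff, acy_quotient]
      intro j
      exact ShortComplex.exact_of_isZero_X₂ _ (zF_zero G n ((D.W (aff k k)).X j))
  have key := wt_lat hD (zF G) (zF_twist (L := L) G h0 hG) hpt' hf (i : ℤ) N
  have hr' : ∀ r : ℕ, 0 < r → (i : ℤ) + r - 1 = Int.ofNat (i + r - 1) := by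
    intro r hr
    rw [Int.ofNat_eq_natCast]
    omega
  have k01 := key.out 0 1
  have k20 := key.out 2 0
  tfae_have 1 → 2 := by
    intro h n r γ hγ hr hd j
    have h1 := k01.mp h n r γ hγ hd j
    rw [hr' r hr] at h1
    exact h1
  tfae_have 2 → 3 := by
    intro h n r γ hγ hr _ _ m hm _ hd
    exact h n r γ hγ hr (by rw [hd]; exact_mod_cast hm)
  tfae_have 3 → 1 := by
    intro h
    refine k20.mp ?_
    intro n r γ hγ h1 h2 m hm hn h3
    rcases Nat.eq_zero_or_pos r with rfl | hr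
    · rw [← acy_iff]
      refine acy_empty hD (zF G) (zF_twist (L := L) G h0 hG) hpt' _ _ ?_
      rw [Ideal.Quotient.subsingleton_iff]
      have h2 : cub γ - 1 = -1 := by simp [cub]
      rw [h2, Ideal.span_singleton_neg, Ideal.span_singleton_one]
    · intro j
      rw [hr' r hr]
      exact h n r γ hγ hr h1 h2 m hm hn h3 j
  tfae_finish

end Pool.Agent.H43.PC
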