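import Pool.Agent.H43.PC.Uni

/-!
# Lattice circuits for schemes over the integers; the number of variables minus the number of gates
-/

set_option autoImplicit false

open MvPolynomial

namespace Pool.Agent.H43.PC

section count

lemma card_vr (I J : ℕ) : Fintype.card (Vr I J) = 5 * (I * J) + 3 * I + J + 1 := by
  rw [Fintype.card_congr (proxy_equiv% (Vr I J)).symm]
  simp [Fintype.card_sum, Fintype.card_sigma]
  ring

lemma card_gt (I J : ℕ) (p : Fin I → Bool) :
    Fintype.card (Gt I J p) = 5 * (I * J) + 3 * I + 1 + Fintype.card {i : Fin I // p i = true} := by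
  rw [Fintype.card_congr (proxy_equiv% (Gt I J p)).symm]
  simp only [Fintype.card_sum, Fintype.card_sigma, Fintype.card_unit, Finset.sum_const,
    Finset.card_univ, Fintype.card_fin, smul_eq_mul, mul_one]
  ring

variable {R : Type} {J : ℕ}

lemma card_mk' (L : List (Row R J)) : Fintype.card {i : Fin L.length // mk' L i = true} =
    L.countP fun ρ => ρ.e.isSome := by
  rw [Fintype.card_subtype, Finset.card_filter]
  induction L with
  | nil => simp
  | cons ρ L ih =>
    rw [List.countP_cons, ← ih]
    have h1 := Fin.sum_univ_succ (n := L.length)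
      (fun i : Fin (L.length + 1) => if mk' (ρ :: L) i = true then 1 else 0)
    refine h1.trans ?_
    rw [add_comm]
    rfl

lemma countP_blk [CommRing R] (Ls : List (List (R × Finset (Fin J)))) :
    (Ls.flatMap blk).countP (fun ρ : Row R J => ρ.e.isSome) = Ls.length := by
  induction Ls with
  | nil => simp
  | cons l Ls ih =>
    rw [List.flatMap_cons, List.countP_append, ih, blk, List.countP_append, List.countP_map]
    have h1 : List.countP ((fun ρ : Row R J => ρ.e.isSome) ∘
        (fun t : R × Finset (Fin J) => (⟨t.1, t.2, none⟩ : Row R J))) l = 0 := by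
      rw [List.countP_eq_zero]
      intro a _
      simp
    rw [h1]
    simp
    ring

end count

section zed

variable {R : Type} [CommRing R] (n D : ℕ)

/-- the new variables -/
abbrev Wz : Type := ((Fin n × Fin D) ⊕ Fin n) ⊕ Unit

/-- their numbers -/
noncomputable def ez : Wz n D ≃ Fin (Fintype.card (Wz n D)) := Fintype.equivFin _

/-- the set of the variables for a monomial -/
noncomputable def sz0 (m : Fin n →₀ ℕ) : Finset (Fin (Fintype.card (Wz n D))) :=
  (Finset.univ.filter fun kd : Fin n × Fin D => kd.2.val < m kd.1).map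
    ((Function.Embedding.inl.trans Function.Embedding.inl).trans (ez n D).toEmbedding)

/-- the set of the variables for a monomial with a sign -/
noncomputable def sz (m : Fin n →₀ ℕ) (c : ℤ) : Finset (Fin (Fintype.card (Wz n D))) :=
  if c < 0 then insert (ez n D (Sum.inr ())) (sz0 n D m) else sz0 n D m

/-- the monomials of the relation `g` -/
noncomputable def tgz (R : Type) [CommRing R] (g : MvPolynomial (Fin n) ℤ) :
    List (R × Finset (Fin (Fintype.card (Wz n D)))) :=
  g.support.toList.flatMap fun m =>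
    List.replicate (coeff m g).natAbs (1, sz n D m (coeff m g))

/-- the monomials of the relation between the variables -/
noncomputable def tpz (R : Type) [CommRing R] (kd : Fin n × Fin D) :
    List (R × Finset (Fin (Fintype.card (Wz n D)))) :=
  [(1, {ez n D (Sum.inl (Sum.inl kd))}), (1, {ez n D (Sum.inl (Sum.inr kd.1))})]

/-- the monomials of the relation for `-1` -/
noncomputable def tuz (R : Type) [CommRing R] : List (R × Finset (Fin (Fintype.card (Wz n D)))) :=
  [(1, {ez n D (Sum.inr ())}), (1, ∅)]

/-- all relations -/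
noncomputable def tLz (R : Type) [CommRing R] (G : List (MvPolynomial (Fin n) ℤ)) :
    List (List (R × Finset (Fin (Fintype.card (Wz n D))))) :=
  tuz n D R :: ((Finset.univ.toList.map fun kd => tpz n D R kd) ++ G.map (tgz n D R))

lemma length_tLz (G : List (MvPolynomial (Fin n) ℤ)) :
    (tLz n D R G).length = n * D + 1 + G.length := by
  simp [tLz]
  ring

lemma card_wz : Fintype.card (Wz n D) = n * D + n + 1 := by
  simp [Wz]

/-- the values of the new variables -/
noncomputable def alz (R : Type) [CommRing R] (j : Fin (Fintype.card (Wz n D))) :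
    MvPolynomial (Fin n) R :=
  Sum.elim (Sum.elim (fun kd => X kd.1) (fun k => -X k)) (fun _ => -1) ((ez n D).symm j)

/-- the old variables -/
noncomputable def bez (R : Type) [CommRing R] (k : Fin n) :
    MvPolynomial (Fin (Fintype.card (Wz n D))) R :=
  -X (ez n D (Sum.inl (Sum.inr k)))

lemma prod_sz0 (m : Fin n →₀ ℕ) (hm : ∀ k, m k ≤ D) :
    ∏ j ∈ sz0 n D m, alz n D R j = ∏ k, X k ^ m k := by
  rw [sz0, Finset.prod_map]
  have h1 : ∀ kd : Fin n × Fin D, alz n D R (((Function.Embedding.inl.trans
      Function.Embedding.inl).trans (ez n D).toEmbedding) kd) = X kd.1 := by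
    intro kd
    simp [alz]
  rw [Finset.prod_congr rfl fun kd _ => h1 kd, Finset.prod_filter, Fintype.prod_prod_type]
  apply Finset.prod_congr rfl
  intro k _
  rw [← Finset.prod_filter]
  change ∏ d ∈ Finset.univ.filter (fun d : Fin D => d.val < m k), (X k : MvPolynomial (Fin n) R) = _
  rw [Finset.prod_const]
  congr 1
  have h2 : (Finset.univ.filter fun d : Fin D => d.val < m k).card = m k := by
    rw [Fin.card_filter_val_lt]
    exact min_eq_right (hm k)
  exact h2

lemma notMem_sz0 (m : Fin n →₀ ℕ) : ez n D (Sum.inr ()) ∉ sz0 n D m := by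
  intro h
  rw [sz0, Finset.mem_map] at h
  obtain ⟨kd, -, h1⟩ := h
  have h2 := (ez n D).injective h1
  simp at h2

lemma prod_sz (m : Fin n →₀ ℕ) (hm : ∀ k, m k ≤ D) (c : ℤ) :
    ∏ j ∈ sz n D m c, alz n D R j = (if c < 0 then -1 else 1) * ∏ k, X k ^ m k := by
  unfold sz
  split_ifs
  · rw [Finset.prod_insert (notMem_sz0 n D m), prod_sz0 n D m hm]
    congr 1
    simp [alz]
  · rw [prod_sz0 n D m hm, one_mul]

variable {J : ℕ}

lemma tm_nil : tm ([] : List (R × Finset (Fin J))) = 0 := by simp [tm]

lemma tm_append (l l' : List (R × Finset (Fin J))) : tm (l ++ l') = tm l + tm l' := by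
  simp [tm]

lemma tm_flatMap {α : Type} (l : List α) (f : α → List (R × Finset (Fin J))) :
    tm (l.flatMap f) = (l.map fun a => tm (f a)).sum := by
  induction l with
  | nil => simp [tm]
  | cons a l ih => rw [List.flatMap_cons, tm_append, ih, List.map_cons, List.sum_cons]

lemma tm_replicate (a : ℕ) (t : R × Finset (Fin J)) :
    tm (List.replicate a t) = (a : MvPolynomial (Fin J) R) * (C t.1 * ∏ j ∈ t.2, X j) := by
  rw [tm, List.map_replicate, List.sum_replicate, nsmul_eq_mul]

lemma sign_natAbs (c : ℤ) : ((c.natAbs : ℤ) * if c < 0 then -1 else 1) = c := by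
  split_ifs <;> omega

lemma aeval_tgz (g : MvPolynomial (Fin n) ℤ) (hg : ∀ m ∈ g.support, ∀ k, m k ≤ D) :
    aeval (alz n D R) (tm (tgz n D R g)) = map (Int.castRingHom R) g := by
  rw [tgz, tm_flatMap, map_list_sum, List.map_map]
  conv_rhs => rw [g.as_sum, map_sum]
  rw [← Finset.sum_map_toList]
  congr 1
  apply List.map_congr_left
  intro m hm
  rw [Finset.mem_toList] at hm
  simp only [Function.comp_apply]
  rw [tm_replicate, C_1, one_mul, map_mul, map_natCast, map_prod,
    Finset.prod_congr rfl fun j _ => aeval_X _ j, prod_sz n D m (hg m hm), map_monomial,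
    monomial_eq, Finsupp.prod_fintype _ _ fun _ => pow_zero _, ← mul_assoc]
  congr 1
  have h1 := congrArg (fun c : ℤ => (c : MvPolynomial (Fin n) R)) (sign_natAbs (coeff m g))
  rw [eq_intCast (Int.castRingHom R), map_intCast, ← h1, Int.cast_mul, Int.cast_natCast]
  congr 1
  split_ifs <;> simp

lemma tm_tpz (kd : Fin n × Fin D) : tm (tpz n D R kd) =
    X (ez n D (Sum.inl (Sum.inl kd))) + X (ez n D (Sum.inl (Sum.inr kd.1))) := by
  simp [tm, tpz]

lemma tm_tuz : tm (tuz n D R) = X (ez n D (Sum.inr ())) + 1 := by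
  simp [tm, tuz]

/-- the ideal of the relations with coefficients in `R` -/
noncomputable abbrev idZ (R : Type) [CommRing R] {n : ℕ} (G : List (MvPolynomial (Fin n) ℤ)) :
    Ideal (MvPolynomial (Fin n) R) :=
  Ideal.span {p | ∃ g ∈ G, map (Int.castRingHom R) g = p}

/-- the new presentation -/
noncomputable def zedIso (G : List (MvPolynomial (Fin n) ℤ))
    (hG : ∀ g ∈ G, ∀ m ∈ g.support, ∀ k, m k ≤ D) :
    (MvPolynomial (Fin (Fintype.card (Wz n D))) R ⧸
      Ideal.span {p : MvPolynomial (Fin (Fintype.card (Wz n D))) R |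
        ∃ l ∈ tLz n D R G, tm l = p}) ≃ₐ[R] (MvPolynomial (Fin n) R ⧸ idZ R G) := by
  have h3 : ∀ j, aeval (bez n D R) (alz n D R j) - X j ∈ Ideal.span
      {p : MvPolynomial (Fin (Fintype.card (Wz n D))) R | ∃ l ∈ tLz n D R G, tm l = p} := by
    intro j
    obtain ⟨w, rfl⟩ := (ez n D).surjective j
    rcases w with (kd | k) | u
    · have h1 : aeval (bez n D R) (alz n D R (ez n D (Sum.inl (Sum.inl kd)))) -
          X (ez n D (Sum.inl (Sum.inl kd))) = -tm (tpz n D R kd) := by
        rw [tm_tpz, alz, Equiv.symm_apply_apply, Sum.elim_inl, Sum.elim_inl, aeval_X, bez]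
        ring
      rw [h1]
      exact Ideal.neg_mem_iff _ |>.mpr (Ideal.subset_span ⟨_, List.mem_cons_of_mem _
        (List.mem_append_left _ (List.mem_map.mpr ⟨kd, Finset.mem_toList.mpr
          (Finset.mem_univ _), rfl⟩)), rfl⟩)
    · have h1 : aeval (bez n D R) (alz n D R (ez n D (Sum.inl (Sum.inr k)))) -
          X (ez n D (Sum.inl (Sum.inr k))) = 0 := by
        rw [alz, Equiv.symm_apply_apply, Sum.elim_inl, Sum.elim_inr, map_neg, aeval_X, bez]
        ring
      rw [h1]
      exact Ideal.zero_mem _
    · have h1 : aeval (bez n D R) (alz n D R (ez n D (Sum.inr u))) -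
          X (ez n D (Sum.inr u)) = -tm (tuz n D R) := by
        rw [tm_tuz, alz, Equiv.symm_apply_apply, Sum.elim_inr, map_neg, map_one]
        ring
      rw [h1]
      exact Ideal.neg_mem_iff _ |>.mpr (Ideal.subset_span ⟨_, List.mem_cons_self, rfl⟩)
  refine quotIso _ _ (alz n D R) (bez n D R) ?_ ?_ h3 ?_
  · rw [Ideal.span_le]
    rintro _ ⟨l, hl, rfl⟩
    change aeval (alz n D R) (tm l) ∈ idZ R G
    rw [tLz, List.mem_cons, List.mem_append, List.mem_map, List.mem_map] at hl
    rcases hl with rfl | ⟨kd, -, rfl⟩ | ⟨g, hg, rfl⟩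
    · rw [tm_tuz, map_add, aeval_X, alz, Equiv.symm_apply_apply, Sum.elim_inr, map_one,
        neg_add_cancel]
      exact Ideal.zero_mem _
    · rw [tm_tpz, map_add, aeval_X, aeval_X, alz, alz, Equiv.symm_apply_apply,
        Equiv.symm_apply_apply, Sum.elim_inl, Sum.elim_inl, Sum.elim_inl, Sum.elim_inr,
        add_neg_cancel]
      exact Ideal.zero_mem _
    · rw [aeval_tgz n D g (hG g hg)]
      exact Ideal.subset_span ⟨g, hg, rfl⟩
  · rw [idZ, Ideal.span_le]
    rintro _ ⟨g, hg, rfl⟩
    change aeval (bez n D R) (map (Int.castRingHom R) g) ∈ Ideal.span _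
    have h1 : (Ideal.Quotient.mkₐ R (Ideal.span {p : MvPolynomial (Fin (Fintype.card (Wz n D))) R |
        ∃ l ∈ tLz n D R G, tm l = p})).comp ((aeval (bez n D R)).comp (aeval (alz n D R))) =
        Ideal.Quotient.mkₐ R _ := by
      apply MvPolynomial.algHom_ext
      intro j
      rw [AlgHom.comp_apply, AlgHom.comp_apply, aeval_X]
      exact Ideal.Quotient.eq.mpr (h3 j)
    have h2 := congrArg (fun f => f (tm (tgz n D R g))) h1
    simp only [AlgHom.comp_apply] at h2
    rw [aeval_tgz n D g (hG g hg)] at h2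
    have h4 : Ideal.Quotient.mkₐ R (Ideal.span {p : MvPolynomial (Fin (Fintype.card (Wz n D))) R |
        ∃ l ∈ tLz n D R G, tm l = p}) (tm (tgz n D R g)) = 0 :=
      Ideal.Quotient.eq_zero_iff_mem.mpr (Ideal.subset_span ⟨_, List.mem_cons_of_mem _
        (List.mem_append_right _ (List.mem_map.mpr ⟨g, hg, rfl⟩)), rfl⟩)
    rw [h4] at h2
    exact Ideal.Quotient.eq_zero_iff_mem.mp h2
  · intro k
    have h1 : aeval (alz n D R) (bez n D R k) - X k = 0 := by
      rw [bez, map_neg, aeval_X, alz, Equiv.symm_apply_apply, Sum.elim_inl, Sum.elim_inr]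
      ring
    rw [h1]
    exact Ideal.zero_mem _

end zed

/-- **Lattice circuits.** Every affine scheme over `R` which is given by `c` equations with integer
coefficients in `n` variables is the scheme of the solutions of a lattice system of `r'` gates in `n'`
variables with the constants `0` and `1`, where `n' - r' = n - c`. -/
theorem exists_net_int (R : Type) [CommRing R] {n : ℕ} (G : List (MvPolynomial (Fin n) ℤ)) :
    ∃ (n' r' : ℕ) (γ : Fin r' → Gate R (Fin n')), OnLattice {0, 1} γ ∧
      Nonempty (Net γ ≃ₐ[R] (MvPolynomial (Fin n) R ⧸ idZ R G)) ∧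
      (∃ (v : Fin n') (g : Fin r'), γ g = .const 0 v) ∧ n' + G.length = r' + n := by
  classical
  let D : ℕ := (G.map fun g => ∑ m ∈ g.support, m.degree).sum
  have hD : ∀ g ∈ G, ∀ m ∈ g.support, ∀ k, m k ≤ D := by
    intro g hg m hm k
    have h1 : m.degree ≤ ∑ m ∈ g.support, m.degree :=
      Finset.single_le_sum (f := fun m : Fin n →₀ ℕ => m.degree) (fun _ _ => Nat.zero_le _) hm
    have h2 : ∑ m ∈ g.support, m.degree ≤ D :=
      List.le_sum_of_mem (List.mem_map.mpr ⟨g, hg, rfl⟩)
    exact (Finsupp.le_degree k m).trans (h1.trans h2)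
  let L : List (Row R (Fintype.card (Wz n D))) := (tLz n D R G).flatMap blk
  have h01 : (0 : R) ∈ ({0, 1} : Set R) := Or.inl rfl
  have hL : ∀ ρ ∈ L, RowIn {0, 1} ρ := by
    apply rowIn_blk h01
    intro l hl t ht
    right
    rw [tLz, List.mem_cons, List.mem_append, List.mem_map, List.mem_map] at hl
    rcases hl with rfl | ⟨kd, -, rfl⟩ | ⟨g, hg, rfl⟩
    · simp only [tuz, List.mem_cons, List.not_mem_nil, or_false] at ht
      rcases ht with rfl | rfl <;> rfl
    · simp only [tpz, List.mem_cons, List.not_mem_nil, or_false] at ht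
      rcases ht with rfl | rfl <;> rfl
    · obtain ⟨m, -, h1⟩ := List.mem_flatMap.mp ht
      rw [List.eq_of_mem_replicate h1]
      rfl
  let v := Fintype.equivFin (Vr L.length (Fintype.card (Wz n D)))
  let g := (Fintype.equivFin (Gt L.length (Fintype.card (Wz n D)) (mk' L))).symm
  refine ⟨_, _, fun k => (gate L (g k)).map v, (onLattice_gate h01 L hL).rename v g, ?_,
    ?_, ?_⟩
  · have e1 := (netRename (gate L) v g).symm
    have e2 := netIso L
    have e3 : (MvPolynomial (Fin (Fintype.card (Wz n D))) R ⧸ Ideal.span (relL L)) ≃ₐ[R]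
        (MvPolynomial (Fin (Fintype.card (Wz n D))) R ⧸ Ideal.span
          {p : MvPolynomial (Fin (Fintype.card (Wz n D))) R | ∃ l ∈ tLz n D R G, tm l = p}) :=
      Ideal.quotientEquivAlgOfEq R (span_relL _)
    exact ⟨e1.trans (e2.trans (e3.trans (zedIso n D G hD)))⟩
  · refine ⟨v (.a 0), g.symm .z, ?_⟩
    simp only [Equiv.apply_symm_apply]
    rfl
  · have h1 := card_vr L.length (Fintype.card (Wz n D))
    have h2 := card_gt L.length (Fintype.card (Wz n D)) (mk' L)
    rw [card_mk', countP_blk, length_tLz] at h2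
    have h3 := card_wz n D
    rw [h1, h2]
    have h4 : ∀ x y : ℕ, y = n * D + n + 1 → x + y + 1 + G.length =
        x + 1 + (n * D + 1 + G.length) + n := by
      intro x y hy
      subst hy
      ring
    exact h4 _ _ h3

end Pool.Agent.H43.PC
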